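import Pool.Agent.TH276.Eb.Lim

set_option autoImplicit false
set_option linter.unusedSectionVars false
set_option linter.unusedVariables false

open MeasureTheory Filter Topology
open scoped ENNReal NNReal ComplexConjugate InnerProductSpace Pointwise

namespace Pool.Agent.TH276.Eb

universe u v

variable {G : Type u} [Group G] [TopologicalSpace G] [IsTopologicalGroup G]
  [LocallyCompactSpace G] [T2Space G] [MeasurableSpace G] [BorelSpace G]
  {X : Type v} [TopologicalSpace X] [CompactSpace X] [T2Space X] [MulAction G X]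
  [ContinuousSMul G X]

/-- the second projection of the support -/
def sup2 (g : X × G → ℝ) : Set G := Prod.snd '' tsupport g

lemma isCompact_sup2 {g : X × G → ℝ} (hs : HasCompactSupport g) : IsCompact (sup2 g) :=
  IsCompact.image hs continuous_snd

lemma mem_sup2 {g : X × G → ℝ} {x : X} {t : G} (h : g (x, t) ≠ 0) : t ∈ sup2 g :=
  ⟨(x, t), subset_tsupport _ h, rfl⟩

lemma cs_slice {g : X × G → ℝ} (hs : HasCompactSupport g) (x : X) (s : G) :
    HasCompactSupport (fun t => g (x, s * t)) := by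
  have h1 : HasCompactSupport (fun t => g (x, t)) := by
    refine HasCompactSupport.intro (isCompact_sup2 hs) ?_
    intro t ht
    by_contra hne
    exact ht (mem_sup2 hne)
  exact h1.comp_homeomorph (Homeomorph.mulLeft s)

/-- uniform continuity of the translation in mean -/
lemma mean_cont {g : X × G → ℝ} (hc : Continuous g) (hs : HasCompactSupport g) (ε : ℝ)
    (hε : 0 < ε) :
    ∀ᶠ x in 𝓝 (1 : G), ∀ y : X,
      ∫ t, |g (x • y, x * t) - g (y, t)| ∂(Measure.haar : Measure G) ≤ ε := by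
  obtain ⟨N, hN, hN1⟩ := exists_compact_mem_nhds (1 : G)
  set K' := sup2 g with hK'
  have hK'c : IsCompact K' := isCompact_sup2 hs
  set K := K' ∪ N⁻¹ * K' with hK
  have hKc : IsCompact K := hK'c.union (hN.inv.mul hK'c)
  set m := ((Measure.haar : Measure G) K).toReal with hm
  have hm0 : 0 ≤ m := ENNReal.toReal_nonneg
  have hδ : 0 < ε / (m + 1) := by positivity
  have h1 : ∀ᶠ x in 𝓝 (1 : G), ∀ q ∈ (Set.univ : Set X) ×ˢ K,
      |g (x • q.1, x * q.2) - g (q.1, q.2)| < ε / (m + 1) := by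
    apply (isCompact_univ.prod hKc).eventually_forall_of_forall_eventually
    intro q hq
    have hcont : Continuous (fun r : G × (X × G) => |g (r.1 • r.2.1, r.1 * r.2.2) - g (r.2.1, r.2.2)|) := by
      fun_prop
    have h2 := hcont.tendsto (1, q)
    simp only [one_smul, one_mul, sub_self, abs_zero] at h2
    exact h2.eventually (gt_mem_nhds hδ)
  filter_upwards [h1, hN1] with x hx hxN y
  have hsupp : ∀ t, t ∉ K → |g (x • y, x * t) - g (y, t)| = 0 := by
    intro t ht
    have e1 : g (y, t) = 0 := by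
      by_contra hne
      exact ht (Or.inl (mem_sup2 hne))
    have e2 : g (x • y, x * t) = 0 := by
      by_contra hne
      apply ht
      refine Or.inr ?_
      have : t = x⁻¹ * (x * t) := by group
      rw [this]
      exact Set.mul_mem_mul (Set.inv_mem_inv.2 hxN) (mem_sup2 hne)
    rw [e1, e2]
    simp
  calc ∫ t, |g (x • y, x * t) - g (y, t)| ∂(Measure.haar : Measure G)
      = ∫ t in K, |g (x • y, x * t) - g (y, t)| ∂(Measure.haar : Measure G) := by
        rw [setIntegral_eq_integral_of_forall_compl_eq_zero hsupp]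
    _ ≤ ∫ t in K, ε / (m + 1) ∂(Measure.haar : Measure G) := by
        apply setIntegral_mono_on
        · have hci : Continuous (fun t => |g (x • y, x * t) - g (y, t)|) := by fun_prop
          exact hci.continuousOn.integrableOn_compact hKc
        · exact integrableOn_const hKc.measure_lt_top.ne
        · exact hKc.measurableSet
        · intro t ht
          exact (hx (y, t) ⟨trivial, ht⟩).le
    _ = m * (ε / (m + 1)) := by
        rw [setIntegral_const, smul_eq_mul, Measure.real, ← hm]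
    _ ≤ ε := by
        rw [mul_div_assoc', div_le_iff₀ (by positivity)]
        nlinarith

/-- square roots of the translated functions, as elements of `L²` -/
noncomputable def etaC (g : X × G → ℝ) (hc : Continuous g) (hs : HasCompactSupport g) (x₀ : X)
    (s : G) : Cc G :=
  ⟨fun t => ((Real.sqrt (g (s • x₀, s * t)) : ℝ) : ℂ), by fun_prop, by
    have h := cs_slice hs (s • x₀) s
    exact h.comp_left (g := fun r => ((Real.sqrt r : ℝ) : ℂ)) (by simp)⟩

noncomputable def eta (g : X × G → ℝ) (hc : Continuous g) (hs : HasCompactSupport g) (x₀ : X)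
    (s : G) : Lp ℂ 2 (Measure.haar : Measure G) := toL2 (etaC g hc hs x₀ s)

section

variable {g : X × G → ℝ} (hc : Continuous g) (hs : HasCompactSupport g) (x₀ : X)

lemma norm_eta (hg0 : ∀ z, 0 ≤ g z) (hg1 : ∀ x, ∫ t, g (x, t) ∂(Measure.haar : Measure G) = 1)
    (s : G) : ‖eta g hc hs x₀ s‖ = 1 := by
  have h : ‖eta g hc hs x₀ s‖ ^ 2 = 1 := by
    unfold eta
    rw [norm_toL2_sq, ← hg1 (s • x₀), ← integral_mul_left_eq_self (fun t => g (s • x₀, t)) s]
    congr 1
    ext t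
    show ‖((Real.sqrt (g (s • x₀, s * t)) : ℝ) : ℂ)‖ ^ 2 = _
    rw [Complex.norm_real, Real.norm_eq_abs, sq_abs, Real.sq_sqrt (hg0 _)]
  nlinarith [norm_nonneg (eta g hc hs x₀ s)]

lemma norm_eta_sub (hg0 : ∀ z, 0 ≤ g z) (x s : G) :
    ‖eta g hc hs x₀ (x * s) - eta g hc hs x₀ s‖ ^ 2 ≤
      ∫ t, |g (x • (s • x₀), x * t) - g (s • x₀, t)| ∂(Measure.haar : Measure G) := by
  unfold eta
  rw [← map_sub, norm_toL2_sq,
    ← integral_mul_left_eq_self (fun t => |g (x • (s • x₀), x * t) - g (s • x₀, t)|) s]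
  have hci : Continuous (fun t => |g (x • (s • x₀), x * (s * t)) - g (s • x₀, s * t)|) := by fun_prop
  have h1 := cs_slice hs (x • s • x₀) (x * s)
  have h2 := cs_slice hs (s • x₀) s
  have h3 : HasCompactSupport (fun t => |g (x • (s • x₀), x * (s * t)) - g (s • x₀, s * t)|) := by
    have : HasCompactSupport (fun t => g (x • s • x₀, (x * s) * t) - g (s • x₀, s * t)) := h1.sub h2
    have h4 := this.norm
    simpa only [Real.norm_eq_abs, mul_assoc] using h4
  apply integral_mono_of_nonneg (Eventually.of_forall fun t => by positivity)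
    (hci.integrable_of_hasCompactSupport h3)
  refine Eventually.of_forall fun t => ?_
  show ‖((Real.sqrt (g ((x * s) • x₀, (x * s) * t)) : ℝ) : ℂ) -
    ((Real.sqrt (g (s • x₀, s * t)) : ℝ) : ℂ)‖ ^ 2 ≤ |g (x • (s • x₀), x * (s * t)) - g (s • x₀, s * t)|
  rw [mul_smul, mul_assoc, ← Complex.ofReal_sub, Complex.norm_real, Real.norm_eq_abs, sq_abs]
  set a := g (x • s • x₀, x * (s * t))
  set b := g (s • x₀, s * t)
  have ha : 0 ≤ a := hg0 _
  have hb : 0 ≤ b := hg0 _
  have hsa := Real.sq_sqrt ha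
  have hsb := Real.sq_sqrt hb
  have hna := Real.sqrt_nonneg a
  have hnb := Real.sqrt_nonneg b
  rcases le_total (Real.sqrt b) (Real.sqrt a) with h | h
  · calc (Real.sqrt a - Real.sqrt b) ^ 2 ≤ a - b := by nlinarith
      _ ≤ |a - b| := le_abs_self _
  · calc (Real.sqrt a - Real.sqrt b) ^ 2 ≤ b - a := by nlinarith
      _ ≤ |a - b| := by rw [abs_sub_comm]; exact le_abs_self _

lemma eta_unif (hg0 : ∀ z, 0 ≤ g z) (ε : ℝ) (hε : 0 < ε) :
    ∀ᶠ x in 𝓝 (1 : G), ∀ s, ‖eta g hc hs x₀ (x⁻¹ * s) - eta g hc hs x₀ s‖ ≤ ε := by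
  have h1 := mean_cont (X := X) hc hs (ε ^ 2) (by positivity)
  have h2 : Tendsto (fun x : G => x⁻¹) (𝓝 1) (𝓝 1) := by
    simpa using (continuous_inv (G := G)).tendsto 1
  filter_upwards [h2.eventually h1] with x hx s
  have h3 := (norm_eta_sub hc hs x₀ hg0 x⁻¹ s).trans (hx (s • x₀))
  exact (sq_le_sq₀ (norm_nonneg _) hε.le).1 h3

lemma eta_cont (hg0 : ∀ z, 0 ≤ g z) : Continuous (eta g hc hs x₀) := by
  rw [continuous_iff_continuousAt]
  intro s
  rw [ContinuousAt, Metric.tendsto_nhds]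
  intro ε hε
  have h1 := eta_unif hc hs x₀ hg0 (ε / 2) (by positivity)
  have h2 : Tendsto (fun t : G => s * t⁻¹) (𝓝 s) (𝓝 1) := by
    have : Continuous (fun t : G => s * t⁻¹) := by fun_prop
    simpa using this.tendsto s
  filter_upwards [h2.eventually h1] with t ht
  have h3 := ht s
  have e : (s * t⁻¹)⁻¹ * s = t := by group
  rw [e] at h3
  rw [dist_eq_norm]
  linarith

lemma inner_eta_eq_zero (x s : G) (hx : x ∉ sup2 g * (sup2 g)⁻¹) :
    ⟪eta g hc hs x₀ (x⁻¹ * s), eta g hc hs x₀ s⟫_ℂ = 0 := by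
  unfold eta
  rw [L2.inner_def]
  have h : (fun a => ⟪(toL2 (etaC g hc hs x₀ (x⁻¹ * s)) : G → ℂ) a,
      (toL2 (etaC g hc hs x₀ s) : G → ℂ) a⟫_ℂ) =ᵐ[Measure.haar] fun _ => (0 : ℂ) := by
    filter_upwards [coe_toL2 (etaC g hc hs x₀ (x⁻¹ * s)), coe_toL2 (etaC g hc hs x₀ s)] with t h1 h2
    rw [h1, h2]
    show ⟪((Real.sqrt (g ((x⁻¹ * s) • x₀, (x⁻¹ * s) * t)) : ℝ) : ℂ),
      ((Real.sqrt (g (s • x₀, s * t)) : ℝ) : ℂ)⟫_ℂ = 0
    by_cases h3 : g (s • x₀, s * t) = 0
    · rw [h3]; simp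
    by_cases h4 : g ((x⁻¹ * s) • x₀, (x⁻¹ * s) * t) = 0
    · rw [h4]; simp
    exfalso
    apply hx
    have h5 := mem_sup2 h3
    have h6 := mem_sup2 h4
    have : x = (s * t) * ((x⁻¹ * s) * t)⁻¹ := by group
    rw [this]
    exact Set.mul_mem_mul h5 (Set.inv_mem_inv.2 h6)
  rw [integral_congr_ae h]
  simp

end

/-- The main theorem for a function `g` as in the definition of amenable actions -/
theorem main_step {g : X × G → ℝ} (hc : Continuous g) (hs : HasCompactSupport g) (x₀ : X)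
    (hg0 : ∀ z, 0 ≤ g z) (hg1 : ∀ x, ∫ t, g (x, t) ∂(Measure.haar : Measure G) = 1)
    {φ : G → ℂ} (hφc : Continuous φ) (hφ : φ ∈ closure (coefSet G)) (K : Set G) (δ : ℝ)
    (hδ : 0 ≤ δ)
    (hK : ∀ x ∈ K, ∀ y : X, ∫ t, |g (x⁻¹ • y, x⁻¹ * t) - g (y, t)| ∂(Measure.haar : Measure G) ≤ δ ^ 2)
    (ε : ℝ) (hε : 0 < ε) :
    ∃ ξ : G → ℂ, MemLp ξ 2 (Measure.haar : Measure G) ∧
      ∀ x ∈ K, ‖φ x - coef ξ x‖ < δ * (φ 1).re + ε := by
  obtain ⟨p, hp1, hp2, hp3, hp4⟩ := one_step (eta_cont hc hs x₀ hg0) (norm_eta hc hs x₀ hg0 hg1)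
    (eta_unif hc hs x₀ hg0) hφc hφ
  obtain ⟨H, _, _, _, w, hw⟩ := exists_gram hp1
  have hwc : Continuous w := continuous_gram hw (hp2.tendsto 1)
  have hps : HasCompactSupport p := by
    refine HasCompactSupport.intro ((isCompact_sup2 hs).mul (isCompact_sup2 hs).inv) ?_
    intro x hx
    exact hp4 x fun s => inner_eta_eq_zero hc hs x₀ x s hx
  obtain ⟨ξ, hξ, hξ2⟩ := godement hp2 hps hw hwc ε hε
  refine ⟨ξ, hξ, fun x hx => ?_⟩
  have h1 : ‖p x - φ x‖ ≤ δ * (φ 1).re := by
    apply hp3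
    intro s
    have h2 := (norm_eta_sub hc hs x₀ hg0 x⁻¹ s).trans (hK x hx (s • x₀))
    exact (sq_le_sq₀ (norm_nonneg _) hδ).1 h2
  have h3 := hξ2 x
  have e : φ x - coef ξ x = -(p x - φ x) + (p x - coef ξ x) := by ring
  rw [e]
  calc ‖-(p x - φ x) + (p x - coef ξ x)‖ ≤ ‖-(p x - φ x)‖ + ‖p x - coef ξ x‖ := norm_add_le _ _
    _ < δ * (φ 1).re + ε := by
      rw [norm_neg]
      exact add_lt_add_of_le_of_lt h1 h3

end Pool.Agent.TH276.Eb
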