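import Pool.Agent.TH276.Eb.Lat5

set_option autoImplicit false
set_option linter.unusedSectionVars false
set_option linter.unusedVariables false

/-!
# Compact open subgroups with a spectral gap
-/

open MeasureTheory Filter Topology
open scoped ENNReal NNReal ComplexConjugate InnerProductSpace Pointwise

namespace Pool.Agent.TH276.Eb

universe u v

variable {G : Type u} [Group G] [TopologicalSpace G] [IsTopologicalGroup G]
  [LocallyCompactSpace G] [T2Space G] [MeasurableSpace G] [BorelSpace G]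

section av

/-- convolution with a finitely supported measure -/
noncomputable def avT {ι : Type} [Fintype ι] (κ : ι → G) (c : ι → ℝ) (f : G → ℂ) (y : G) : ℂ :=
  ∑ j, (c j : ℂ) * f ((κ j)⁻¹ * y)

variable {ι : Type} [Fintype ι] {κ : ι → G} {c : ι → ℝ} {K : Subgroup G}

lemma avT_cont {f : G → ℂ} (hf : Continuous f) : Continuous (avT κ c f) := by
  show Continuous fun y => ∑ j, (c j : ℂ) * f ((κ j)⁻¹ * y)
  fun_prop

lemma iter_avg (hκ : ∀ j, κ j ∈ K) (hc0 : ∀ j, 0 ≤ c j) (hc1 : ∑ j, c j = 1) (n : ℕ) :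
    ∃ (ι' : Type) (_ : Fintype ι') (τ : ι' → G) (b : ι' → ℝ), (∀ a, τ a ∈ K) ∧ (∀ a, 0 ≤ b a) ∧
      ∑ a, b a = 1 ∧ ∀ f y, (avT κ c)^[n] f y = avT τ b f y := by
  induction n with
  | zero =>
    refine ⟨Unit, inferInstance, fun _ => 1, fun _ => 1, fun _ => K.one_mem, fun _ => zero_le_one,
      by simp, fun f y => ?_⟩
    simp [avT]
  | succ n ih =>
    obtain ⟨ι', hι', τ, b, h1, h2, h3, h4⟩ := ih
    refine ⟨ι × ι', inferInstance, fun q => κ q.1 * τ q.2, fun q => c q.1 * b q.2,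
      fun q => K.mul_mem (hκ _) (h1 _), fun q => mul_nonneg (hc0 _) (h2 _), ?_, fun f y => ?_⟩
    · rw [Fintype.sum_prod_type]
      simp only [← Finset.mul_sum, h3, mul_one, hc1]
    · rw [Function.iterate_succ_apply']
      simp only [avT, Fintype.sum_prod_type, Finset.mul_sum, h4]
      refine Finset.sum_congr rfl fun j _ => Finset.sum_congr rfl fun a _ => ?_
      push_cast
      rw [mul_inv_rev]
      simp only [mul_assoc]

lemma avT_right (f : G → ℂ) (y : G) :
    avT κ c (fun k => f (k * y)) = fun k => avT κ c f (k * y) := by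
  ext k
  simp [avT, mul_assoc]

lemma avT_iter_right (n : ℕ) (f : G → ℂ) (y : G) :
    (avT κ c)^[n] (fun k => f (k * y)) = fun k => (avT κ c)^[n] f (k * y) := by
  induction n with
  | zero => rfl
  | succ n ih => rw [Function.iterate_succ_apply', ih, avT_right, Function.iterate_succ_apply']

lemma avT_sub (hc1 : ∑ j, c j = 1) (f : G → ℂ) (m : ℂ) :
    avT κ c (fun y => f y - m) = fun y => avT κ c f y - m := by
  have h : ∑ j, (c j : ℂ) = 1 := by exact_mod_cast hc1
  ext y
  simp only [avT, mul_sub, Finset.sum_sub_distrib, ← Finset.sum_mul, h, one_mul]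

lemma avT_iter_sub (hc1 : ∑ j, c j = 1) (n : ℕ) (f : G → ℂ) (m : ℂ) :
    (avT κ c)^[n] (fun y => f y - m) = fun y => (avT κ c)^[n] f y - m := by
  induction n with
  | zero => rfl
  | succ n ih => rw [Function.iterate_succ_apply', ih, avT_sub hc1, Function.iterate_succ_apply']

lemma avT_iter_cont (n : ℕ) {f : G → ℂ} (hf : Continuous f) : Continuous ((avT κ c)^[n] f) := by
  induction n with
  | zero => exact hf
  | succ n ih =>
    rw [Function.iterate_succ_apply']
    exact avT_cont ih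

end av

section K

variable {K : Subgroup G}

lemma setInt_shift {E : Type*} [NormedAddCommGroup E] [NormedSpace ℝ E]
    (hKo : IsOpen (K : Set G)) {κ : G} (hκ : κ ∈ K) (g : G → E) :
    ∫ y in (K : Set G), g (κ⁻¹ * y) ∂(Measure.haar : Measure G) =
      ∫ y in (K : Set G), g y ∂(Measure.haar : Measure G) := by
  rw [← integral_indicator hKo.measurableSet, ← integral_indicator hKo.measurableSet]
  rw [← integral_mul_left_eq_self ((K : Set G).indicator g) κ⁻¹]
  congr 1
  ext y
  by_cases hy : y ∈ (K : Set G)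
  · have h : κ⁻¹ * y ∈ (K : Set G) := K.mul_mem (K.inv_mem hκ) hy
    rw [Set.indicator_of_mem hy, Set.indicator_of_mem h]
  · have h : κ⁻¹ * y ∉ (K : Set G) := fun h => hy (by simpa using K.mul_mem hκ h)
    rw [Set.indicator_of_notMem hy, Set.indicator_of_notMem h]

lemma measK_pos (hKc : IsCompact (K : Set G)) (hKo : IsOpen (K : Set G)) :
    0 < (Measure.haar : Measure G).real (K : Set G) := by
  apply ENNReal.toReal_pos
  · exact (hKo.measure_pos _ ⟨1, K.one_mem⟩).ne'
  · exact hKc.measure_lt_top.ne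

lemma var_le (hKc : IsCompact (K : Set G)) (hKo : IsOpen (K : Set G)) {f : G → ℂ}
    (hf : Continuous f) : ∃ m : ℂ,
      ∫ y in (K : Set G), (f y - m) ∂(Measure.haar : Measure G) = 0 ∧
      ∫ y in (K : Set G), ‖f y - m‖ ^ 2 ∂(Measure.haar : Measure G) ≤
        ∫ y in (K : Set G), ‖f y‖ ^ 2 ∂(Measure.haar : Measure G) := by
  set μ : Measure G := Measure.haar with hμ
  set V : ℝ := μ.real (K : Set G) with hV
  have hV0 : 0 < V := measK_pos hKc hKo
  set I := ∫ y in (K : Set G), f y ∂μ with hI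
  set m : ℂ := I / V with hm
  have hVc : (V : ℂ) ≠ 0 := by exact_mod_cast hV0.ne'
  have hIm : I = V * m := by rw [hm]; field_simp
  have if1 : IntegrableOn f (K : Set G) μ := hf.continuousOn.integrableOn_compact hKc
  have ic : ∀ a : ℂ, IntegrableOn (fun _ : G => a) (K : Set G) μ := fun a =>
    continuous_const.continuousOn.integrableOn_compact hKc
  have icr : ∀ a : ℝ, IntegrableOn (fun _ : G => a) (K : Set G) μ := fun a =>
    continuous_const.continuousOn.integrableOn_compact hKc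
  refine ⟨m, ?_, ?_⟩
  · rw [integral_sub if1 (ic m), setIntegral_const, ← hI, hIm, ← hV]
    simp
  · have e1 : ∀ y, ‖f y - m‖ ^ 2 = ‖f y‖ ^ 2 + ‖m‖ ^ 2 - 2 * (f y * conj m).re := by
      intro y
      rw [Complex.sq_norm, Complex.sq_norm, Complex.sq_norm, Complex.normSq_sub]
    have i1 : IntegrableOn (fun y => ‖f y‖ ^ 2) (K : Set G) μ :=
      (hf.norm.pow 2).continuousOn.integrableOn_compact hKc
    have hc3 : Continuous (fun y => 2 * (f y * conj m).re) :=
      continuous_const.mul (Complex.continuous_re.comp (hf.mul continuous_const))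
    have i2 : IntegrableOn (fun y => 2 * (f y * conj m).re) (K : Set G) μ :=
      hc3.continuousOn.integrableOn_compact hKc
    have i3 : IntegrableOn (fun y => f y * conj m) (K : Set G) μ :=
      (hf.mul continuous_const).continuousOn.integrableOn_compact hKc
    simp_rw [e1]
    have i4 : IntegrableOn (fun y => ‖f y‖ ^ 2 + ‖m‖ ^ 2) (K : Set G) μ := i1.add (icr _)
    rw [integral_sub i4 i2, integral_add i1 (icr _), setIntegral_const, integral_const_mul]
    have e2 : ∫ y in (K : Set G), (f y * conj m).re ∂μ = V * ‖m‖ ^ 2 := by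
      have h1 := integral_re (𝕜 := ℂ) i3
      have h2 : ∫ y in (K : Set G), f y * conj m ∂μ = I * conj m := by
        rw [integral_mul_const]
      rw [h2, hIm, mul_assoc, Complex.mul_conj, Complex.normSq_eq_norm_sq] at h1
      refine h1.trans ?_
      show ((V : ℂ) * ((‖m‖ ^ 2 : ℝ) : ℂ)).re = V * ‖m‖ ^ 2
      rw [← Complex.ofReal_mul, Complex.ofReal_re]
    rw [e2, smul_eq_mul, ← hV]
    nlinarith [mul_nonneg hV0.le (sq_nonneg ‖m‖)]

variable {ι : Type} [Fintype ι] {κ : ι → G} {c : ι → ℝ} {θ : ℝ}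

lemma iter_gap (hKo : IsOpen (K : Set G)) (hKc : IsCompact (K : Set G))
    (hκ : ∀ j, κ j ∈ K) (hc1 : ∑ j, c j = 1) (hθ0 : 0 ≤ θ)
    (hgap : ∀ f : G → ℂ, Continuous f → ∫ y in (K : Set G), f y ∂(Measure.haar : Measure G) = 0 →
      ∫ y in (K : Set G), ‖avT κ c f y‖ ^ 2 ∂(Measure.haar : Measure G) ≤
        θ * ∫ y in (K : Set G), ‖f y‖ ^ 2 ∂(Measure.haar : Measure G))
    (n : ℕ) {f : G → ℂ} (hf : Continuous f)
    (h0 : ∫ y in (K : Set G), f y ∂(Measure.haar : Measure G) = 0) :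
    ∫ y in (K : Set G), (avT κ c)^[n] f y ∂(Measure.haar : Measure G) = 0 ∧
      ∫ y in (K : Set G), ‖(avT κ c)^[n] f y‖ ^ 2 ∂(Measure.haar : Measure G) ≤
        θ ^ n * ∫ y in (K : Set G), ‖f y‖ ^ 2 ∂(Measure.haar : Measure G) := by
  induction n with
  | zero => exact ⟨h0, by simp⟩
  | succ n ih =>
    rw [Function.iterate_succ_apply']
    set g := (avT κ c)^[n] f with hg
    have hgc : Continuous g := avT_iter_cont n hf
    refine ⟨?_, ?_⟩
    · have e1 : ∫ y in (K : Set G), avT κ c g y ∂(Measure.haar : Measure G) =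
          ∑ j, (c j : ℂ) * ∫ y in (K : Set G), g ((κ j)⁻¹ * y) ∂(Measure.haar : Measure G) := by
        unfold avT
        rw [integral_finsetSum _ (fun j _ => ?_)]
        · refine Finset.sum_congr rfl fun j _ => ?_
          rw [integral_const_mul]
        · have : Continuous (fun y => (c j : ℂ) * g ((κ j)⁻¹ * y)) := by fun_prop
          exact this.continuousOn.integrableOn_compact hKc
      rw [e1]
      simp_rw [setInt_shift hKo (hκ _) g, ih.1]
      simp
    · calc _ ≤ θ * ∫ y in (K : Set G), ‖g y‖ ^ 2 ∂(Measure.haar : Measure G) := hgap g hgc ih.1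
        _ ≤ θ * (θ ^ n * ∫ y in (K : Set G), ‖f y‖ ^ 2 ∂(Measure.haar : Measure G)) := by
            gcongr
            exact ih.2
        _ = _ := by rw [pow_succ]; ring

/-- the estimate on `K` -/
lemma K_est (hKo : IsOpen (K : Set G)) (hKc : IsCompact (K : Set G))
    (hκ : ∀ j, κ j ∈ K) (hc1 : ∑ j, c j = 1) (hθ0 : 0 ≤ θ)
    (hgap : ∀ f : G → ℂ, Continuous f → ∫ y in (K : Set G), f y ∂(Measure.haar : Measure G) = 0 →
      ∫ y in (K : Set G), ‖avT κ c f y‖ ^ 2 ∂(Measure.haar : Measure G) ≤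
        θ * ∫ y in (K : Set G), ‖f y‖ ^ 2 ∂(Measure.haar : Measure G))
    (n : ℕ) {f : G → ℂ} (hf : Continuous f) {k : G} (hk : k ∈ K) :
    ∫ y in (K : Set G), ‖(avT κ c)^[n] f (k⁻¹ * y) - (avT κ c)^[n] f y‖ ^ 2
      ∂(Measure.haar : Measure G) ≤
        4 * θ ^ n * ∫ y in (K : Set G), ‖f y‖ ^ 2 ∂(Measure.haar : Measure G) := by
  obtain ⟨m, hm1, hm2⟩ := var_le hKc hKo hf
  have hfm : Continuous (fun y => f y - m) := hf.sub continuous_const
  obtain ⟨-, h2⟩ := iter_gap hKo hKc hκ hc1 hθ0 hgap n hfm hm1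
  set g := (avT κ c)^[n] (fun y => f y - m) with hg
  have hgc : Continuous g := avT_iter_cont n hfm
  have e1 : ∀ y, (avT κ c)^[n] f y = g y + m := by
    intro y
    rw [hg, avT_iter_sub hc1]
    ring
  have hc' : Continuous (fun y => ‖g (k⁻¹ * y)‖ ^ 2) := by fun_prop
  have hc'' : Continuous (fun y => ‖g y‖ ^ 2) := by fun_prop
  have hc3 : Continuous (fun y => ‖(avT κ c)^[n] f (k⁻¹ * y) - (avT κ c)^[n] f y‖ ^ 2) := by
    have := avT_iter_cont (κ := κ) (c := c) n hf
    fun_prop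
  have i1 : IntegrableOn (fun y => ‖g (k⁻¹ * y)‖ ^ 2) (K : Set G) (Measure.haar : Measure G) :=
    hc'.continuousOn.integrableOn_compact hKc
  have i2 : IntegrableOn (fun y => ‖g y‖ ^ 2) (K : Set G) (Measure.haar : Measure G) :=
    hc''.continuousOn.integrableOn_compact hKc
  have i3 : IntegrableOn (fun y => ‖(avT κ c)^[n] f (k⁻¹ * y) - (avT κ c)^[n] f y‖ ^ 2)
    (K : Set G) (Measure.haar : Measure G) := hc3.continuousOn.integrableOn_compact hKc
  calc _ ≤ ∫ y in (K : Set G), (2 * ‖g (k⁻¹ * y)‖ ^ 2 + 2 * ‖g y‖ ^ 2)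
        ∂(Measure.haar : Measure G) := by
        apply integral_mono i3 ((i1.const_mul 2).add (i2.const_mul 2))
        intro y
        show ‖(avT κ c)^[n] f (k⁻¹ * y) - (avT κ c)^[n] f y‖ ^ 2 ≤
          2 * ‖g (k⁻¹ * y)‖ ^ 2 + 2 * ‖g y‖ ^ 2
        rw [e1, e1]
        have e2 : g (k⁻¹ * y) + m - (g y + m) = g (k⁻¹ * y) - g y := by ring
        rw [e2]
        have h3 := norm_sub_le (g (k⁻¹ * y)) (g y)
        have h4 := norm_nonneg (g (k⁻¹ * y) - g y)
        nlinarith [sq_nonneg (‖g (k⁻¹ * y)‖ - ‖g y‖), norm_nonneg (g (k⁻¹ * y)), norm_nonneg (g y)]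
    _ = 4 * ∫ y in (K : Set G), ‖g y‖ ^ 2 ∂(Measure.haar : Measure G) := by
        rw [integral_add (i1.const_mul 2) (i2.const_mul 2), integral_const_mul, integral_const_mul,
          setInt_shift hKo hk (fun y => ‖g y‖ ^ 2)]
        ring
    _ ≤ 4 * (θ ^ n * ∫ y in (K : Set G), ‖f y - m‖ ^ 2 ∂(Measure.haar : Measure G)) := by
        gcongr
    _ ≤ 4 * (θ ^ n * ∫ y in (K : Set G), ‖f y‖ ^ 2 ∂(Measure.haar : Measure G)) := by
        gcongr
    _ = _ := by ring

lemma swapK (hKo : IsOpen (K : Set G)) (hKc : IsCompact (K : Set G)) {h : G → ℝ}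
    (hc : Continuous h) (hs : HasCompactSupport h) :
    Integrable (fun y => ∫ k in (K : Set G), h (k * y) ∂(Measure.haar : Measure G))
      (Measure.haar : Measure G) ∧
    ∫ y, ∫ k in (K : Set G), h (k * y) ∂(Measure.haar : Measure G) ∂(Measure.haar : Measure G) =
      (Measure.haar : Measure G).real (K : Set G) * ∫ y, h y ∂(Measure.haar : Measure G) := by
  set μ : Measure G := Measure.haar with hμ
  set χ : G → ℝ := (K : Set G).indicator (fun _ => (1 : ℝ)) with hχ
  have hχc : Continuous χ :=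
    IsClopen.continuous_indicator ⟨hKc.isClosed, hKo⟩ continuous_const
  set u : G → G → ℝ := fun y k => χ k * h (k * y) with hu
  have huc : Continuous u.uncurry := by
    show Continuous (fun q : G × G => χ q.2 * h (q.2 * q.1))
    fun_prop
  have hus : HasCompactSupport u.uncurry := by
    have hc1 : IsCompact ((K : Set G)⁻¹ * tsupport h) := hKc.inv.mul hs
    refine HasCompactSupport.intro (hc1.prod hKc) ?_
    rintro ⟨y, k⟩ hyk
    by_contra hne
    have hne' : χ k * h (k * y) ≠ 0 := hne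
    have h1 := mul_ne_zero_iff.1 hne'
    have hk : k ∈ (K : Set G) := by
      by_contra hk
      exact h1.1 (Set.indicator_of_notMem hk _)
    apply hyk
    refine ⟨?_, hk⟩
    show y ∈ (K : Set G)⁻¹ * tsupport h
    have : y = k⁻¹ * (k * y) := by group
    rw [this]
    exact Set.mul_mem_mul (Set.inv_mem_inv.2 hk) (subset_tsupport _ h1.2)
  have e1 : ∀ y, ∫ k in (K : Set G), h (k * y) ∂μ = ∫ k, u y k ∂μ := by
    intro y
    rw [← integral_indicator hKo.measurableSet]
    congr 1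
    ext k
    by_cases hk : k ∈ (K : Set G)
    · simp [hu, hχ, Set.indicator_of_mem hk]
    · simp [hu, hχ, Set.indicator_of_notMem hk]
  simp_rw [e1]
  refine ⟨integrable_param huc hus, ?_⟩
  rw [integral_integral_swap_of_hasCompactSupport huc hus]
  have e2 : ∀ k, ∫ y, u y k ∂μ = χ k * ∫ y, h y ∂μ := by
    intro k
    simp only [hu]
    rw [integral_const_mul, integral_mul_left_eq_self h k]
  simp_rw [e2]
  rw [integral_mul_const]
  congr 1
  rw [hχ, integral_indicator hKo.measurableSet, setIntegral_const]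
  simp

/-- the estimate on `G` -/
lemma G_est (hKo : IsOpen (K : Set G)) (hKc : IsCompact (K : Set G))
    (hκ : ∀ j, κ j ∈ K) (hc1 : ∑ j, c j = 1) (hθ0 : 0 ≤ θ)
    (hgap : ∀ f : G → ℂ, Continuous f → ∫ y in (K : Set G), f y ∂(Measure.haar : Measure G) = 0 →
      ∫ y in (K : Set G), ‖avT κ c f y‖ ^ 2 ∂(Measure.haar : Measure G) ≤
        θ * ∫ y in (K : Set G), ‖f y‖ ^ 2 ∂(Measure.haar : Measure G))
    (n : ℕ) {ξ ζ : G → ℂ} (hξ : Continuous ξ) (hξs : HasCompactSupport ξ)
    (hζ : Continuous ζ) (hζs : HasCompactSupport ζ) (hζξ : ∀ y, ζ y = (avT κ c)^[n] ξ y)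
    {k : G} (hk : k ∈ K) :
    ∫ y, ‖ζ (k⁻¹ * y) - ζ y‖ ^ 2 ∂(Measure.haar : Measure G) ≤
        4 * θ ^ n * ∫ y, ‖ξ y‖ ^ 2 ∂(Measure.haar : Measure G) := by
  set μ : Measure G := Measure.haar with hμ
  set h1 : G → ℝ := fun z => ‖ζ (k⁻¹ * z) - ζ z‖ ^ 2 with hh1
  set h2 : G → ℝ := fun z => ‖ξ z‖ ^ 2 with hh2
  have h1c : Continuous h1 := by
    show Continuous fun z => ‖ζ (k⁻¹ * z) - ζ z‖ ^ 2
    fun_prop
  have h2c : Continuous h2 := by
    show Continuous fun z => ‖ξ z‖ ^ 2
    fun_prop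
  have h1s : HasCompactSupport h1 := by
    have a1 : HasCompactSupport (fun z => ζ (k⁻¹ * z) - ζ z) :=
      (hζs.comp_homeomorph (Homeomorph.mulLeft k⁻¹)).sub hζs
    exact a1.comp_left (g := fun z => ‖z‖ ^ 2) (by simp)
  have h2s : HasCompactSupport h2 := hξs.comp_left (g := fun z => ‖z‖ ^ 2) (by simp)
  obtain ⟨a1, a2⟩ := swapK hKo hKc h1c h1s
  obtain ⟨b1, b2⟩ := swapK hKo hKc h2c h2s
  have hV0 : 0 < μ.real (K : Set G) := measK_pos hKc hKo
  have key : ∫ y, ∫ k' in (K : Set G), h1 (k' * y) ∂μ ∂μ ≤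
      ∫ y, 4 * θ ^ n * ∫ k' in (K : Set G), h2 (k' * y) ∂μ ∂μ := by
    apply integral_mono a1 (b1.const_mul _)
    intro y
    have hfc : Continuous (fun k' => ξ (k' * y)) := by fun_prop
    have := K_est hKo hKc hκ hc1 hθ0 hgap n hfc hk
    rw [avT_iter_right] at this
    simp only [← hζξ] at this
    simp only [hh1, hh2]
    simpa only [mul_assoc] using this
  rw [integral_const_mul, a2, b2] at key
  have : μ.real (K : Set G) * ∫ y, h1 y ∂μ ≤ μ.real (K : Set G) * (4 * θ ^ n * ∫ y, h2 y ∂μ) := by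
    calc _ ≤ _ := key
      _ = _ := by ring
  exact le_of_mul_le_mul_left this hV0

end K

end Pool.Agent.TH276.Eb
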