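import Pool.Agent.TH276.Eb.Gap

set_option autoImplicit false
set_option linter.unusedSectionVars false
set_option linter.unusedVariables false

/-!
# The Eberlein property for groups with small compact open subgroups with spectral gap
-/

open MeasureTheory Filter Topology
open scoped ENNReal NNReal ComplexConjugate InnerProductSpace Pointwise

namespace Pool.Agent.TH276.Eb

universe u v

variable {G : Type u} [Group G] [TopologicalSpace G] [IsTopologicalGroup G]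
  [LocallyCompactSpace G] [T2Space G] [MeasurableSpace G] [BorelSpace G]

lemma ltc_mul (x y : G) (f : Cc G) : ltc (x * y) f = ltc x (ltc y f) := by
  apply Subtype.ext
  ext z
  show (f : G → ℂ) ((x * y)⁻¹ * z) = (f : G → ℂ) (y⁻¹ * (x⁻¹ * z))
  rw [mul_inv_rev, mul_assoc]

lemma lt_mul (x y : G) (f : Cc G) : lt (x * y) (toL2 f) = lt x (lt y (toL2 f)) := by
  rw [lt_toL2, lt_toL2, lt_toL2, ltc_mul]

/-- the spectral gap property of a subgroup -/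
def Gap (K : Subgroup G) : Prop :=
  ∃ (n : ℕ) (κ : Fin n → G) (c : Fin n → ℝ) (θ : ℝ), (∀ j, κ j ∈ K) ∧ (∀ j, 0 ≤ c j) ∧
    ∑ j, c j = 1 ∧ 0 ≤ θ ∧ θ < 1 ∧ ∀ f : G → ℂ, Continuous f →
      ∫ y in (K : Set G), f y ∂(Measure.haar : Measure G) = 0 →
      ∫ y in (K : Set G), ‖∑ j, (c j : ℂ) * f ((κ j)⁻¹ * y)‖ ^ 2 ∂(Measure.haar : Measure G) ≤
        θ * ∫ y in (K : Set G), ‖f y‖ ^ 2 ∂(Measure.haar : Measure G)

/-- **Main theorem.** -/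
theorem main_gap (hG : ∀ U ∈ 𝓝 (1 : G), ∃ K : Subgroup G, (K : Set G) ⊆ U ∧
      IsCompact (K : Set G) ∧ IsOpen (K : Set G) ∧ Gap K) {φ : G → ℂ} (hφc : Continuous φ)
    (hφ : φ ∈ closure (coefSet G)) (C : Set G) (hC : IsCompact C) (ε : ℝ) (hε : 0 < ε) :
    ∃ ξ : G → ℂ, MemLp ξ 2 (Measure.haar : Measure G) ∧ ∀ x ∈ C, ‖φ x - coef ξ x‖ < ε := by
  classical
  set μ : Measure G := Measure.haar with hμ
  have hpdk := pdk_closure hφ
  obtain ⟨H, _, _, _, w, hw⟩ := exists_gram hpdk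
  have hwc : Continuous w := continuous_gram hw (hφc.tendsto 1)
  set M := ‖w 1‖ with hM
  have hM0 : 0 ≤ M := norm_nonneg _
  have hwn : ∀ y, ‖w y‖ = M := norm_w_eq hw
  have hφw : ∀ x, φ x = ⟪w x, w 1⟫_ℂ := by intro x; rw [hw]; simp
  set ε₁ := ε / (12 * (M + 1)) with hε₁
  have hε₁0 : 0 < ε₁ := by positivity
  have hε₁M : 3 * ε₁ * M ≤ ε / 4 := by
    rw [hε₁]
    calc 3 * (ε / (12 * (M + 1))) * M = ε / 4 * (M / (M + 1)) := by
          field_simp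
          ring
      _ ≤ ε / 4 * 1 := by
          gcongr
          rw [div_le_one (by positivity)]
          linarith
      _ = ε / 4 := by ring
  have hU : {k : G | ‖w k - w 1‖ < ε₁} ∈ 𝓝 (1 : G) := by
    have h1 : Continuous (fun z => ‖w z - w 1‖) := by fun_prop
    have h2 := h1.tendsto 1
    simp only [sub_self, norm_zero] at h2
    exact h2.eventually (gt_mem_nhds hε₁0)
  obtain ⟨K, hKU, hKc, hKo, N0, κ, c, θ, hκ, hc0, hc1, hθ0, hθ1, hgap⟩ := hG _ hU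
  have hKw : ∀ k ∈ K, ‖w k - w 1‖ < ε₁ := fun k hk => hKU hk
  set N : ℝ := M ^ 2 + 1 with hN
  have hN0 : 0 < N := by positivity
  obtain ⟨n, hn⟩ := exists_pow_lt_of_lt_one (show (0 : ℝ) < (ε / (8 * N)) ^ 2 by positivity) hθ1
  obtain ⟨ι, _, τ, b, hτ, hb0, hb1, hτb⟩ := iter_avg (K := K) hκ hc0 hc1 n
  -- finite cover of `C`
  obtain ⟨t, -, htC⟩ := hC.elim_nhds_subcover (fun x => (fun y => x * y) '' (K : Set G)) (by
    intro x _
    have h1 : IsOpen ((fun y => x * y) '' (K : Set G)) := (Homeomorph.mulLeft x).isOpenMap _ hKo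
    exact h1.mem_nhds ⟨1, K.one_mem, by simp⟩)
  -- choice of the vector
  have hev : ∀ᶠ ψ : G → ℂ in 𝓝 φ, (∀ x ∈ t, ∀ a a',
      ‖ψ ((τ a')⁻¹ * x * τ a) - φ ((τ a')⁻¹ * x * τ a)‖ < ε / 16) ∧ ‖ψ 1 - φ 1‖ < 1 / 2 := by
    have hcont : ∀ (z : G) (δ : ℝ), 0 < δ → ∀ᶠ ψ : G → ℂ in 𝓝 φ, ‖ψ z - φ z‖ < δ := by
      intro z δ hδ
      have hc : Continuous (fun ψ : G → ℂ => ‖ψ z - φ z‖) :=
        ((continuous_apply _).sub continuous_const).norm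
      have h := hc.tendsto φ
      simp only [sub_self, norm_zero] at h
      exact h.eventually (gt_mem_nhds hδ)
    refine Filter.Eventually.and ?_ (hcont 1 _ (by norm_num))
    rw [Filter.eventually_all_finset]
    intro x _
    rw [Filter.eventually_all]
    intro a
    rw [Filter.eventually_all]
    intro a'
    exact hcont _ _ (by positivity)
  obtain ⟨ψ0, ⟨ξ0, hξ0, hψξ⟩, hψ0, hψ1⟩ :=
    ((mem_closure_iff_frequently.1 hφ).and_eventually hev).exists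
  obtain ⟨ξ, hξ⟩ := coef_approx hξ0 (min (ε / 16) (1 / 2)) (by positivity)
  have hξφ : ∀ x ∈ t, ∀ a a', ‖φ ((τ a')⁻¹ * x * τ a) -
      coef (ξ : G → ℂ) ((τ a')⁻¹ * x * τ a)‖ ≤ ε / 8 := by
    intro x hx a a'
    have h1 := hψ0 x hx a a'
    have h2 := (hξ ((τ a')⁻¹ * x * τ a)).trans_le (min_le_left _ _)
    rw [hψξ] at h1
    calc ‖φ ((τ a')⁻¹ * x * τ a) - coef (ξ : G → ℂ) ((τ a')⁻¹ * x * τ a)‖
        = ‖(coef ξ0 ((τ a')⁻¹ * x * τ a) - coef (ξ : G → ℂ) ((τ a')⁻¹ * x * τ a)) -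
          (coef ξ0 ((τ a')⁻¹ * x * τ a) - φ ((τ a')⁻¹ * x * τ a))‖ := by congr 1; ring
      _ ≤ _ := norm_sub_le _ _
      _ ≤ ε / 16 + ε / 16 := add_le_add h2.le h1.le
      _ = ε / 8 := by ring
  set Ξ := toL2 ξ with hΞ
  have hΞN : ‖Ξ‖ ^ 2 ≤ N := by
    have h1 := coef_one (Cc.memLp ξ)
    have h2 : ‖Ξ‖ ^ 2 = (coef (ξ : G → ℂ) 1).re := by
      rw [h1, Complex.ofReal_re]
      exact norm_toL2_sq ξ
    have h3 : ‖φ 1 - coef (ξ : G → ℂ) 1‖ ≤ 1 := by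
      have h4 := (hξ 1).trans_le (min_le_right _ _)
      rw [hψξ] at hψ1
      calc ‖φ 1 - coef (ξ : G → ℂ) 1‖
          = ‖(coef ξ0 1 - coef (ξ : G → ℂ) 1) - (coef ξ0 1 - φ 1)‖ := by congr 1; ring
        _ ≤ _ := norm_sub_le _ _
        _ ≤ 1 / 2 + 1 / 2 := add_le_add h4.le hψ1.le
        _ = 1 := by ring
    have h5 : (φ 1).re = M ^ 2 := by
      rw [hφw, inner_self_eq_norm_sq_to_K]
      show (((‖w 1‖ : ℝ) : ℂ) ^ 2).re = M ^ 2
      rw [← Complex.ofReal_pow, Complex.ofReal_re]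
    have h6 : (coef (ξ : G → ℂ) 1).re - (φ 1).re ≤ 1 := by
      have := (Complex.abs_re_le_norm (φ 1 - coef (ξ : G → ℂ) 1)).trans h3
      rw [Complex.sub_re] at this
      have := (abs_le.1 this).1
      linarith
    rw [h2, hN]
    linarith
  -- the averaged vector
  set ζ : Cc G := ∑ a, (b a : ℂ) • ltc (τ a) ξ with hζ
  have hζy : ∀ y, (ζ : G → ℂ) y = (avT κ c)^[n] (ξ : G → ℂ) y := by
    intro y
    rw [hτb, hζ]
    simp only [Submodule.coe_sum, Finset.sum_apply, avT]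
    rfl
  set Z := toL2 ζ with hZ
  have hZs : Z = ∑ a, (b a : ℂ) • lt (τ a) Ξ := by
    rw [hZ, hζ, map_sum]
    refine Finset.sum_congr rfl fun a _ => ?_
    rw [map_smul, hΞ, lt_toL2]
  have hZn : ‖Z‖ ≤ ‖Ξ‖ := by
    rw [hZs]
    calc ‖∑ a, (b a : ℂ) • lt (τ a) Ξ‖ ≤ ∑ a, ‖(b a : ℂ) • lt (τ a) Ξ‖ := norm_sum_le _ _
      _ = ∑ a, b a * ‖Ξ‖ := by
          refine Finset.sum_congr rfl fun a _ => ?_
          rw [norm_smul, norm_lt, Complex.norm_real, Real.norm_of_nonneg (hb0 a)]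
      _ = ‖Ξ‖ := by rw [← Finset.sum_mul, hb1, one_mul]
  have hcζ : ∀ x, coef (ζ : G → ℂ) x = ⟪lt x Z, Z⟫_ℂ := fun x => coef_eq_inner (Cc.memLp ζ) x
  have hcξ : ∀ x, coef (ξ : G → ℂ) x = ⟪lt x Ξ, Ξ⟫_ℂ := fun x => coef_eq_inner (Cc.memLp ξ) x
  have hexp : ∀ x, coef (ζ : G → ℂ) x = ∑ a, ∑ a', ((b a * b a' : ℝ) : ℂ) *
      coef (ξ : G → ℂ) ((τ a')⁻¹ * x * τ a) := by
    intro x
    have e1 : ∀ a a', ⟪lt x (lt (τ a) Ξ), lt (τ a') Ξ⟫_ℂ =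
        coef (ξ : G → ℂ) ((τ a')⁻¹ * x * τ a) := by
      intro a a'
      rw [hcξ, ← lt_mul]
      have e2 : x * τ a = τ a' * ((τ a')⁻¹ * x * τ a) := by group
      rw [e2, lt_mul, (lt (τ a')).inner_map_map]
    rw [hcζ]
    conv_lhs => rw [hZs]
    simp only [map_sum, map_smul, sum_inner, inner_sum, inner_smul_left, inner_smul_right, e1,
      Complex.conj_ofReal, Finset.mul_sum]
    rw [Finset.sum_comm]
    refine Finset.sum_congr rfl fun a _ => Finset.sum_congr rfl fun a' _ => ?_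
    push_cast
    ring
  refine ⟨(ζ : G → ℂ), Cc.memLp ζ, fun y hy => ?_⟩
  obtain ⟨x, hx, k, hk, rfl⟩ := Set.mem_iUnion₂.1 (htC hy)
  have hk' : k ∈ K := hk
  show ‖φ (x * k) - coef (ζ : G → ℂ) (x * k)‖ < ε
  -- first difference
  have d1 : ‖φ (x * k) - φ x‖ ≤ ε₁ * M := by
    rw [hφw, hφw, ← inner_sub_left]
    refine (norm_inner_le_norm _ _).trans ?_
    rw [norm_w_sub hw]
    exact mul_le_mul_of_nonneg_right (hKw k hk').le hM0
  -- second difference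
  have d2' : ∀ a a', ‖φ x - φ ((τ a')⁻¹ * x * τ a)‖ ≤ 2 * ε₁ * M := by
    intro a a'
    have b1 : φ ((τ a')⁻¹ * x * τ a) = ⟪w (x * τ a), w (τ a')⟫_ℂ := by
      rw [hw]; congr 1; group
    have b3 : φ x - φ ((τ a')⁻¹ * x * τ a) =
        -(⟪w (x * τ a) - w x, w (τ a')⟫_ℂ + ⟪w x, w (τ a') - w 1⟫_ℂ) := by
      rw [b1, hφw, inner_sub_left, inner_sub_right]
      ring
    rw [b3, norm_neg]
    calc _ ≤ ‖⟪w (x * τ a) - w x, w (τ a')⟫_ℂ‖ + ‖⟪w x, w (τ a') - w 1⟫_ℂ‖ := norm_add_le _ _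
      _ ≤ ‖w (x * τ a) - w x‖ * ‖w (τ a')‖ + ‖w x‖ * ‖w (τ a') - w 1‖ :=
          add_le_add (norm_inner_le_norm _ _) (norm_inner_le_norm _ _)
      _ ≤ ε₁ * M + M * ε₁ := by
          rw [norm_w_sub hw, hwn, hwn]
          have g1 := (hKw _ (hτ a)).le
          have g2 := (hKw _ (hτ a')).le
          gcongr
      _ = 2 * ε₁ * M := by ring
  have hbsum : ∑ a, ∑ a', b a * b a' = 1 := by
    simp only [← Finset.mul_sum, hb1, mul_one]
  have d2 : ‖φ x - coef (ζ : G → ℂ) x‖ ≤ 2 * ε₁ * M + ε / 8 := by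
    have e3 : φ x - coef (ζ : G → ℂ) x = ∑ a, ∑ a', ((b a * b a' : ℝ) : ℂ) *
        (φ x - coef (ξ : G → ℂ) ((τ a')⁻¹ * x * τ a)) := by
      rw [hexp]
      simp only [mul_sub, Finset.sum_sub_distrib]
      congr 1
      simp only [← Finset.sum_mul]
      have : ((∑ a, ∑ a', b a * b a' : ℝ) : ℂ) = 1 := by rw [hbsum]; simp
      push_cast at this
      push_cast
      rw [this, one_mul]
    rw [e3]
    calc _ ≤ ∑ a, ∑ a', b a * b a' * (2 * ε₁ * M + ε / 8) := by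
          refine (norm_sum_le _ _).trans (Finset.sum_le_sum fun a _ => ?_)
          refine (norm_sum_le _ _).trans (Finset.sum_le_sum fun a' _ => ?_)
          have hbb : 0 ≤ b a * b a' := mul_nonneg (hb0 a) (hb0 a')
          rw [norm_mul, Complex.norm_real, Real.norm_of_nonneg hbb]
          apply mul_le_mul_of_nonneg_left _ hbb
          calc ‖φ x - coef (ξ : G → ℂ) ((τ a')⁻¹ * x * τ a)‖
              = ‖(φ x - φ ((τ a')⁻¹ * x * τ a)) + (φ ((τ a')⁻¹ * x * τ a) -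
                coef (ξ : G → ℂ) ((τ a')⁻¹ * x * τ a))‖ := by congr 1; ring
            _ ≤ _ := norm_add_le _ _
            _ ≤ _ := add_le_add (d2' a a') (hξφ x hx a a')
      _ = 2 * ε₁ * M + ε / 8 := by
          simp only [← Finset.sum_mul]
          rw [hbsum, one_mul]
  -- third difference
  have d3' : ‖lt k Z - Z‖ ≤ ε / (4 * N) * ‖Ξ‖ := by
    have g1 := G_est hKo hKc hκ hc1 hθ0 hgap n ξ.2.1 ξ.2.2 ζ.2.1 ζ.2.2 hζy hk'
    have g2 : ‖lt k Z - Z‖ ^ 2 = ∫ y, ‖(ζ : G → ℂ) (k⁻¹ * y) - (ζ : G → ℂ) y‖ ^ 2 ∂μ := by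
      rw [hZ, lt_toL2, ← map_sub, norm_toL2_sq]
      rfl
    have g3 : ‖Ξ‖ ^ 2 = ∫ y, ‖(ξ : G → ℂ) y‖ ^ 2 ∂μ := norm_toL2_sq ξ
    rw [← g2, ← g3] at g1
    apply le_of_sq_le_sq _ (by positivity)
    calc ‖lt k Z - Z‖ ^ 2 ≤ 4 * θ ^ n * ‖Ξ‖ ^ 2 := g1
      _ ≤ 4 * (ε / (8 * N)) ^ 2 * ‖Ξ‖ ^ 2 := by gcongr
      _ = (ε / (4 * N) * ‖Ξ‖) ^ 2 := by
          field_simp
          ring
  have d3 : ‖coef (ζ : G → ℂ) x - coef (ζ : G → ℂ) (x * k)‖ ≤ ε / 4 := by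
    rw [hcζ, hcζ]
    have e4 : ⟪lt x Z, Z⟫_ℂ - ⟪lt (x * k) Z, Z⟫_ℂ = -⟪lt x (lt k Z - Z), Z⟫_ℂ := by
      rw [hZ, lt_mul, map_sub, inner_sub_left]
      ring
    rw [e4, norm_neg]
    calc ‖⟪lt x (lt k Z - Z), Z⟫_ℂ‖ ≤ ‖lt x (lt k Z - Z)‖ * ‖Z‖ := norm_inner_le_norm _ _
      _ = ‖lt k Z - Z‖ * ‖Z‖ := by rw [norm_lt]
      _ ≤ (ε / (4 * N) * ‖Ξ‖) * ‖Ξ‖ := by gcongr
      _ = ε / (4 * N) * ‖Ξ‖ ^ 2 := by ring
      _ ≤ ε / (4 * N) * N := by gcongr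
      _ = ε / 4 := by field_simp
  calc ‖φ (x * k) - coef (ζ : G → ℂ) (x * k)‖
      = ‖((φ (x * k) - φ x) + (φ x - coef (ζ : G → ℂ) x)) +
        (coef (ζ : G → ℂ) x - coef (ζ : G → ℂ) (x * k))‖ := by congr 1; ring
    _ ≤ (‖φ (x * k) - φ x‖ + ‖φ x - coef (ζ : G → ℂ) x‖) +
        ‖coef (ζ : G → ℂ) x - coef (ζ : G → ℂ) (x * k)‖ :=
          (norm_add_le _ _).trans (add_le_add (norm_add_le _ _) le_rfl)
    _ ≤ (ε₁ * M + (2 * ε₁ * M + ε / 8)) + ε / 4 := add_le_add (add_le_add d1 d2) d3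
    _ < ε := by nlinarith

end Pool.Agent.TH276.Eb
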