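import Mathlib
import Pool.Agent.TH276.Eb.Dens

set_option autoImplicit false
set_option linter.unusedSectionVars false
set_option linter.unusedVariables false

open MeasureTheory Filter Topology
open scoped ENNReal NNReal ComplexConjugate InnerProductSpace Pointwise

namespace Pool.Agent.TH276.Eb

universe u v

variable {G : Type u} [Group G] [TopologicalSpace G] [IsTopologicalGroup G]
  [LocallyCompactSpace G] [T2Space G] [MeasurableSpace G] [BorelSpace G]

/-- compactly supported continuous functions -/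
def Cc (G : Type u) [TopologicalSpace G] : Submodule ℂ (G → ℂ) where
  carrier := {f | Continuous f ∧ HasCompactSupport f}
  add_mem' := fun ha hb => ⟨ha.1.add hb.1, ha.2.add hb.2⟩
  zero_mem' := ⟨continuous_const, HasCompactSupport.zero⟩
  smul_mem' := fun c f hf => ⟨hf.1.const_smul c, hf.2.comp_left (g := fun z => c • z) (by simp)⟩

lemma Cc.memLp (f : Cc G) : MemLp (f : G → ℂ) 2 (Measure.haar : Measure G) :=
  f.2.1.memLp_of_hasCompactSupport f.2.2

/-- the class in `L²` of a compactly supported continuous function -/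
noncomputable def toL2 : Cc G →ₗ[ℂ] Lp ℂ 2 (Measure.haar : Measure G) where
  toFun f := (Cc.memLp f).toLp (f : G → ℂ)
  map_add' f g := rfl
  map_smul' c f := rfl

lemma coe_toL2 (f : Cc G) : (toL2 f : G → ℂ) =ᵐ[Measure.haar] (f : G → ℂ) :=
  (Cc.memLp f).coeFn_toLp

lemma denseRange_toL2 : DenseRange (toL2 : Cc G →ₗ[ℂ] Lp ℂ 2 (Measure.haar : Measure G)) := by
  rw [DenseRange, Metric.dense_iff]
  intro f r hr
  obtain ⟨g, hg1, hg2, hg3, hg4⟩ := exists_Cc_eLpNorm_sub_le (p := 2) (by norm_num) (Lp.memLp f)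
    (ε := ENNReal.ofReal (r / 2)) (by simpa using hr)
  refine ⟨toL2 ⟨g, hg3, hg1⟩, ?_, Set.mem_range_self _⟩
  rw [Metric.mem_ball, dist_comm, Lp.dist_def]
  have h1 : eLpNorm (⇑f - ⇑(toL2 (⟨g, hg3, hg1⟩ : Cc G))) 2 (Measure.haar : Measure G)
      = eLpNorm (⇑f - g) 2 (Measure.haar : Measure G) := by
    apply eLpNorm_congr_ae
    filter_upwards [coe_toL2 (⟨g, hg3, hg1⟩ : Cc G)] with x hx
    simp only [Pi.sub_apply, hx]
  rw [h1]
  calc (eLpNorm (⇑f - g) 2 (Measure.haar : Measure G)).toReal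
      ≤ (ENNReal.ofReal (r / 2)).toReal := ENNReal.toReal_mono ENNReal.ofReal_ne_top hg2
    _ = r / 2 := ENNReal.toReal_ofReal (by linarith)
    _ < r := by linarith

/-- left translation on `L²` -/
noncomputable def lt (x : G) :
    Lp ℂ 2 (Measure.haar : Measure G) →ₗᵢ[ℂ] Lp ℂ 2 (Measure.haar : Measure G) :=
  Lp.compMeasurePreservingₗᵢ ℂ (fun y => x⁻¹ * y) (measurePreserving_mul_left Measure.haar x⁻¹)

lemma coe_lt (x : G) (f : Lp ℂ 2 (Measure.haar : Measure G)) :
    (lt x f : G → ℂ) =ᵐ[Measure.haar] fun y => f (x⁻¹ * y) :=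
  Lp.coeFn_compMeasurePreserving f (measurePreserving_mul_left Measure.haar x⁻¹)

/-- translate of a compactly supported function -/
def ltc (x : G) (f : Cc G) : Cc G :=
  ⟨fun y => (f : G → ℂ) (x⁻¹ * y), f.2.1.comp (continuous_const.mul continuous_id),
    f.2.2.comp_homeomorph (Homeomorph.mulLeft x⁻¹)⟩

lemma lt_toL2 (x : G) (f : Cc G) : lt x (toL2 f) = toL2 (ltc x f) := by
  apply Lp.ext
  have h1 := coe_lt x (toL2 f)
  have h2 := coe_toL2 (ltc x f)
  have h3 : (fun y => (toL2 f : G → ℂ) (x⁻¹ * y)) =ᵐ[Measure.haar] fun y => (f : G → ℂ) (x⁻¹ * y) :=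
    (measurePreserving_mul_left (Measure.haar : Measure G) x⁻¹).quasiMeasurePreserving.ae_eq_comp
      (coe_toL2 f)
  exact h1.trans (h3.trans h2.symm)

lemma lt_mul_inv (x : G) (f : Lp ℂ 2 (Measure.haar : Measure G)) : lt x (lt x⁻¹ f) = f := by
  have h1 := coe_lt x (lt x⁻¹ f)
  have h2 := (measurePreserving_mul_left (Measure.haar : Measure G) x⁻¹).quasiMeasurePreserving.ae_eq_comp
      (coe_lt x⁻¹ f)
  apply Lp.ext
  filter_upwards [h1, h2] with y hy1 hy2
  rw [hy1]
  simp only [Function.comp_apply] at hy2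
  rw [hy2]
  congr 1
  group

lemma norm_toL2_sq (f : Cc G) :
    ‖toL2 f‖ ^ 2 = ∫ z, ‖(f : G → ℂ) z‖ ^ 2 ∂(Measure.haar : Measure G) := by
  have h := L2.inner_def (𝕜 := ℂ) (toL2 f) (toL2 f)
  have h1 : (∫ a, ⟪(toL2 f : G → ℂ) a, (toL2 f : G → ℂ) a⟫_ℂ ∂(Measure.haar : Measure G))
      = ∫ a, ((‖(f : G → ℂ) a‖ ^ 2 : ℝ) : ℂ) ∂(Measure.haar : Measure G) := by
    apply integral_congr_ae
    filter_upwards [coe_toL2 f] with a ha
    rw [ha, inner_self_eq_norm_sq_to_K]
    push_cast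
    rfl
  rw [h1, inner_self_eq_norm_sq_to_K, integral_complex_ofReal] at h
  apply Complex.ofReal_injective
  rw [← h]
  push_cast
  rfl

/-- the inner product in `L²` of a translate, as an integral -/
lemma inner_lt (x : G) (f : Lp ℂ 2 (Measure.haar : Measure G)) :
    ⟪lt x f, f⟫_ℂ = ∫ y, f y * (starRingEnd ℂ) (f (x⁻¹ * y)) ∂(Measure.haar : Measure G) := by
  rw [L2.inner_def]
  apply integral_congr_ae
  filter_upwards [coe_lt x f] with a ha
  rw [ha, RCLike.inner_apply]

section Bound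

variable {H : Type v} [NormedAddCommGroup H] [InnerProductSpace ℂ H] [CompleteSpace H]
  {p : G → ℂ} {w : G → H}

lemma norm_p_inv (hw : ∀ x y, ⟪w x, w y⟫_ℂ = p (y⁻¹ * x)) (x : G) : ‖p x⁻¹‖ = ‖p x‖ := by
  have h1 := hw 1 x
  have h2 := hw x 1
  simp only [mul_one, inv_one, one_mul] at h1 h2
  rw [← h1, ← h2, norm_inner_symm]

lemma integrable_fw (hwc : Continuous w) (f : Cc G) :
    Integrable (fun z => (f : G → ℂ) z • w z) (Measure.haar : Measure G) :=
  (f.2.1.smul hwc).integrable_of_hasCompactSupport f.2.2.smul_right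

/-- `h (z, y)` has compact support if it vanishes unless `y` or `z` lies in the support of `f` and
`y⁻¹ z` in the support of `p` -/
lemma compactSupport_aux {f : G → ℝ} {q : G → ℝ} (hf : HasCompactSupport f)
    (hq : HasCompactSupport q) {h : G → G → ℝ}
    (hh : ∀ z y, h z y ≠ 0 → (f z ≠ 0 ∨ f y ≠ 0) ∧ q (y⁻¹ * z) ≠ 0) :
    HasCompactSupport h.uncurry := by
  set K := tsupport f
  set C := tsupport q
  have hK : IsCompact K := hf
  have hC : IsCompact C := hq
  have h1 : IsCompact (K ∪ K * C) := hK.union (hK.mul hC)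
  have h2 : IsCompact (K ∪ K * C⁻¹) := hK.union (hK.mul hC.inv)
  refine HasCompactSupport.intro (h1.prod h2) ?_
  rintro ⟨z, y⟩ hzy
  by_contra hne
  apply hzy
  obtain ⟨h3, h4⟩ := hh z y hne
  have h5 : y⁻¹ * z ∈ C := subset_tsupport _ h4
  have hz : z = y * (y⁻¹ * z) := by group
  have hy : y = z * (y⁻¹ * z)⁻¹ := by group
  rcases h3 with h3 | h3
  · have h6 : z ∈ K := subset_tsupport _ h3
    refine ⟨Or.inl h6, Or.inr ?_⟩
    simp only
    rw [hy]
    exact Set.mul_mem_mul h6 (Set.inv_mem_inv.2 h5)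
  · have h6 : y ∈ K := subset_tsupport _ h3
    refine ⟨Or.inr ?_, Or.inl h6⟩
    simp only
    rw [hz]
    exact Set.mul_mem_mul h6 h5

lemma integrable_param {h : G → G → ℝ} (hc : Continuous h.uncurry) (hs : HasCompactSupport h.uncurry) :
    Integrable (fun z => ∫ y, h z y ∂(Measure.haar : Measure G)) (Measure.haar : Measure G) := by
  set k1 := Prod.fst '' tsupport h.uncurry
  set k2 := Prod.snd '' tsupport h.uncurry
  have hk1 : IsCompact k1 := IsCompact.image hs continuous_fst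
  have hk2 : IsCompact k2 := IsCompact.image hs continuous_snd
  have hcont : Continuous (fun z => ∫ y, h z y ∂(Measure.haar : Measure G)) := by
    have := continuousOn_integral_of_compact_support (μ := (Measure.haar : Measure G))
      (f := h) (s := Set.univ) hk2 hc.continuousOn (by
        intro z y _ hy
        by_contra hne
        exact hy ⟨(z, y), subset_tsupport _ hne, rfl⟩)
    exact continuousOn_univ.1 this
  apply hcont.integrable_of_hasCompactSupport
  refine HasCompactSupport.intro hk1 ?_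
  intro z hz
  have : ∀ y, h z y = 0 := by
    intro y
    by_contra hne
    exact hz ⟨(z, y), subset_tsupport _ hne, rfl⟩
  simp [this]

lemma inner_integral_bound (hw : ∀ x y, ⟪w x, w y⟫_ℂ = p (y⁻¹ * x)) (hwc : Continuous w)
    (f : Cc G) (z : G) :
    ‖⟪w z, ∫ y, (f : G → ℂ) y • w y ∂(Measure.haar : Measure G)⟫_ℂ‖ ≤
      ∫ y, ‖(f : G → ℂ) y‖ * ‖p (y⁻¹ * z)‖ ∂(Measure.haar : Measure G) := by
  rw [← integral_inner (integrable_fw hwc f)]
  refine (norm_integral_le_integral_norm _).trans (le_of_eq ?_)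
  congr 1
  ext y
  rw [inner_smul_right, norm_mul, hw]

lemma sq_bound (hpc : Continuous p) (hps : HasCompactSupport p)
    (hw : ∀ x y, ⟪w x, w y⟫_ℂ = p (y⁻¹ * x)) (hwc : Continuous w) (f : Cc G) :
    ‖∫ y, (f : G → ℂ) y • w y ∂(Measure.haar : Measure G)‖ ^ 2 ≤
      (∫ y, ‖p y‖ ∂(Measure.haar : Measure G)) *
        ∫ y, ‖(f : G → ℂ) y‖ ^ 2 ∂(Measure.haar : Measure G) := by
  set μ : Measure G := Measure.haar with hμ
  set I := ∫ y, (f : G → ℂ) y • w y ∂μ with hI
  set F : G → ℝ := fun z => ‖(f : G → ℂ) z‖ with hF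
  set P : G → ℝ := fun z => ‖p z‖ with hP
  have hFc : Continuous F := f.2.1.norm
  have hPc : Continuous P := hpc.norm
  have hFs : HasCompactSupport F := f.2.2.norm
  have hPs : HasCompactSupport P := hps.norm
  set h1 : G → G → ℝ := fun z y => F z ^ 2 * P (y⁻¹ * z)
  set h2 : G → G → ℝ := fun z y => F y ^ 2 * P (y⁻¹ * z)
  set h3 : G → G → ℝ := fun z y => F z * (F y * P (y⁻¹ * z))
  have c1 : Continuous h1.uncurry := by
    show Continuous (fun q : G × G => F q.1 ^ 2 * P (q.2⁻¹ * q.1))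
    fun_prop
  have c2 : Continuous h2.uncurry := by
    show Continuous (fun q : G × G => F q.2 ^ 2 * P (q.2⁻¹ * q.1))
    fun_prop
  have c3 : Continuous h3.uncurry := by
    show Continuous (fun q : G × G => F q.1 * (F q.2 * P (q.2⁻¹ * q.1)))
    fun_prop
  have s1 : HasCompactSupport h1.uncurry := by
    apply compactSupport_aux hFs hPs
    intro z y hne
    have := mul_ne_zero_iff.1 hne
    exact ⟨Or.inl (by simpa using this.1), this.2⟩
  have s2 : HasCompactSupport h2.uncurry := by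
    apply compactSupport_aux hFs hPs
    intro z y hne
    have := mul_ne_zero_iff.1 hne
    exact ⟨Or.inr (by simpa using this.1), this.2⟩
  have s3 : HasCompactSupport h3.uncurry := by
    apply compactSupport_aux hFs hPs
    intro z y hne
    have := mul_ne_zero_iff.1 hne
    exact ⟨Or.inl this.1, (mul_ne_zero_iff.1 this.2).2⟩
  -- step 1
  have e1 : ‖I‖ ^ 2 ≤ ∫ z, F z * ∫ y, F y * P (y⁻¹ * z) ∂μ ∂μ := by
    have e : ⟪I, I⟫_ℂ = ∫ z, (f : G → ℂ) z * ⟪I, w z⟫_ℂ ∂μ := by
      rw [hI, ← integral_inner (integrable_fw hwc f), ← hI]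
      congr 1
      ext z
      rw [inner_smul_right]
    have e' : ‖I‖ ^ 2 = ‖⟪I, I⟫_ℂ‖ := by
      rw [inner_self_eq_norm_sq_to_K]
      simp
    rw [e', e]
    refine (norm_integral_le_integral_norm _).trans ?_
    have hint : Integrable (fun z => F z * ∫ y, F y * P (y⁻¹ * z) ∂μ) μ := by
      have := integrable_param c3 s3
      refine this.congr (Eventually.of_forall ?_)
      intro z
      exact integral_const_mul _ _
    apply integral_mono_of_nonneg (Eventually.of_forall fun z => norm_nonneg _) hint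
    refine Eventually.of_forall fun z => ?_
    show ‖(f : G → ℂ) z * ⟪I, w z⟫_ℂ‖ ≤ _
    rw [norm_mul, norm_inner_symm]
    exact mul_le_mul_of_nonneg_left (inner_integral_bound hw hwc f z) (norm_nonneg _)
  -- step 2
  have i1 := integrable_param c1 s1
  have i2 := integrable_param c2 s2
  have e2 : ∫ z, F z * ∫ y, F y * P (y⁻¹ * z) ∂μ ∂μ ≤
      ∫ z, (1 / 2) * (∫ y, h1 z y ∂μ) + (1 / 2) * (∫ y, h2 z y ∂μ) ∂μ := by
    have hint : Integrable (fun z => F z * ∫ y, F y * P (y⁻¹ * z) ∂μ) μ := by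
      have := integrable_param c3 s3
      refine this.congr (Eventually.of_forall ?_)
      intro z
      exact integral_const_mul _ _
    apply integral_mono hint ((i1.const_mul _).add (i2.const_mul _))
    intro z
    have j1 : Integrable (fun y => h1 z y) μ := by
      apply Continuous.integrable_of_hasCompactSupport
      · exact c1.comp (continuous_const.prodMk continuous_id)
      · refine HasCompactSupport.intro (IsCompact.image s1 continuous_snd) ?_
        intro y hy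
        by_contra hne
        exact hy ⟨(z, y), subset_tsupport _ hne, rfl⟩
    have j2 : Integrable (fun y => h2 z y) μ := by
      apply Continuous.integrable_of_hasCompactSupport
      · exact c2.comp (continuous_const.prodMk continuous_id)
      · refine HasCompactSupport.intro (IsCompact.image s2 continuous_snd) ?_
        intro y hy
        by_contra hne
        exact hy ⟨(z, y), subset_tsupport _ hne, rfl⟩
    have j3 : Integrable (fun y => h3 z y) μ := by
      apply Continuous.integrable_of_hasCompactSupport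
      · exact c3.comp (continuous_const.prodMk continuous_id)
      · refine HasCompactSupport.intro (IsCompact.image s3 continuous_snd) ?_
        intro y hy
        by_contra hne
        exact hy ⟨(z, y), subset_tsupport _ hne, rfl⟩
    show F z * ∫ y, F y * P (y⁻¹ * z) ∂μ ≤ 1 / 2 * (∫ y, h1 z y ∂μ) + 1 / 2 * (∫ y, h2 z y ∂μ)
    rw [← integral_const_mul, ← integral_const_mul, ← integral_const_mul,
      ← integral_add (j1.const_mul _) (j2.const_mul _)]
    apply integral_mono j3 ((j1.const_mul _).add (j2.const_mul _))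
    intro y
    show F z * (F y * P (y⁻¹ * z)) ≤ 1 / 2 * (F z ^ 2 * P (y⁻¹ * z)) + 1 / 2 * (F y ^ 2 * P (y⁻¹ * z))
    have hPn : 0 ≤ P (y⁻¹ * z) := norm_nonneg _
    nlinarith [mul_nonneg hPn (sq_nonneg (F z - F y))]
  -- step 3
  have e3 : ∫ z, ∫ y, h1 z y ∂μ ∂μ = (∫ y, P y ∂μ) * ∫ y, F y ^ 2 ∂μ := by
    have : ∀ z, ∫ y, h1 z y ∂μ = (∫ y, P y ∂μ) * F z ^ 2 := by
      intro z
      show ∫ y, F z ^ 2 * P (y⁻¹ * z) ∂μ = _
      rw [integral_const_mul, mul_comm]
      congr 1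
      have h4 : ∀ y, P (y⁻¹ * z) = P (z⁻¹ * y) := by
        intro y
        have := norm_p_inv hw (z⁻¹ * y)
        rw [mul_inv_rev, inv_inv] at this
        exact this
      simp_rw [h4]
      exact integral_mul_left_eq_self P z⁻¹
    simp_rw [this]
    rw [integral_const_mul]
  have e4 : ∫ z, ∫ y, h2 z y ∂μ ∂μ = (∫ y, P y ∂μ) * ∫ y, F y ^ 2 ∂μ := by
    rw [integral_integral_swap_of_hasCompactSupport c2 s2]
    have : ∀ y, ∫ z, h2 z y ∂μ = (∫ y, P y ∂μ) * F y ^ 2 := by
      intro y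
      show ∫ z, F y ^ 2 * P (y⁻¹ * z) ∂μ = _
      rw [integral_const_mul, mul_comm]
      congr 1
      exact integral_mul_left_eq_self P y⁻¹
    simp_rw [this]
    rw [integral_const_mul]
  calc ‖I‖ ^ 2 ≤ _ := e1
    _ ≤ _ := e2
    _ = (1 / 2) * (∫ z, ∫ y, h1 z y ∂μ ∂μ) + (1 / 2) * (∫ z, ∫ y, h2 z y ∂μ ∂μ) := by
      rw [integral_add (i1.const_mul _) (i2.const_mul _), integral_const_mul, integral_const_mul]
    _ = (∫ y, P y ∂μ) * ∫ y, F y ^ 2 ∂μ := by rw [e3, e4]; ring

variable (p w) in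
/-- integration against `w` -/
noncomputable def V0 (hwc : Continuous w) : Cc G →ₗ[ℂ] H where
  toFun f := ∫ z, (f : G → ℂ) z • w z ∂(Measure.haar : Measure G)
  map_add' f g := by
    rw [← integral_add (integrable_fw hwc f) (integrable_fw hwc g)]
    congr 1
    ext z
    simp [add_smul]
  map_smul' c f := by
    rw [RingHom.id_apply, ← integral_smul]
    congr 1
    ext z
    simp [mul_smul]

lemma V0_bound (hpc : Continuous p) (hps : HasCompactSupport p)
    (hw : ∀ x y, ⟪w x, w y⟫_ℂ = p (y⁻¹ * x)) (hwc : Continuous w) :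
    ∃ C : ℝ, ∀ f : Cc G, ‖V0 w hwc f‖ ≤ C * ‖toL2 f‖ := by
  refine ⟨Real.sqrt (∫ y, ‖p y‖ ∂(Measure.haar : Measure G)), fun f => ?_⟩
  have h1 := sq_bound hpc hps hw hwc f
  rw [← norm_toL2_sq] at h1
  have h2 : 0 ≤ ∫ y, ‖p y‖ ∂(Measure.haar : Measure G) := integral_nonneg fun _ => norm_nonneg _
  apply le_of_sq_le_sq _ (by positivity)
  rw [mul_pow, Real.sq_sqrt h2]
  exact h1

/-- the extension of `V0` to `L²` -/
noncomputable def V (hwc : Continuous w) : Lp ℂ 2 (Measure.haar : Measure G) →L[ℂ] H :=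
  (V0 w hwc).extendOfNorm toL2

lemma V_toL2 (hpc : Continuous p) (hps : HasCompactSupport p)
    (hw : ∀ x y, ⟪w x, w y⟫_ℂ = p (y⁻¹ * x)) (hwc : Continuous w) (f : Cc G) :
    V hwc (toL2 f) = ∫ z, (f : G → ℂ) z • w z ∂(Measure.haar : Measure G) :=
  LinearMap.extendOfNorm_eq denseRange_toL2 (V0_bound hpc hps hw hwc) f

lemma inner_int_int (hwc : Continuous w) (f g : Cc G) :
    ⟪∫ z, (f : G → ℂ) z • w z ∂(Measure.haar : Measure G),
      ∫ z, (g : G → ℂ) z • w z ∂(Measure.haar : Measure G)⟫_ℂ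
    = ∫ y, (g : G → ℂ) y * (starRingEnd ℂ) (∫ z, (f : G → ℂ) z * ⟪w y, w z⟫_ℂ
        ∂(Measure.haar : Measure G)) ∂(Measure.haar : Measure G) := by
  rw [← integral_inner (integrable_fw hwc g)]
  congr 1
  ext y
  rw [inner_smul_right, ← inner_conj_symm, ← integral_inner (integrable_fw hwc f)]
  congr 3
  ext z
  rw [inner_smul_right]

lemma V_lt (hpc : Continuous p) (hps : HasCompactSupport p)
    (hw : ∀ x y, ⟪w x, w y⟫_ℂ = p (y⁻¹ * x)) (hwc : Continuous w) (x : G) (f : Cc G) :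
    V hwc (lt x (toL2 f)) = ∫ z, (f : G → ℂ) z • w (x * z) ∂(Measure.haar : Measure G) := by
  rw [lt_toL2, V_toL2 hpc hps hw hwc]
  rw [← integral_mul_left_eq_self _ x]
  congr 1
  ext z
  simp [ltc]

lemma inner_V_lt (hpc : Continuous p) (hps : HasCompactSupport p)
    (hw : ∀ x y, ⟪w x, w y⟫_ℂ = p (y⁻¹ * x)) (hwc : Continuous w) (x : G)
    (f g : Lp ℂ 2 (Measure.haar : Measure G)) :
    ⟪V hwc (lt x f), V hwc (lt x g)⟫_ℂ = ⟪V hwc f, V hwc g⟫_ℂ := by
  have key : ∀ f g : Cc G, ⟪V hwc (lt x (toL2 f)), V hwc (lt x (toL2 g))⟫_ℂ =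
      ⟪V hwc (toL2 f), V hwc (toL2 g)⟫_ℂ := by
    intro f g
    have hwx : Continuous (fun z => w (x * z)) := hwc.comp (continuous_const.mul continuous_id)
    rw [V_lt hpc hps hw hwc, V_lt hpc hps hw hwc, V_toL2 hpc hps hw hwc, V_toL2 hpc hps hw hwc]
    have h1 := inner_int_int (w := fun z => w (x * z)) hwx f g
    have h2 := inner_int_int hwc f g
    rw [h1, h2]
    congr 1
    ext y
    congr 3
    ext z
    rw [hw, hw]
    congr 2
    group
  have hd := denseRange_toL2 (G := G)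
  refine isClosed_property hd (p := fun f => ⟪V hwc (lt x f), V hwc (lt x g)⟫_ℂ =
    ⟪V hwc f, V hwc g⟫_ℂ) ?_ ?_ f
  · exact isClosed_eq (by fun_prop) (by fun_prop)
  · intro f
    refine isClosed_property hd (p := fun g => ⟪V hwc (lt x (toL2 f)), V hwc (lt x g)⟫_ℂ =
      ⟪V hwc (toL2 f), V hwc g⟫_ℂ) ?_ (key f) g
    exact isClosed_eq (by fun_prop) (by fun_prop)

/-- the positive operator `V† V` -/
noncomputable def T (hwc : Continuous w) :
    Lp ℂ 2 (Measure.haar : Measure G) →L[ℂ] Lp ℂ 2 (Measure.haar : Measure G) :=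
  (V hwc).adjoint ∘L V hwc

lemma T_nonneg (hwc : Continuous w) : 0 ≤ T (G := G) hwc := by
  rw [ContinuousLinearMap.nonneg_iff_isPositive]
  exact ContinuousLinearMap.isPositive_adjoint_comp_self _

lemma T_commute (hpc : Continuous p) (hps : HasCompactSupport p)
    (hw : ∀ x y, ⟪w x, w y⟫_ℂ = p (y⁻¹ * x)) (hwc : Continuous w) (x : G) :
    Commute (T hwc) (lt x).toContinuousLinearMap := by
  ext1 f
  apply ext_inner_right ℂ
  intro h
  show ⟪T hwc (lt x f), h⟫_ℂ = ⟪lt x (T hwc f), h⟫_ℂ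
  conv_lhs => rw [← lt_mul_inv x h]
  conv_rhs => rw [← lt_mul_inv x h]
  rw [(lt x).inner_map_map]
  unfold T
  simp only [ContinuousLinearMap.comp_apply, ContinuousLinearMap.adjoint_inner_left]
  exact inner_V_lt hpc hps hw hwc x f _

lemma norm_w_sub (hw : ∀ x y, ⟪w x, w y⟫_ℂ = p (y⁻¹ * x)) (x z : G) :
    ‖w (x * z) - w x‖ = ‖w z - w 1‖ := by
  have h : ‖w (x * z) - w x‖ ^ 2 = ‖w z - w 1‖ ^ 2 := by
    rw [norm_sub_sq (𝕜 := ℂ), norm_sub_sq (𝕜 := ℂ)]
    have e1 : ⟪w (x * z), w x⟫_ℂ = ⟪w z, w 1⟫_ℂ := by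
      rw [hw, hw]; congr 1; group
    have e2 : ∀ y, ‖w y‖ ^ 2 = RCLike.re (p 1) := by
      intro y
      rw [← inner_self_eq_norm_sq (𝕜 := ℂ), hw]
      congr 2
      group
    rw [e1, e2, e2, e2, e2]
  exact (sq_eq_sq₀ (norm_nonneg _) (norm_nonneg _)).1 h

/-- approximate identity -/
lemma exists_approx (U : Set G) (hU : U ∈ 𝓝 (1 : G)) :
    ∃ f : Cc G, (∀ z, ∃ r : ℝ, 0 ≤ r ∧ (f : G → ℂ) z = r) ∧
      (∀ z, (f : G → ℂ) z ≠ 0 → z ∈ U) ∧ ∫ z, (f : G → ℂ) z ∂(Measure.haar : Measure G) = 1 := by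
  obtain ⟨O, hOU, hO, h1O⟩ := mem_nhds_iff.1 hU
  obtain ⟨g, hg1, hg0, hgs, hgr⟩ := exists_continuous_one_zero_of_isCompact
    (isCompact_singleton (x := (1 : G))) hO.isClosed_compl (by
      rw [Set.disjoint_compl_right_iff_subset]
      simpa using h1O)
  have hgi : Integrable g (Measure.haar : Measure G) :=
    g.continuous.integrable_of_hasCompactSupport hgs
  have hpos : 0 < ∫ z, g z ∂(Measure.haar : Measure G) := by
    apply g.continuous.integral_pos_of_hasCompactSupport_nonneg_nonzero hgs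
      (fun z => (hgr z).1) (x := 1)
    rw [hg1 rfl]
    simp
  set c : ℝ := ∫ z, g z ∂(Measure.haar : Measure G) with hc
  refine ⟨⟨fun z => ((g z / c : ℝ) : ℂ), ?_, ?_⟩, ?_, ?_, ?_⟩
  · exact Complex.continuous_ofReal.comp (g.continuous.div_const c)
  · refine HasCompactSupport.intro hgs ?_
    intro z hz
    rw [image_eq_zero_of_notMem_tsupport hz]
    simp
  · intro z
    exact ⟨g z / c, div_nonneg (hgr z).1 hpos.le, rfl⟩
  · intro z hz
    by_contra hzU
    apply hz
    have : g z = 0 := hg0 (fun h => hzU (hOU h))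
    simp [this]
  · show ∫ z, ((g z / c : ℝ) : ℂ) ∂(Measure.haar : Measure G) = 1
    rw [integral_complex_ofReal, integral_div, ← hc, div_self hpos.ne']
    simp

omit [T2Space G] [LocallyCompactSpace G] [BorelSpace G] [MeasurableSpace G] [TopologicalSpace G] [IsTopologicalGroup G] [Group G] in
theorem exists_sqrt {E : Type*} [NormedAddCommGroup E] [InnerProductSpace ℂ E] [CompleteSpace E]
    (T : E →L[ℂ] E) (hT : 0 ≤ T) :
    ∃ S : E →L[ℂ] E, IsSelfAdjoint S ∧ S * S = T ∧
      ∀ A : E →L[ℂ] E, Commute T A → Commute S A := by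
  refine ⟨CFC.sqrt T, (CFC.sqrt_nonneg _).isSelfAdjoint, CFC.sqrt_mul_sqrt_self _ hT,
    fun A hA => ?_⟩
  exact hA.cfcₙ_nnreal _

/-- **Godement**: a continuous compactly supported positive definite function is a uniform limit of
diagonal coefficients of the left regular representation. -/
theorem godement (hpc : Continuous p) (hps : HasCompactSupport p)
    (hw : ∀ x y, ⟪w x, w y⟫_ℂ = p (y⁻¹ * x)) (hwc : Continuous w) (ε : ℝ) (hε : 0 < ε) :
    ∃ ξ : G → ℂ, MemLp ξ 2 (Measure.haar : Measure G) ∧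
      ∀ x, ‖p x - ∫ y, ξ y * (starRingEnd ℂ) (ξ (x⁻¹ * y)) ∂(Measure.haar : Measure G)‖ < ε := by
  set M := ‖w 1‖ with hM
  have hM0' : 0 ≤ M := norm_nonneg _
  have h2M : 0 < 2 * M + 1 := by linarith
  obtain ⟨δ, hδ, hδ1, hδε⟩ : ∃ δ : ℝ, 0 < δ ∧ δ ≤ 1 ∧ δ * (2 * M + 1) < ε := by
    refine ⟨min 1 (ε / (2 * (2 * M + 1))), by positivity, min_le_left _ _, ?_⟩
    calc min 1 (ε / (2 * (2 * M + 1))) * (2 * M + 1) ≤ ε / (2 * (2 * M + 1)) * (2 * M + 1) := by
          gcongr
          exact min_le_right _ _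
      _ = ε / 2 := by
          rw [div_mul_eq_mul_div, div_eq_div_iff (by positivity) (by norm_num)]
          ring
      _ < ε := by linarith
  have hU : {z : G | ‖w z - w 1‖ < δ} ∈ 𝓝 (1 : G) := by
    have h1 : Continuous (fun z => ‖w z - w 1‖) := by fun_prop
    have h2 := h1.tendsto 1
    simp only [sub_self, norm_zero] at h2
    exact h2.eventually (gt_mem_nhds hδ)
  obtain ⟨f, hf1, hf2, hf3⟩ := exists_approx _ hU
  have hnorm : ∫ z, ‖(f : G → ℂ) z‖ ∂(Measure.haar : Measure G) = 1 := by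
    have h1 : ∀ z, (f : G → ℂ) z = ((‖(f : G → ℂ) z‖ : ℝ) : ℂ) := by
      intro z
      obtain ⟨r, hr, hz⟩ := hf1 z
      rw [hz]
      simp [abs_of_nonneg hr]
    have h2 : ∫ z, ((‖(f : G → ℂ) z‖ : ℝ) : ℂ) ∂(Measure.haar : Measure G) = 1 := by
      rw [← hf3]
      congr 1
      ext z
      exact (h1 z).symm
    rw [integral_complex_ofReal] at h2
    exact_mod_cast h2
  have hfi : Integrable (f : G → ℂ) (Measure.haar : Measure G) :=
    f.2.1.integrable_of_hasCompactSupport f.2.2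
  have hest : ∀ x, ‖(∫ z, (f : G → ℂ) z • w (x * z) ∂(Measure.haar : Measure G)) - w x‖ ≤ δ := by
    intro x
    have hwx : Continuous (fun z => w (x * z)) := hwc.comp (continuous_const.mul continuous_id)
    have h1 : w x = ∫ z, (f : G → ℂ) z • w x ∂(Measure.haar : Measure G) := by
      rw [integral_smul_const, hf3, one_smul]
    have h2 : (∫ z, (f : G → ℂ) z • w (x * z) ∂(Measure.haar : Measure G)) - w x =
        ∫ z, (f : G → ℂ) z • (w (x * z) - w x) ∂(Measure.haar : Measure G) := by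
      conv_lhs => rw [h1]
      rw [← integral_sub (integrable_fw hwx f) (hfi.smul_const _)]
      congr 1
      ext z
      rw [smul_sub]
    rw [h2]
    calc ‖∫ z, (f : G → ℂ) z • (w (x * z) - w x) ∂(Measure.haar : Measure G)‖
        ≤ ∫ z, ‖(f : G → ℂ) z • (w (x * z) - w x)‖ ∂(Measure.haar : Measure G) :=
          norm_integral_le_integral_norm _
      _ ≤ ∫ z, ‖(f : G → ℂ) z‖ * δ ∂(Measure.haar : Measure G) := by
          apply integral_mono_of_nonneg (Eventually.of_forall fun z => norm_nonneg _)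
            (hfi.norm.mul_const _)
          refine Eventually.of_forall fun z => ?_
          show ‖(f : G → ℂ) z • (w (x * z) - w x)‖ ≤ ‖(f : G → ℂ) z‖ * δ
          rw [norm_smul]
          by_cases hz : (f : G → ℂ) z = 0
          · simp [hz]
          · gcongr
            rw [norm_w_sub hw]
            exact (hf2 z hz).le
      _ = δ := by rw [integral_mul_const, hnorm, one_mul]
  -- the vector
  obtain ⟨S, hSa, hSS, hScomm⟩ := exists_sqrt (T (G := G) hwc) (T_nonneg (G := G) hwc)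
  refine ⟨S (toL2 f), Lp.memLp _, ?_⟩
  intro x
  have hcomm : Commute S (lt x).toContinuousLinearMap :=
    hScomm _ (T_commute hpc hps hw hwc x)
  rw [← inner_lt]
  have e1 : ⟪lt x (S (toL2 f)), S (toL2 f)⟫_ℂ = ⟪V hwc (lt x (toL2 f)), V hwc (toL2 f)⟫_ℂ := by
    have h1 : lt x (S (toL2 f)) = S (lt x (toL2 f)) := by
      have := congrArg (fun A : Lp ℂ 2 (Measure.haar : Measure G) →L[ℂ]
        Lp ℂ 2 (Measure.haar : Measure G) => A (toL2 f)) hcomm.eq
      simpa using this.symm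
    rw [h1]
    have h2 : ⟪S (lt x (toL2 f)), S (toL2 f)⟫_ℂ = ⟪lt x (toL2 f), S (S (toL2 f))⟫_ℂ := by
      rw [← ContinuousLinearMap.adjoint_inner_right, hSa.adjoint_eq]
    have h3 : S (S (toL2 f)) = T hwc (toL2 f) := by
      rw [← hSS]; rfl
    rw [h2, h3]
    unfold T
    simp only [ContinuousLinearMap.comp_apply, ContinuousLinearMap.adjoint_inner_right]
  rw [e1, V_lt hpc hps hw hwc, V_toL2 hpc hps hw hwc]
  set a := ∫ z, (f : G → ℂ) z • w (x * z) ∂(Measure.haar : Measure G) with ha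
  set b := ∫ z, (f : G → ℂ) z • w z ∂(Measure.haar : Measure G) with hb
  have hax : ‖a - w x‖ ≤ δ := hest x
  have hb1 : ‖b - w 1‖ ≤ δ := by
    have := hest 1
    simpa only [one_mul] using this
  have hpx : p x = ⟪w x, w 1⟫_ℂ := by rw [hw]; simp
  have hwx : ‖w x‖ = M := by
    have e2 : ∀ y, ‖w y‖ ^ 2 = RCLike.re (p 1) := by
      intro y
      rw [← inner_self_eq_norm_sq (𝕜 := ℂ), hw]
      congr 2
      group
    have : ‖w x‖ ^ 2 = ‖w 1‖ ^ 2 := by rw [e2, e2]
    exact (sq_eq_sq₀ (norm_nonneg _) (norm_nonneg _)).1 this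
  have hdec : p x - ⟪a, b⟫_ℂ = -(⟪a - w x, b⟫_ℂ + ⟪w x, b - w 1⟫_ℂ) := by
    rw [hpx, inner_sub_left, inner_sub_right]
    ring
  rw [hdec, norm_neg]
  calc ‖⟪a - w x, b⟫_ℂ + ⟪w x, b - w 1⟫_ℂ‖ ≤ ‖⟪a - w x, b⟫_ℂ‖ + ‖⟪w x, b - w 1⟫_ℂ‖ := norm_add_le _ _
    _ ≤ ‖a - w x‖ * ‖b‖ + ‖w x‖ * ‖b - w 1‖ := add_le_add (norm_inner_le_norm _ _) (norm_inner_le_norm _ _)
    _ ≤ δ * (M + δ) + M * δ := by
        have hbn : ‖b‖ ≤ M + δ := by
          calc ‖b‖ = ‖w 1 + (b - w 1)‖ := by congr 1; abel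
            _ ≤ ‖w 1‖ + ‖b - w 1‖ := norm_add_le _ _
            _ ≤ M + δ := by gcongr
        rw [hwx]
        have hM0 : 0 ≤ M := norm_nonneg _
        gcongr
    _ ≤ δ * (2 * M + 1) := by nlinarith
    _ < ε := hδε

end Bound

end Pool.Agent.TH276.Eb
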