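import Mathlib

set_option autoImplicit false

open scoped ComplexConjugate InnerProductSpace ComplexOrder

namespace Pool.Agent.TH276.Eb

universe u

/-- positive definite kernels -/
def PDK {X : Type u} (k : X → X → ℂ) : Prop :=
  (∀ x y, k y x = conj (k x y)) ∧
    ∀ (s : Finset X) (c : X → ℂ), 0 ≤ (∑ x ∈ s, ∑ y ∈ s, conj (c x) * c y * k x y).re

/-- **Moore's theorem**: a positive definite kernel is a Gram kernel. -/
theorem exists_gram {X : Type u} {k : X → X → ℂ} (hk : PDK k) :
    ∃ (H : Type u) (_ : NormedAddCommGroup H) (_ : InnerProductSpace ℂ H) (_ : CompleteSpace H)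
      (w : X → H), ∀ x y, ⟪w x, w y⟫_ℂ = k x y := by
  classical
  set K : Matrix X X (ℂ →L[ℂ] ℂ) := Matrix.of fun x y => (k x y) • (1 : ℂ →L[ℂ] ℂ) with hK
  have hKap : ∀ x y (z : ℂ), K x y z = k x y * z := by
    intro x y z
    simp [hK]
  have hherm : K.IsHermitian := by
    ext x y
    simp only [Matrix.conjTranspose_apply]
    have : K y x = (conj (k x y)) • (1 : ℂ →L[ℂ] ℂ) := by
      simp [hK, hk.1 x y]
    rw [this]
    simp [hK]
  have hpos : K.PosSemidef := by
    have := (RKHS.posSemidef_tfae (K := K)).out 0 2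
    rw [this]
    refine ⟨hherm, fun vv => ?_⟩
    have h := hk.2 vv.support vv
    refine h.trans (le_of_eq ?_)
    simp only [Finsupp.sum]
    congr 1
    refine Finset.sum_congr rfl fun x _ => Finset.sum_congr rfl fun y _ => ?_
    rw [hKap, RCLike.inner_apply, map_mul, ← hk.1]
    ring
  have : Fact K.PosSemidef := ⟨hpos⟩
  refine ⟨RKHS.OfKernel K, inferInstance, inferInstance, inferInstance,
    fun x => RKHS.kerFun (RKHS.OfKernel K) x 1, fun x y => ?_⟩
  rw [← RKHS.kernel_inner, RKHS.OfKernel.kernel_ofKernel, hKap, RCLike.inner_apply, mul_one, one_mul,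
    ← hk.1]

end Pool.Agent.TH276.Eb
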