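import Pool.Agent.TH276.Eb.Lim

set_option autoImplicit false
set_option linter.unusedSectionVars false
set_option linter.unusedVariables false

/-!
# Discrete cocompact subgroups: partitions of unity and unimodularity
-/

open MeasureTheory Filter Topology
open scoped ENNReal NNReal ComplexConjugate InnerProductSpace Pointwise

namespace Pool.Agent.TH276.Eb

universe u

variable {G : Type u} [Group G] [TopologicalSpace G] [IsTopologicalGroup G]
  [LocallyCompactSpace G] [T2Space G] [MeasurableSpace G] [BorelSpace G]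
  (Γ : Subgroup G) [DiscreteTopology Γ]

lemma finite_of_compact {C : Set G} (hC : IsCompact C) : {γ : Γ | (γ : G) ∈ C}.Finite := by
  have hd : IsDiscrete (Γ : Set G) := isDiscrete_iff_discreteTopology.mpr inferInstance
  have h2 := Γ.tendsto_coe_cofinite_of_discrete hd hC.compl_mem_cocompact
  rw [mem_map, mem_cofinite] at h2
  refine h2.subset ?_
  intro γ hγ
  simpa using hγ

/-- a finite set of `γ` with `y γ ∈ D` for some `y ∈ C` -/
lemma exists_finset {C D : Set G} (hC : IsCompact C) (hD : IsCompact D) :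
    ∃ S : Finset Γ, ∀ γ : Γ, ∀ y ∈ C, y * γ ∈ D → γ ∈ S := by
  have h := finite_of_compact Γ (hC.inv.mul hD)
  refine ⟨h.toFinset, fun γ y hy hyD => ?_⟩
  rw [Set.Finite.mem_toFinset]
  show (γ : G) ∈ C⁻¹ * D
  have : (γ : G) = y⁻¹ * (y * γ) := by group
  rw [this]
  exact Set.mul_mem_mul (Set.inv_mem_inv.2 hy) hyD

lemma tsum_fin {ι E : Type*} [AddCommMonoid E] [TopologicalSpace E] (f : ι → E) (S : Finset ι)
    (h : ∀ i, i ∉ S → f i = 0) : ∑' i, f i = ∑ i ∈ S, f i :=
  tsum_eq_sum fun i hi => h i hi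

variable {Γ} in
lemma tsum_shift {E : Type*} [AddCommMonoid E] [TopologicalSpace E] (F : G → E) (y : G) (γ : Γ) :
    ∑' δ : Γ, F (y * γ * δ) = ∑' δ : Γ, F (y * δ) := by
  have := (Equiv.mulLeft γ).tsum_eq (fun δ : Γ => F (y * δ))
  simpa [mul_assoc] using this

lemma tsum_cont {F : G → ℝ} (hc : Continuous F) (hs : HasCompactSupport F) :
    Continuous (fun y => ∑' γ : Γ, F (y * γ)) := by
  rw [continuous_iff_continuousAt]
  intro y0
  obtain ⟨N, hN, hN1⟩ := exists_compact_mem_nhds y0
  obtain ⟨S, hS⟩ := exists_finset Γ hN (D := tsupport F) hs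
  have h1 : (fun y => ∑' γ : Γ, F (y * γ)) =ᶠ[𝓝 y0] fun y => ∑ γ ∈ S, F (y * γ) := by
    filter_upwards [hN1] with y hy
    apply tsum_eq_sum
    intro γ hγ
    by_contra hne
    exact hγ (hS γ y hy (subset_tsupport _ hne))
  have h2 : Continuous (fun y => ∑ γ ∈ S, F (y * γ)) := by fun_prop
  exact h2.continuousAt.congr h1.symm

lemma summable_F {F : G → ℝ} (hs : HasCompactSupport F) (y : G) :
    Summable (fun γ : Γ => F (y * γ)) := by
  obtain ⟨S, hS⟩ := exists_finset Γ (isCompact_singleton (x := y)) (D := tsupport F) hs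
  apply summable_of_ne_finset_zero (s := S)
  intro γ hγ
  by_contra hne
  exact hγ (hS γ y rfl (subset_tsupport _ hne))

/-- a `Γ`-partition of unity subordinate to a given assignment of neighbourhoods -/
theorem exists_partition (hΓ : ∃ K : Set G, IsCompact K ∧ ∀ y : G, ∃ γ : Γ, y * γ ∈ K)
    (N : G → Set G) (hN : ∀ k, IsOpen (N k) ∧ k ∈ N k) :
    ∃ (n : ℕ) (k : Fin n → G) (θ : Fin n → G → ℝ),
      (∀ i, Continuous (θ i) ∧ HasCompactSupport (θ i) ∧ (∀ y, 0 ≤ θ i y) ∧
        (∀ y, θ i y ≠ 0 → y ∈ N (k i))) ∧ ∀ y, ∑' γ : Γ, ∑ i, θ i (y * γ) = 1 := by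
  classical
  obtain ⟨K, hK, hKΓ⟩ := hΓ
  obtain ⟨t, ht, htK⟩ := hK.elim_nhds_subcover N (fun x _ => (hN x).1.mem_nhds (hN x).2)
  set k : Fin t.card → G := fun i => (t.equivFin.symm i : G) with hk
  have hcov : K ⊆ ⋃ i, N (k i) := by
    intro x hx
    obtain ⟨z, hz, hxz⟩ := Set.mem_iUnion₂.1 (htK hx)
    refine Set.mem_iUnion.2 ⟨t.equivFin ⟨z, hz⟩, ?_⟩
    simpa [hk] using hxz
  obtain ⟨f, hf1, hf2, hf3, hf4⟩ := exists_continuous_sum_one_of_isOpen_isCompact
    (fun i => (hN (k i)).1) hK hcov
  set F : G → ℝ := fun y => ∑ i, f i y with hF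
  have hFc : Continuous F := by
    show Continuous fun y => ∑ i, f i y
    fun_prop
  have hFs : HasCompactSupport F := by
    refine HasCompactSupport.intro (isCompact_iUnion fun i => hf4 i) ?_
    intro y hy
    apply Finset.sum_eq_zero
    intro i _
    exact image_eq_zero_of_notMem_tsupport fun h => hy (Set.mem_iUnion.2 ⟨i, h⟩)
  have hF0 : ∀ y, 0 ≤ F y := fun y => Finset.sum_nonneg fun i _ => (hf3 i y).1
  set S : G → ℝ := fun y => ∑' γ : Γ, F (y * γ) with hS
  have hSc : Continuous S := tsum_cont Γ hFc hFs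
  have hS1 : ∀ y, 1 ≤ S y := by
    intro y
    obtain ⟨γ, hγ⟩ := hKΓ y
    have h1 : F (y * γ) = 1 := by
      have := hf2 hγ
      simpa [hF] using this
    rw [← h1]
    exact (summable_F Γ hFs y).le_tsum γ (fun δ _ => hF0 _)
  have hSne : ∀ y, S y ≠ 0 := fun y => by have := hS1 y; positivity
  refine ⟨t.card, k, fun i y => f i y / S y, fun i => ⟨?_, ?_, ?_, ?_⟩, ?_⟩
  · exact (f i).continuous.div hSc hSne
  · refine HasCompactSupport.intro (hf4 i) ?_
    intro y hy
    show f i y / S y = 0
    rw [image_eq_zero_of_notMem_tsupport hy, zero_div]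
  · intro y
    exact div_nonneg (hf3 i y).1 (by have := hS1 y; linarith)
  · intro y hy
    apply hf1 i
    apply subset_tsupport
    intro h0
    apply hy
    simp [h0]
  · intro y
    have h1 : ∀ γ : Γ, ∑ i, f i (y * γ) / S (y * γ) = F (y * γ) / S y := by
      intro γ
      rw [← Finset.sum_div]
      congr 1
      exact tsum_shift F y γ
    simp_rw [h1]
    rw [tsum_div_const]
    exact div_self (hSne y)

/-- A locally compact group with a discrete cocompact subgroup is unimodular. -/
theorem unimod (hΓ : ∃ K : Set G, IsCompact K ∧ ∀ y : G, ∃ γ : Γ, y * γ ∈ K) :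
    (Measure.haar : Measure G).IsMulRightInvariant := by
  obtain ⟨n, k, θ, hθ, hθ1⟩ := exists_partition Γ hΓ (fun _ => Set.univ)
    (fun k => ⟨isOpen_univ, Set.mem_univ _⟩)
  set μ : Measure G := Measure.haar with hμ
  set F : G → ℝ := fun y => ∑ i, θ i y⁻¹ with hF
  have hFc : Continuous F := by
    show Continuous fun y => ∑ i, θ i y⁻¹
    exact continuous_finsetSum _ fun i _ => (hθ i).1.comp continuous_inv
  have hFs : HasCompactSupport F := by
    refine HasCompactSupport.intro (isCompact_iUnion fun i => (hθ i).2.1.inv) ?_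
    intro y hy
    apply Finset.sum_eq_zero
    intro i _
    apply image_eq_zero_of_notMem_tsupport
    intro h
    exact hy (Set.mem_iUnion.2 ⟨i, by simpa using h⟩)
  have hF0 : ∀ y, 0 ≤ F y := fun y => Finset.sum_nonneg fun i _ => (hθ i).2.2.1 _
  have hsum : ∀ y, ∑' γ : Γ, F (γ * y) = 1 := by
    intro y
    rw [← hθ1 y⁻¹, ← (Equiv.inv Γ).tsum_eq]
    congr 1
    ext γ
    simp only [hF]
    refine Finset.sum_congr rfl fun i _ => ?_
    simp
  have hne : ∃ y, F y ≠ 0 := by
    by_contra hcon
    push Not at hcon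
    have := hsum 1
    simp [hcon] at this
  obtain ⟨y0, hy0⟩ := hne
  have hpos : 0 < ∫ z, F z ∂μ :=
    hFc.integral_pos_of_hasCompactSupport_nonneg_nonzero hFs hF0 hy0
  -- the key computation
  have key : ∀ x : G, ∫ y, F (y * x) ∂μ = ∫ y, F y ∂μ := by
    intro x
    have hFxs : HasCompactSupport (fun y => F (y * x)) := hFs.comp_homeomorph (Homeomorph.mulRight x)
    have hFxc : Continuous (fun y => F (y * x)) := by fun_prop
    -- a finite set of relevant elements
    obtain ⟨S, hS⟩ := exists_finset Γ (C := (tsupport fun y => F (y * x))⁻¹) (D := (tsupport F)⁻¹)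
      (IsCompact.inv hFxs) (IsCompact.inv hFs)
    have h1 : ∀ y, F (y * x) = ∑ γ ∈ S, F (y * x) * F ((γ : G)⁻¹ * y) := by
      intro y
      by_cases hy : F (y * x) = 0
      · simp [hy]
      · rw [← Finset.mul_sum]
        have h2 : ∑ γ ∈ S, F ((γ : G)⁻¹ * y) = 1 := by
          rw [← hsum y, ← (Equiv.inv Γ).tsum_eq]
          symm
          have := tsum_fin (fun γ : Γ => F (((Equiv.inv Γ) γ : Γ) * y)) S (by
            intro γ hγ
            by_contra hne
            apply hγ
            apply hS γ y⁻¹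
            · exact Set.inv_mem_inv.2 (subset_tsupport _ hy)
            · have : y⁻¹ * (γ : G) = ((γ : G)⁻¹ * y)⁻¹ := by group
              rw [this]
              exact Set.inv_mem_inv.2 (subset_tsupport _ (by simpa using hne)))
          rw [this]
          simp
        rw [h2, mul_one]
    have hT : ∀ y, F y ≠ 0 → ∑ γ ∈ S, F (γ * y * x) = 1 := by
      intro y hy
      have h3 := hsum (y * x)
      rw [← h3]
      symm
      have := tsum_fin (fun γ : Γ => F ((γ : G) * (y * x))) S (by
        intro γ hγ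
        by_contra hne
        apply hγ
        apply hS γ (γ * y)⁻¹
        · apply Set.inv_mem_inv.2
          apply subset_tsupport
          simpa [mul_assoc] using hne
        · have : ((γ : G) * y)⁻¹ * (γ : G) = y⁻¹ := by group
          rw [this]
          exact Set.inv_mem_inv.2 (subset_tsupport _ hy))
      rw [this]
      simp [mul_assoc]
    have hint : ∀ γ : Γ, Integrable (fun y => F (y * x) * F ((γ : G)⁻¹ * y)) μ := by
      intro γ
      apply Continuous.integrable_of_hasCompactSupport
      · fun_prop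
      · exact hFxs.mul_right
    have hint2 : ∀ γ : Γ, Integrable (fun y => F (γ * y * x) * F y) μ := by
      intro γ
      apply Continuous.integrable_of_hasCompactSupport
      · fun_prop
      · exact hFs.mul_left
    calc ∫ y, F (y * x) ∂μ = ∫ y, ∑ γ ∈ S, F (y * x) * F ((γ : G)⁻¹ * y) ∂μ := by
          congr 1; ext y; exact h1 y
      _ = ∑ γ ∈ S, ∫ y, F (y * x) * F ((γ : G)⁻¹ * y) ∂μ := integral_finsetSum _ fun γ _ => hint γ
      _ = ∑ γ ∈ S, ∫ y, F (γ * y * x) * F y ∂μ := by
          refine Finset.sum_congr rfl fun γ _ => ?_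
          rw [← integral_mul_left_eq_self _ (γ : G)]
          congr 1
          ext y
          congr 2
          group
      _ = ∫ y, ∑ γ ∈ S, F (γ * y * x) * F y ∂μ := (integral_finsetSum _ fun γ _ => hint2 γ).symm
      _ = ∫ y, F y ∂μ := by
          congr 1
          ext y
          rw [← Finset.sum_mul]
          by_cases hy : F y = 0
          · simp [hy]
          · rw [hT y hy, one_mul]
  refine ⟨fun x => ?_⟩
  have hreg : (Measure.map (· * x) μ).Regular := Measure.Regular.map (Homeomorph.mulRight x)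
  have h4 := Measure.isMulLeftInvariant_eq_smul_of_regular (Measure.map (· * x) μ) μ
  set c := Measure.haarScalarFactor (Measure.map (· * x) μ) μ with hc
  have h5 : ∫ y, F y ∂(Measure.map (· * x) μ) = (c : ℝ) * ∫ y, F y ∂μ := by
    conv_lhs => rw [h4]
    rw [integral_smul_nnreal_measure]
    rfl
  have h6 : ∫ y, F y ∂(Measure.map (· * x) μ) = ∫ y, F (y * x) ∂μ :=
    integral_map (measurable_mul_const x).aemeasurable hFc.aestronglyMeasurable
  rw [h6, key x] at h5
  have h7 : (c : ℝ) = 1 := by
    have : (c : ℝ) * ∫ y, F y ∂μ = 1 * ∫ y, F y ∂μ := by rw [← h5, one_mul]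
    exact mul_right_cancel₀ hpos.ne' this
  have h8 : c = 1 := by exact_mod_cast h7
  rw [h4, h8, one_smul]

end Pool.Agent.TH276.Eb
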