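import Pool.Agent.TH276.Eb.Lat

set_option autoImplicit false
set_option linter.unusedSectionVars false
set_option linter.unusedVariables false

open MeasureTheory Filter Topology
open scoped ENNReal NNReal ComplexConjugate InnerProductSpace Pointwise

namespace Pool.Agent.TH276.Eb

universe u

variable {G : Type u} [Group G] [TopologicalSpace G] [IsTopologicalGroup G]
  [LocallyCompactSpace G] [T2Space G] [MeasurableSpace G] [BorelSpace G]

lemma coef_eq_inner {ξ : G → ℂ} (hξ : MemLp ξ 2 (Measure.haar : Measure G)) (x : G) :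
    coef ξ x = ⟪lt x (hξ.toLp ξ), hξ.toLp ξ⟫_ℂ := by
  rw [inner_lt]
  unfold coef
  apply integral_congr_ae
  have h1 := hξ.coeFn_toLp
  have h2 := (measurePreserving_mul_left (Measure.haar : Measure G) x⁻¹).quasiMeasurePreserving.ae_eq_comp h1
  filter_upwards [h1, h2] with y hy1 hy2
  simp only [Function.comp_apply] at hy2
  rw [hy1, hy2]

lemma norm_lt (x : G) (f : Lp ℂ 2 (Measure.haar : Measure G)) : ‖lt x f‖ = ‖f‖ :=
  (lt x).norm_map f

/-- coefficients are uniform limits of coefficients of compactly supported functions -/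
lemma coef_approx {ξ : G → ℂ} (hξ : MemLp ξ 2 (Measure.haar : Measure G)) (ε : ℝ) (hε : 0 < ε) :
    ∃ f : Cc G, ∀ x, ‖coef ξ x - coef (f : G → ℂ) x‖ < ε := by
  set F := hξ.toLp ξ with hF
  set M := ‖F‖ with hM
  have hM0 : 0 ≤ M := norm_nonneg _
  obtain ⟨δ, hδ, hδ1, hδε⟩ : ∃ δ : ℝ, 0 < δ ∧ δ ≤ 1 ∧ δ * (2 * M + 1) < ε := by
    refine ⟨min 1 (ε / (2 * (2 * M + 1))), by positivity, min_le_left _ _, ?_⟩
    calc min 1 (ε / (2 * (2 * M + 1))) * (2 * M + 1) ≤ ε / (2 * (2 * M + 1)) * (2 * M + 1) := by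
          gcongr
          exact min_le_right _ _
      _ = ε / 2 := by
          rw [div_mul_eq_mul_div, div_eq_div_iff (by positivity) (by norm_num)]
          ring
      _ < ε := by linarith
  obtain ⟨f, hf⟩ := (denseRange_toL2 (G := G)).exists_dist_lt F hδ
  refine ⟨f, fun x => ?_⟩
  have h1 := coef_eq_inner (Cc.memLp f) x
  have h2 := coef_eq_inner hξ x
  rw [h1, h2]
  have hfF : ‖F - toL2 f‖ < δ := by rwa [dist_eq_norm] at hf
  show ‖⟪lt x F, F⟫_ℂ - ⟪lt x (toL2 f), toL2 f⟫_ℂ‖ < ε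
  have hdec : ⟪lt x F, F⟫_ℂ - ⟪lt x (toL2 f), toL2 f⟫_ℂ =
      ⟪lt x F, F - toL2 f⟫_ℂ + ⟪lt x (F - toL2 f), toL2 f⟫_ℂ := by
    rw [map_sub, inner_sub_left, inner_sub_right]
    ring
  rw [hdec]
  have hfn : ‖toL2 f‖ ≤ M + δ := by
    calc ‖toL2 f‖ = ‖F - (F - toL2 f)‖ := by congr 1; abel
      _ ≤ ‖F‖ + ‖F - toL2 f‖ := norm_sub_le _ _
      _ ≤ M + δ := by gcongr
  calc ‖⟪lt x F, F - toL2 f⟫_ℂ + ⟪lt x (F - toL2 f), toL2 f⟫_ℂ‖
      ≤ ‖⟪lt x F, F - toL2 f⟫_ℂ‖ + ‖⟪lt x (F - toL2 f), toL2 f⟫_ℂ‖ := norm_add_le _ _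
    _ ≤ ‖lt x F‖ * ‖F - toL2 f‖ + ‖lt x (F - toL2 f)‖ * ‖toL2 f‖ :=
        add_le_add (norm_inner_le_norm _ _) (norm_inner_le_norm _ _)
    _ ≤ M * δ + δ * (M + δ) := by
        rw [norm_lt, norm_lt]
        gcongr
    _ ≤ δ * (2 * M + 1) := by nlinarith
    _ < ε := hδε

lemma coef_compact (f : Cc G) : HasCompactSupport (coef (f : G → ℂ)) := by
  have hK : IsCompact (tsupport (f : G → ℂ)) := f.2.2
  refine HasCompactSupport.intro (hK.mul hK.inv) ?_
  intro x hx
  unfold coef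
  apply integral_eq_zero_of_ae
  refine Eventually.of_forall fun y => ?_
  by_contra hne
  have h1 := mul_ne_zero_iff.1 hne
  apply hx
  have : x = y * (x⁻¹ * y)⁻¹ := by group
  rw [this]
  refine Set.mul_mem_mul (subset_tsupport _ h1.1) (Set.inv_mem_inv.2 (subset_tsupport _ ?_))
  intro h0
  exact h1.2 (by simp [h0])

lemma pdk_coef {ξ : G → ℂ} (hξ : MemLp ξ 2 (Measure.haar : Measure G)) :
    PDK (fun x y => coef ξ (y⁻¹ * x)) := by
  have h := pdk_coefK (η := fun _ : G => (1 : ℂ)) continuous_const (fun _ => norm_one) hξ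
  have h2 : ∀ x, coefK (fun _ : G => (1 : ℂ)) ξ x = coef ξ x := by
    intro x
    unfold coefK coef
    congr 1
    ext y
    simp
  simpa only [h2] using h

lemma pdk_closure {φ : G → ℂ} (hφ : φ ∈ closure (coefSet G)) :
    PDK (fun x y => φ (y⁻¹ * x)) := by
  have hcl : IsClosed {φ : G → ℂ | PDK (fun x y => φ (y⁻¹ * x))} := by
    unfold PDK
    apply IsClosed.inter
    · show IsClosed {φ : G → ℂ | ∀ x y, φ (x⁻¹ * y) = conj (φ (y⁻¹ * x))}
      simp only [Set.ofPred_forall]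
      refine isClosed_iInter fun x => isClosed_iInter fun y => ?_
      exact isClosed_eq (continuous_apply _) (Complex.continuous_conj.comp (continuous_apply _))
    · show IsClosed {φ : G → ℂ | ∀ (s : Finset G) (c : G → ℂ),
        0 ≤ (∑ x ∈ s, ∑ y ∈ s, conj (c x) * c y * φ (y⁻¹ * x)).re}
      simp only [Set.ofPred_forall]
      refine isClosed_iInter fun s => isClosed_iInter fun c => ?_
      apply isClosed_le continuous_const
      refine Complex.continuous_re.comp ?_
      refine continuous_finsetSum _ fun x _ => continuous_finsetSum _ fun y _ => ?_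
      exact continuous_const.mul (continuous_apply _)
  have hsub : coefSet G ⊆ {φ : G → ℂ | PDK (fun x y => φ (y⁻¹ * x))} := by
    rintro ψ ⟨ξ, hξ, hψ⟩
    have : ψ = coef ξ := funext hψ
    rw [this]
    exact pdk_coef hξ
  exact closure_minimal hsub hcl hφ

section
variable (Γ : Subgroup G) [DiscreteTopology Γ]

/-- unfolding an integral over `G` -/
lemma unfold_int (hμ : ∀ (γ : Γ) (f : G → ℂ), ∫ y, f (y * γ) ∂(Measure.haar : Measure G) =
      ∫ y, f y ∂(Measure.haar : Measure G)) {T : G → ℝ}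
    (hTc : Continuous T) (hTs : HasCompactSupport T)
    {A : G → ℂ} (hAc : Continuous A) (hAs : HasCompactSupport A)
    (hT1 : ∀ y, A y ≠ 0 → ∑' γ : Γ, T (y * γ) = 1) :
    Integrable (fun y => (T y : ℂ) * ∑' δ : Γ, A (y * δ)) (Measure.haar : Measure G) ∧
      ∫ y, A y ∂(Measure.haar : Measure G) =
        ∫ y, (T y : ℂ) * ∑' δ : Γ, A (y * δ) ∂(Measure.haar : Measure G) := by
  set μ : Measure G := Measure.haar with hμ'
  obtain ⟨D, hD⟩ := exists_finset Γ (C := tsupport A) (D := tsupport T) hAs hTs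
  have h1 : ∀ y, A y = ∑ δ ∈ D, A y * (T (y * δ) : ℂ) := by
    intro y
    by_cases hy : A y = 0
    · simp [hy]
    · rw [← Finset.mul_sum]
      have h2 : ∑ δ ∈ D, T (y * δ) = 1 := by
        rw [← hT1 y hy]
        symm
        apply tsum_fin
        intro δ hδ
        by_contra hne
        exact hδ (hD δ y (subset_tsupport _ hy) (subset_tsupport _ hne))
      have h3 : ∑ δ ∈ D, (T (y * δ) : ℂ) = 1 := by exact_mod_cast h2
      rw [h3, mul_one]
  have h2 : ∀ y, (T y : ℂ) * ∑' δ : Γ, A (y * δ) = ∑ δ ∈ D, A (y * (δ : G)⁻¹) * (T y : ℂ) := by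
    intro y
    by_cases hy : T y = 0
    · simp [hy]
    · rw [← Finset.sum_mul, mul_comm]
      congr 1
      rw [← (Equiv.inv Γ).tsum_eq]
      have := tsum_fin (fun δ : Γ => A (y * ((Equiv.inv Γ) δ : Γ))) D (by
        intro δ hδ
        by_contra hne
        apply hδ
        apply hD δ (y * (δ : G)⁻¹)
        · exact subset_tsupport _ (by simpa using hne)
        · have : y * (δ : G)⁻¹ * δ = y := by group
          rw [this]
          exact subset_tsupport _ hy)
      rw [this]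
      simp
  have hTcc : Continuous (fun y => (T y : ℂ)) := Complex.continuous_ofReal.comp hTc
  have hTss : HasCompactSupport (fun y => (T y : ℂ)) := hTs.comp_left (g := Complex.ofReal) (by simp)
  have hint : ∀ δ : Γ, Integrable (fun y => A y * (T (y * δ) : ℂ)) μ := by
    intro δ
    apply Continuous.integrable_of_hasCompactSupport
    · exact hAc.mul (hTcc.comp (continuous_mul_const (δ : G)))
    · exact hAs.mul_right
  have hint2 : ∀ δ : Γ, Integrable (fun y => A (y * (δ : G)⁻¹) * (T y : ℂ)) μ := by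
    intro δ
    apply Continuous.integrable_of_hasCompactSupport
    · exact (hAc.comp (continuous_mul_const (δ : G)⁻¹)).mul hTcc
    · exact hTss.mul_left
  refine ⟨?_, ?_⟩
  · simp_rw [h2]
    exact integrable_finsetSum _ fun δ _ => hint2 δ
  · calc ∫ y, A y ∂μ = ∫ y, ∑ δ ∈ D, A y * (T (y * δ) : ℂ) ∂μ := by
          congr 1; ext y; exact h1 y
      _ = ∑ δ ∈ D, ∫ y, A y * (T (y * δ) : ℂ) ∂μ := integral_finsetSum _ fun δ _ => hint δ
      _ = ∑ δ ∈ D, ∫ y, A (y * (δ : G)⁻¹) * (T y : ℂ) ∂μ := by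
          refine Finset.sum_congr rfl fun δ _ => ?_
          rw [← hμ δ (fun y => A (y * (δ : G)⁻¹) * (T y : ℂ))]
          simp
      _ = ∫ y, ∑ δ ∈ D, A (y * (δ : G)⁻¹) * (T y : ℂ) ∂μ :=
          (integral_finsetSum _ fun δ _ => hint2 δ).symm
      _ = ∫ y, (T y : ℂ) * ∑' δ : Γ, A (y * δ) ∂μ := by
          congr 1; ext y; exact (h2 y).symm

end

end Pool.Agent.TH276.Eb
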