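import Pool.Agent.TH276.Eb.Lat2

set_option autoImplicit false
set_option linter.unusedSectionVars false
set_option linter.unusedVariables false

/-!
# Discrete subgroups of finite covolume
-/

open MeasureTheory Filter Topology
open scoped ENNReal NNReal ComplexConjugate InnerProductSpace Pointwise

namespace Pool.Agent.TH276.Eb

universe u

variable {G : Type u} [Group G] [TopologicalSpace G] [IsTopologicalGroup G]
  [LocallyCompactSpace G] [T2Space G] [MeasurableSpace G] [BorelSpace G]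
  (Γ : Subgroup G)

/-- the sum over a coset -/
noncomputable def tsf (f : G → ℝ) (y : G) : ℝ := ∑' γ : Γ, f (y * γ)

/-- nonnegative functions in `C_c(G)` with sums at most one over the cosets of `Γ` -/
def Adm (f : G → ℝ) : Prop :=
  Continuous f ∧ HasCompactSupport f ∧ (∀ y, 0 ≤ f y) ∧ ∀ y, ∑' γ : Γ, f (y * γ) ≤ 1

/-- finite covolume -/
def FinCov : Prop := ∃ M : ℝ, ∀ f : G → ℝ, Adm Γ f → ∫ y, f y ∂(Measure.haar : Measure G) ≤ M

lemma tsf_shift (f : G → ℝ) (y : G) (γ : Γ) : tsf Γ f (y * γ) = tsf Γ f y := by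
  have := (Equiv.mulLeft γ).tsum_eq (fun δ : Γ => f (y * δ))
  unfold tsf
  simpa [mul_assoc] using this

variable [DiscreteTopology Γ]

lemma le_tsf {f : G → ℝ} (hs : HasCompactSupport f) (h0 : ∀ y, 0 ≤ f y) (y : G) :
    f y ≤ tsf Γ f y := by
  have := (summable_F Γ hs y).le_tsum 1 (fun δ _ => h0 _)
  simpa [tsf] using this

lemma tsf_nonneg {f : G → ℝ} (h0 : ∀ y, 0 ≤ f y) (y : G) : 0 ≤ tsf Γ f y :=
  tsum_nonneg fun _ => h0 _

lemma tsf_div {f g : G → ℝ} (hg : ∀ (y : G) (γ : Γ), g (y * γ) = g y) (y : G) :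
    ∑' γ : Γ, f (y * γ) / g (y * γ) = tsf Γ f y / g y := by
  simp_rw [hg]
  rw [tsum_div_const]
  rfl

lemma exists_adm_pos : ∃ f : G → ℝ, Adm Γ f ∧ 0 < ∫ y, f y ∂(Measure.haar : Measure G) := by
  obtain ⟨⟨f, fc⟩, fs, f0, f1⟩ : ∃ f : C(G, ℝ), HasCompactSupport f ∧ 0 ≤ f ∧ f 1 ≠ 0 :=
    exists_continuous_nonneg_pos 1
  have h0 : ∀ y, 0 ≤ f y := fun y => f0 y
  have hS0 : ∀ y, 0 ≤ tsf Γ f y := tsf_nonneg Γ h0
  have hSc : Continuous (tsf Γ f) := tsum_cont Γ fc fs
  have hpos : ∀ y, 0 < 1 + tsf Γ f y := fun y => by have := hS0 y; linarith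
  have hc : Continuous (fun y => f y / (1 + tsf Γ f y)) :=
    fc.div (continuous_const.add hSc) fun y => (hpos y).ne'
  have hs : HasCompactSupport (fun y => f y / (1 + tsf Γ f y)) := by
    refine HasCompactSupport.intro fs ?_
    intro y hy
    have : f y = 0 := image_eq_zero_of_notMem_tsupport hy
    rw [this, zero_div]
  refine ⟨fun y => f y / (1 + tsf Γ f y), ⟨hc, hs, fun y => div_nonneg (h0 y) (hpos y).le, ?_⟩, ?_⟩
  · intro y
    have := tsf_div Γ (f := f) (g := fun y => 1 + tsf Γ f y)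
      (fun y γ => by simp only [tsf_shift]) y
    rw [this, div_le_one (hpos y)]
    linarith
  · apply hc.integral_pos_of_hasCompactSupport_nonneg_nonzero hs
      (fun y => div_nonneg (h0 y) (hpos y).le) (x := 1)
    have : f 1 ≠ 0 := f1
    exact div_ne_zero this (hpos 1).ne'

lemma map_mul_right (g : G) : Measure.map (· * g) (Measure.haar : Measure G) =
    Measure.modularCharacterFun g • (Measure.haar : Measure G) := by
  have hreg : (Measure.map (· * g) (Measure.haar : Measure G)).Regular :=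
    Measure.Regular.map (Homeomorph.mulRight g)
  rw [Measure.modularCharacterFun_eq_haarScalarFactor Measure.haar g]
  exact Measure.isMulLeftInvariant_eq_smul_of_regular _ _

lemma integral_mul_right' {E : Type*} [NormedAddCommGroup E] [NormedSpace ℝ E] (g : G) (f : G → E) :
    ∫ y, f (y * g) ∂(Measure.haar : Measure G) =
      (Measure.modularCharacterFun g : ℝ) • ∫ y, f y ∂(Measure.haar : Measure G) := by
  have h := integral_map_equiv (μ := (Measure.haar : Measure G)) (MeasurableEquiv.mulRight g) f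
  have h2 : Measure.map (MeasurableEquiv.mulRight g) (Measure.haar : Measure G) =
    Measure.modularCharacterFun g • (Measure.haar : Measure G) := map_mul_right g
  rw [h2, integral_smul_nnreal_measure] at h
  exact h.symm

lemma tsum_mul_right' {f : G → ℝ} (y : G) (γ : Γ) :
    ∑' δ : Γ, f (y * δ * γ) = ∑' δ : Γ, f (y * δ) := by
  have := (Equiv.mulRight γ).tsum_eq (fun δ : Γ => f (y * δ))
  simpa [mul_assoc] using this

lemma adm_right {f : G → ℝ} (hf : Adm Γ f) (γ : Γ) : Adm Γ (fun y => f (y * γ)) := by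
  refine ⟨?_, ?_, fun y => hf.2.2.1 _, fun y => ?_⟩
  · have := hf.1
    fun_prop
  · exact hf.2.1.comp_homeomorph (Homeomorph.mulRight (γ : G))
  · rw [tsum_mul_right']
    exact hf.2.2.2 y

/-- the modular function is trivial on a discrete subgroup of finite covolume -/
lemma modular_le (hΓ : FinCov Γ) (γ : Γ) : Measure.modularCharacterFun (γ : G) ≤ 1 := by
  obtain ⟨M, hM⟩ := hΓ
  obtain ⟨f, hf, hpos⟩ := exists_adm_pos Γ
  set r := ∫ y, f y ∂(Measure.haar : Measure G) with hr
  by_contra hcon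
  rw [not_le] at hcon
  have hcon' : (1 : ℝ) < (Measure.modularCharacterFun (γ : G) : ℝ) := by exact_mod_cast hcon
  obtain ⟨n, hn⟩ := pow_unbounded_of_one_lt (M / r) hcon'
  have h1 := hM _ (adm_right Γ hf (γ ^ n))
  rw [integral_mul_right', ← hr, smul_eq_mul] at h1
  have h2 : Measure.modularCharacterFun ((γ ^ n : Γ) : G) =
      Measure.modularCharacterFun (γ : G) ^ n := by
    have := map_pow (Measure.modularCharacter (G := G)) (γ : G) n
    rw [Subgroup.coe_pow]
    exact this
  rw [h2, NNReal.coe_pow] at h1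
  rw [div_lt_iff₀ hpos] at hn
  linarith

lemma modular_eq (hΓ : FinCov Γ) (γ : Γ) : Measure.modularCharacterFun (γ : G) = 1 := by
  apply le_antisymm (modular_le Γ hΓ γ)
  have h1 := modular_le Γ hΓ γ⁻¹
  have h2 : Measure.modularCharacterFun (γ : G) * Measure.modularCharacterFun ((γ⁻¹ : Γ) : G) = 1 := by
    rw [← Measure.modularCharacterFun_map_mul]
    rw [← Measure.modularCharacterFun_map_one (G := G)]
    congr 1
    simp
  calc (1 : ℝ≥0) = Measure.modularCharacterFun (γ : G) *
        Measure.modularCharacterFun ((γ⁻¹ : Γ) : G) := h2.symm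
    _ ≤ Measure.modularCharacterFun (γ : G) * 1 := by gcongr
    _ = Measure.modularCharacterFun (γ : G) := mul_one _

lemma right_inv (hΓ : FinCov Γ) (γ : Γ) (f : G → ℂ) :
    ∫ y, f (y * γ) ∂(Measure.haar : Measure G) = ∫ y, f y ∂(Measure.haar : Measure G) := by
  rw [integral_mul_right', modular_eq Γ hΓ γ]
  simp

/-- overlaps of translates of an almost optimal function are almost optimal -/
lemma overlap {f : G → ℝ} (hf : Adm Γ f) {m : ℝ}
    (hm : ∀ g, Adm Γ g → ∫ y, g y ∂(Measure.haar : Measure G) ≤ m) (x : G) :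
    2 * ∫ y, f y ∂(Measure.haar : Measure G) -
      ∫ y, f y * tsf Γ f (x⁻¹ * y) ∂(Measure.haar : Measure G) ≤ m := by
  obtain ⟨fc, fs, f0, f1⟩ := hf
  have hSc : Continuous (tsf Γ f) := tsum_cont Γ fc fs
  have hS0 : ∀ y, 0 ≤ tsf Γ f y := tsf_nonneg Γ f0
  have hS1 : ∀ y, tsf Γ f y ≤ 1 := f1
  have hS : ∀ (y : G) (γ : Γ), tsf Γ f (x⁻¹ * (y * γ)) = tsf Γ f (x⁻¹ * y) := by
    intro y γ
    rw [← mul_assoc, tsf_shift]
  have fxs : HasCompactSupport (fun y => f (x⁻¹ * y)) := fs.comp_homeomorph (Homeomorph.mulLeft x⁻¹)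
  set g1 : G → ℝ := fun y => f y * (1 - tsf Γ f (x⁻¹ * y)) with hg1
  have hg1c : Continuous g1 := by
    show Continuous fun y => f y * (1 - tsf Γ f (x⁻¹ * y))
    exact fc.mul (continuous_const.sub (hSc.comp (continuous_const_mul x⁻¹)))
  have hg1s : HasCompactSupport g1 := fs.mul_right
  have hg2c : Continuous (fun y => f (x⁻¹ * y)) := fc.comp (continuous_const_mul x⁻¹)
  have hadm : Adm Γ (fun y => g1 y + f (x⁻¹ * y)) := by
    refine ⟨hg1c.add hg2c, hg1s.add fxs, fun y => ?_, fun y => ?_⟩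
    · exact add_nonneg (mul_nonneg (f0 y) (by have := hS1 (x⁻¹ * y); linarith)) (f0 _)
    · rw [(summable_F Γ hg1s y).tsum_add (summable_F Γ fxs y)]
      have e1 : ∑' γ : Γ, g1 (y * γ) = tsf Γ f y * (1 - tsf Γ f (x⁻¹ * y)) := by
        simp only [hg1, hS]
        rw [tsum_mul_right]
        rfl
      have e2 : ∑' γ : Γ, f (x⁻¹ * (y * γ)) = tsf Γ f (x⁻¹ * y) := by
        simp only [← mul_assoc]
        rfl
      rw [e1, e2]
      have a1 := hS1 y
      have a2 := hS1 (x⁻¹ * y)
      nlinarith [hS0 y, hS0 (x⁻¹ * y)]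
  have h := hm _ hadm
  have i1 : Integrable g1 (Measure.haar : Measure G) := hg1c.integrable_of_hasCompactSupport hg1s
  have i2 : Integrable (fun y => f (x⁻¹ * y)) (Measure.haar : Measure G) :=
    hg2c.integrable_of_hasCompactSupport fxs
  have i3 : Integrable f (Measure.haar : Measure G) := fc.integrable_of_hasCompactSupport fs
  have i4 : Integrable (fun y => f y * tsf Γ f (x⁻¹ * y)) (Measure.haar : Measure G) := by
    apply Continuous.integrable_of_hasCompactSupport
    · exact fc.mul (hSc.comp (continuous_const_mul x⁻¹))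
    · exact fs.mul_right
  rw [integral_add i1 i2, integral_mul_left_eq_self f x⁻¹] at h
  have e3 : ∫ y, g1 y ∂(Measure.haar : Measure G) = ∫ y, f y ∂(Measure.haar : Measure G) -
      ∫ y, f y * tsf Γ f (x⁻¹ * y) ∂(Measure.haar : Measure G) := by
    rw [← integral_sub i3 i4]
    congr 1
    ext y
    simp only [hg1]
    ring
  rw [e3] at h
  linarith

/-- splitting a function into pieces with small supports -/
lemma split_f {f : G → ℝ} (fc : Continuous f) (fs : HasCompactSupport f) (f0 : ∀ y, 0 ≤ f y)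
    (N : G → Set G) (hN : ∀ k, IsOpen (N k) ∧ k ∈ N k) :
    ∃ (n : ℕ) (k : Fin n → G) (θ : Fin n → G → ℝ),
      (∀ i, Continuous (θ i) ∧ HasCompactSupport (θ i) ∧ (∀ y, 0 ≤ θ i y) ∧
        (∀ y, θ i y ≠ 0 → y ∈ N (k i))) ∧ ∀ y, ∑ i, θ i y = f y := by
  classical
  have hK : IsCompact (tsupport f) := fs
  obtain ⟨t, ht, htK⟩ := hK.elim_nhds_subcover N (fun x _ => (hN x).1.mem_nhds (hN x).2)
  set k : Fin t.card → G := fun i => (t.equivFin.symm i : G) with hk
  have hcov : tsupport f ⊆ ⋃ i, N (k i) := by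
    intro x hx
    obtain ⟨z, hz, hxz⟩ := Set.mem_iUnion₂.1 (htK hx)
    refine Set.mem_iUnion.2 ⟨t.equivFin ⟨z, hz⟩, ?_⟩
    simpa [hk] using hxz
  obtain ⟨χ, hχ1, hχ2, hχ3, hχ4⟩ := exists_continuous_sum_one_of_isOpen_isCompact
    (fun i => (hN (k i)).1) hK hcov
  refine ⟨t.card, k, fun i y => f y * χ i y, fun i => ⟨?_, ?_, ?_, ?_⟩, ?_⟩
  · exact fc.mul (χ i).continuous
  · exact fs.mul_right
  · intro y
    exact mul_nonneg (f0 y) (hχ3 i y).1
  · intro y hy
    apply hχ1 i
    apply subset_tsupport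
    exact (mul_ne_zero_iff.1 hy).2
  · intro y
    show ∑ i, f y * χ i y = f y
    rw [← Finset.mul_sum]
    by_cases hy : y ∈ tsupport f
    · have := hχ2 hy
      simp only [Finset.sum_apply, Pi.one_apply] at this
      rw [this, mul_one]
    · rw [image_eq_zero_of_notMem_tsupport hy, zero_mul]

/-- a function in `C_c(G)` with coset sums one over a given compact set -/
lemma exists_T {L : Set G} (hL : IsCompact L) : ∃ T : G → ℝ, Continuous T ∧ HasCompactSupport T ∧
    (∀ y, 0 ≤ T y) ∧ ∀ y ∈ L, ∑' γ : Γ, T (y * γ) = 1 := by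
  obtain ⟨T0, h1, -, h3, h4⟩ := exists_continuous_one_zero_of_isCompact hL isClosed_empty
    (Set.disjoint_empty L)
  have h0 : ∀ y, 0 ≤ T0 y := fun y => (h4 y).1
  have hSc : Continuous (tsf Γ T0) := tsum_cont Γ T0.continuous h3
  have hm : ∀ y, 0 < max (tsf Γ T0 y) 1 := fun y => lt_max_of_lt_right one_pos
  refine ⟨fun y => T0 y / max (tsf Γ T0 y) 1, ?_, ?_, ?_, ?_⟩
  · exact T0.continuous.div (hSc.max continuous_const) fun y => (hm y).ne'
  · refine HasCompactSupport.intro h3 ?_
    intro y hy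
    rw [image_eq_zero_of_notMem_tsupport hy, zero_div]
  · intro y
    exact div_nonneg (h0 y) (hm y).le
  · intro y hy
    have := tsf_div Γ (f := T0) (g := fun y => max (tsf Γ T0 y) 1)
      (fun y γ => by simp only [tsf_shift]) y
    rw [this]
    have h5 : 1 ≤ tsf Γ T0 y := by
      have h6 := le_tsf Γ h3 h0 y
      have h7 : T0 y = 1 := h1 hy
      rw [h7] at h6
      exact h6
    rw [max_eq_left h5]
    exact div_self (by positivity)

/-- a discrete cocompact subgroup has finite covolume -/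
theorem finCov_of_cocompact (hΓ : ∃ K : Set G, IsCompact K ∧ ∀ y : G, ∃ γ : Γ, y * γ ∈ K) :
    FinCov Γ := by
  have hinv := unimod Γ hΓ
  obtain ⟨n, k, θ, hθ, hθ1⟩ := exists_partition Γ hΓ (fun _ => Set.univ)
    (fun k => ⟨isOpen_univ, Set.mem_univ _⟩)
  set F : G → ℝ := fun y => ∑ i, θ i y with hF
  have hFc : Continuous F := by
    show Continuous fun y => ∑ i, θ i y
    exact continuous_finsetSum _ fun i _ => (hθ i).1
  have hFs : HasCompactSupport F := by
    refine HasCompactSupport.intro (isCompact_iUnion fun i => (hθ i).2.1) ?_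
    intro y hy
    apply Finset.sum_eq_zero
    intro i _
    apply image_eq_zero_of_notMem_tsupport
    intro h
    exact hy (Set.mem_iUnion.2 ⟨i, h⟩)
  have hF0 : ∀ y, 0 ≤ F y := fun y => Finset.sum_nonneg fun i _ => (hθ i).2.2.1 _
  refine ⟨∫ y, F y ∂(Measure.haar : Measure G), ?_⟩
  rintro f ⟨fc, fs, f0, f1⟩
  obtain ⟨hi, hu⟩ := unfold_int Γ (T := F) (A := fun y => (f y : ℂ))
    (fun γ f => integral_mul_right_eq_self f (γ : G)) hFc hFs
    (Complex.continuous_ofReal.comp fc) (fs.comp_left (g := Complex.ofReal) (by simp))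
    (fun y _ => hθ1 y)
  have e1 : ∀ y, (F y : ℂ) * ∑' δ : Γ, (f (y * δ) : ℂ) = ((F y * tsf Γ f y : ℝ) : ℂ) := by
    intro y
    unfold tsf
    push_cast
    rfl
  simp only [e1] at hi hu
  rw [integral_complex_ofReal, integral_complex_ofReal] at hu
  have hu' : ∫ y, f y ∂(Measure.haar : Measure G) =
    ∫ y, F y * tsf Γ f y ∂(Measure.haar : Measure G) := by exact_mod_cast hu
  rw [hu']
  have hSc : Continuous (tsf Γ f) := tsum_cont Γ fc fs
  apply integral_mono
  · apply Continuous.integrable_of_hasCompactSupport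
    · exact hFc.mul hSc
    · exact hFs.mul_right
  · exact hFc.integrable_of_hasCompactSupport hFs
  · intro y
    show F y * tsf Γ f y ≤ F y
    have := f1 y
    exact mul_le_of_le_one_right (hF0 y) this

end Pool.Agent.TH276.Eb
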