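import Pool.Agent.TH276.Eb.Lat3

set_option autoImplicit false
set_option linter.unusedSectionVars false
set_option linter.unusedVariables false

/-!
# The Eberlein property for locally compact groups containing a lattice
-/

open MeasureTheory Filter Topology
open scoped ENNReal NNReal ComplexConjugate InnerProductSpace Pointwise

namespace Pool.Agent.TH276.Eb

universe u v

variable {G : Type u} [Group G] [TopologicalSpace G] [IsTopologicalGroup G]
  [LocallyCompactSpace G] [T2Space G] [MeasurableSpace G] [BorelSpace G]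
  (Γ : Subgroup G) [DiscreteTopology Γ]

section
variable {n : ℕ} (k : Fin n → G) (θ : Fin n → G → ℝ) (ψ : G → ℂ) (S : Finset Γ)

/-- the integrand -/
noncomputable def ker (x z y : G) : ℂ :=
  ∑ γ ∈ S, ∑ i, ∑ j, (θ i (x⁻¹ * y * γ) : ℂ) * (θ j (z⁻¹ * y) : ℂ) * ψ (k j * γ * (k i)⁻¹)

variable {k θ ψ S}

lemma ker_shift (x z y : G) : ker Γ k θ ψ S (z⁻¹ * x) 1 (z⁻¹ * y) = ker Γ k θ ψ S x z y := by
  unfold ker
  refine Finset.sum_congr rfl fun γ _ => Finset.sum_congr rfl fun i _ =>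
    Finset.sum_congr rfl fun j _ => ?_
  have h1 : (z⁻¹ * x)⁻¹ * (z⁻¹ * y) * (γ : G) = x⁻¹ * y * γ := by group
  have h2 : (1 : G)⁻¹ * (z⁻¹ * y) = z⁻¹ * y := by group
  rw [h1, h2]

lemma ker_cont (hθ : ∀ i, Continuous (θ i)) (x z : G) :
    Continuous (fun y => ker Γ k θ ψ S x z y) := by
  unfold ker
  refine continuous_finsetSum _ fun γ _ => continuous_finsetSum _ fun i _ =>
    continuous_finsetSum _ fun j _ => ?_
  have h1 := hθ i
  have h2 := hθ j
  fun_prop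

lemma ker_cont2 (hθ : ∀ i, Continuous (θ i)) :
    Continuous (fun q : G × G => ker Γ k θ ψ S q.1 1 q.2) := by
  unfold ker
  refine continuous_finsetSum _ fun γ _ => continuous_finsetSum _ fun i _ =>
    continuous_finsetSum _ fun j _ => ?_
  have h1 := hθ i
  have h2 := hθ j
  fun_prop

lemma ker_ne (x z y : G) (h : ker Γ k θ ψ S x z y ≠ 0) :
    ∃ γ ∈ S, ∃ i j, θ i (x⁻¹ * y * γ) ≠ 0 ∧ θ j (z⁻¹ * y) ≠ 0 := by
  obtain ⟨γ, hγ, h1⟩ := Finset.exists_ne_zero_of_sum_ne_zero h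
  obtain ⟨i, -, h2⟩ := Finset.exists_ne_zero_of_sum_ne_zero h1
  obtain ⟨j, -, h3⟩ := Finset.exists_ne_zero_of_sum_ne_zero h2
  have h4 := mul_ne_zero_iff.1 (mul_ne_zero_iff.1 h3).1
  exact ⟨γ, hγ, i, j, by exact_mod_cast h4.1, by exact_mod_cast h4.2⟩

/-- the union of the supports -/
def sup1 (θ : Fin n → G → ℝ) : Set G := ⋃ i, tsupport (θ i)

lemma isCompact_sup1 (hθ : ∀ i, HasCompactSupport (θ i)) : IsCompact (sup1 θ) :=
  isCompact_iUnion fun i => hθ i

lemma mem_sup1 {i : Fin n} {y : G} (h : θ i y ≠ 0) : y ∈ sup1 θ :=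
  Set.mem_iUnion.2 ⟨i, subset_tsupport _ h⟩

lemma ker_supp (x z y : G) (h : ker Γ k θ ψ S x z y ≠ 0) : z⁻¹ * y ∈ sup1 θ := by
  obtain ⟨γ, -, i, j, h1, h2⟩ := ker_ne Γ x z y h
  exact mem_sup1 h2

lemma ker_comp (hθ : ∀ i, HasCompactSupport (θ i)) (x z : G) :
    HasCompactSupport (fun y => ker Γ k θ ψ S x z y) := by
  refine HasCompactSupport.intro ((isCompact_singleton (x := z)).mul (isCompact_sup1 hθ)) ?_
  intro y hy
  by_contra hne
  apply hy
  have h := ker_supp Γ x z y hne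
  have : y = z * (z⁻¹ * y) := by group
  rw [this]
  exact Set.mul_mem_mul rfl h

/-- the pointwise positivity -/
lemma ker_pos (hθs : ∀ i, HasCompactSupport (θ i))
    (hS : ∀ γ : Γ, γ ∉ S → ∀ i j, ψ (k j * γ * (k i)⁻¹) = 0)
    {H : Type v} [NormedAddCommGroup H] [InnerProductSpace ℂ H] {w : G → H}
    (hw : ∀ x y, ⟪w x, w y⟫_ℂ = ψ (y⁻¹ * x)) (s : Finset G) (c : G → ℂ) (y : G) :
    ∃ r : ℝ, 0 ≤ r ∧ ∑ x ∈ s, ∑ z ∈ s, conj (c x) * c z * ∑' δ : Γ, ker Γ k θ ψ S x z (y * δ) =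
      (r : ℂ) := by
  classical
  -- relevant elements
  have hex : ∃ S' : Finset Γ, ∀ x ∈ s, ∀ i, ∀ γ : Γ, γ ∉ S' → θ i (x⁻¹ * y * γ) = 0 := by
    obtain ⟨S', hS'⟩ := exists_finset Γ (C := (fun x => x⁻¹ * y) '' (s : Set G)) (D := sup1 θ)
      (s.finite_toSet.image _).isCompact (isCompact_sup1 hθs)
    refine ⟨S', fun x hx i γ hγ => ?_⟩
    by_contra hne
    exact hγ (hS' γ _ ⟨x, hx, rfl⟩ (mem_sup1 hne))
  obtain ⟨S', hS'⟩ := hex
  set W : G → H := fun x => ∑ γ ∈ S', ∑ i, (θ i (x⁻¹ * y * γ) : ℂ) • w (γ * (k i)⁻¹) with hW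
  have key : ∀ x ∈ s, ∀ z ∈ s, ∑' δ : Γ, ker Γ k θ ψ S x z (y * δ) = ⟪W x, W z⟫_ℂ := by
    intro x hx z hz
    -- the kernel as a full sum
    have e1 : ∀ δ : Γ, ker Γ k θ ψ S x z (y * δ) = ∑' γ : Γ, ∑ i, ∑ j,
        (θ i (x⁻¹ * y * γ) : ℂ) * (θ j (z⁻¹ * y * δ) : ℂ) * ψ (k j * (δ : G)⁻¹ * γ * (k i)⁻¹) := by
      intro δ
      have e2 : ker Γ k θ ψ S x z (y * δ) = ∑' γ : Γ, ∑ i, ∑ j,
        (θ i (x⁻¹ * (y * δ) * γ) : ℂ) * (θ j (z⁻¹ * (y * δ)) : ℂ) * ψ (k j * γ * (k i)⁻¹) := by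
        symm
        apply tsum_fin
        intro γ hγ
        apply Finset.sum_eq_zero
        intro i _
        apply Finset.sum_eq_zero
        intro j _
        rw [hS γ hγ i j, mul_zero]
      rw [e2, ← (Equiv.mulLeft δ⁻¹).tsum_eq]
      congr 1
      ext γ
      refine Finset.sum_congr rfl fun i _ => Finset.sum_congr rfl fun j _ => ?_
      have h1 : x⁻¹ * (y * (δ : G)) * ((Equiv.mulLeft δ⁻¹ γ : Γ) : G) = x⁻¹ * y * γ := by
        simp [mul_assoc]
      have h2 : z⁻¹ * (y * (δ : G)) = z⁻¹ * y * δ := by group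
      have h3 : k j * ((Equiv.mulLeft δ⁻¹ γ : Γ) : G) * (k i)⁻¹ = k j * (δ : G)⁻¹ * γ * (k i)⁻¹ := by
        simp [mul_assoc]
      rw [h1, h2, h3]
    have e3 : ∀ δ : Γ, ker Γ k θ ψ S x z (y * δ) = ∑ γ ∈ S', ∑ i, ∑ j,
        (θ i (x⁻¹ * y * γ) : ℂ) * (θ j (z⁻¹ * y * δ) : ℂ) * ψ (k j * (δ : G)⁻¹ * γ * (k i)⁻¹) := by
      intro δ
      rw [e1]
      apply tsum_fin
      intro γ hγ
      apply Finset.sum_eq_zero
      intro i _
      apply Finset.sum_eq_zero
      intro j _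
      rw [hS' x hx i γ hγ]
      simp
    have e4 : ∑' δ : Γ, (∑ γ ∈ S', ∑ i, ∑ j,
        (θ i (x⁻¹ * y * γ) : ℂ) * (θ j (z⁻¹ * y * δ) : ℂ) * ψ (k j * (δ : G)⁻¹ * γ * (k i)⁻¹)) =
        ∑ δ ∈ S', ∑ γ ∈ S', ∑ i, ∑ j,
        (θ i (x⁻¹ * y * γ) : ℂ) * (θ j (z⁻¹ * y * δ) : ℂ) * ψ (k j * (δ : G)⁻¹ * γ * (k i)⁻¹) := by
      apply tsum_fin
      intro δ hδ
      apply Finset.sum_eq_zero
      intro γ _
      apply Finset.sum_eq_zero
      intro i _
      apply Finset.sum_eq_zero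
      intro j _
      rw [hS' z hz j δ hδ]
      simp
    simp_rw [e3]
    rw [e4, hW]
    simp only [sum_inner, inner_sum, inner_smul_left, inner_smul_right, hw, Complex.conj_ofReal]
    refine Finset.sum_congr rfl fun δ _ => ?_
    simp only [Finset.mul_sum]
    conv_rhs => rw [Finset.sum_comm]
    refine Finset.sum_congr rfl fun γ _ => ?_
    conv_rhs => rw [Finset.sum_comm]
    refine Finset.sum_congr rfl fun i _ => Finset.sum_congr rfl fun j _ => ?_
    have h4 : ((δ : G) * (k j)⁻¹)⁻¹ * ((γ : G) * (k i)⁻¹) = k j * (δ : G)⁻¹ * γ * (k i)⁻¹ := by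
      group
    rw [h4]
    ring
  refine ⟨‖∑ x ∈ s, c x • W x‖ ^ 2, by positivity, ?_⟩
  have h3 := inner_self_eq_norm_sq_to_K (𝕜 := ℂ) (∑ x ∈ s, c x • W x)
  rw [sum_inner] at h3
  simp_rw [inner_sum, inner_smul_left, inner_smul_right] at h3
  push_cast
  refine Eq.trans ?_ h3
  refine Finset.sum_congr rfl fun x hx => Finset.sum_congr rfl fun z hz => ?_
  rw [key x hx z hz]
  ring

/-- positive definiteness of the averaged function -/
lemma pdk_p (hΓ : FinCov Γ) (hθc : ∀ i, Continuous (θ i)) (hθs : ∀ i, HasCompactSupport (θ i))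
    (hS : ∀ γ : Γ, γ ∉ S → ∀ i j, ψ (k j * γ * (k i)⁻¹) = 0)
    (hψ : PDK (fun x y => ψ (y⁻¹ * x))) {m : ℝ} (hm : 0 ≤ m) :
    PDK (fun x y => (m : ℂ) * ∫ t, ker Γ k θ ψ S (y⁻¹ * x) 1 t ∂(Measure.haar : Measure G)) := by
  classical
  obtain ⟨H, _, _, _, w, hw⟩ := exists_gram hψ
  set μ : Measure G := Measure.haar with hμ
  have hsh : ∀ x z : G, ∫ t, ker Γ k θ ψ S (z⁻¹ * x) 1 t ∂μ = ∫ t, ker Γ k θ ψ S x z t ∂μ := by
    intro x z
    rw [← integral_mul_left_eq_self _ z⁻¹]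
    congr 1
    ext y
    exact ker_shift Γ x z y
  -- the main positivity statement
  have hpos : ∀ (s : Finset G) (c : G → ℂ), ∃ r : ℝ, 0 ≤ r ∧ ∑ x ∈ s, ∑ z ∈ s,
      conj (c x) * c z * ∫ t, ker Γ k θ ψ S x z t ∂μ = (r : ℂ) := by
    intro s c
    obtain ⟨T, hTc, hTs, hT0, hT1⟩ := exists_T Γ
      (s.finite_toSet.isCompact.mul (isCompact_sup1 hθs))
    have hun : ∀ x ∈ s, ∀ z ∈ s, _ := fun x hx z hz =>
      unfold_int Γ (fun γ f => right_inv Γ hΓ γ f) hTc hTs (ker_cont Γ (k := k) (ψ := ψ) (S := S)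
        hθc x z) (ker_comp Γ hθs x z) (fun y hy => hT1 y (by
          have h := ker_supp Γ x z y hy
          have : y = z * (z⁻¹ * y) := by group
          rw [this]
          exact Set.mul_mem_mul hz h))
    have e1 : ∑ x ∈ s, ∑ z ∈ s, conj (c x) * c z * ∫ t, ker Γ k θ ψ S x z t ∂μ =
        ∫ y, (T y : ℂ) * ∑ x ∈ s, ∑ z ∈ s, conj (c x) * c z *
          ∑' δ : Γ, ker Γ k θ ψ S x z (y * δ) ∂μ := by
      have e2 : ∀ y, (T y : ℂ) * ∑ x ∈ s, ∑ z ∈ s, conj (c x) * c z *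
          ∑' δ : Γ, ker Γ k θ ψ S x z (y * δ) = ∑ x ∈ s, ∑ z ∈ s, conj (c x) * c z *
          ((T y : ℂ) * ∑' δ : Γ, ker Γ k θ ψ S x z (y * δ)) := by
        intro y
        rw [Finset.mul_sum]
        refine Finset.sum_congr rfl fun x _ => ?_
        rw [Finset.mul_sum]
        refine Finset.sum_congr rfl fun z _ => ?_
        ring
      simp_rw [e2]
      rw [integral_finsetSum _ (fun x hx => integrable_finsetSum _ fun z hz =>
        (hun x hx z hz).1.const_mul _)]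
      refine Finset.sum_congr rfl fun x hx => ?_
      rw [integral_finsetSum _ (fun z hz => (hun x hx z hz).1.const_mul _)]
      refine Finset.sum_congr rfl fun z hz => ?_
      rw [integral_const_mul, (hun x hx z hz).2]
    have hch := fun y => ker_pos Γ hθs hS hw s c y
    choose r hr0 hr using hch
    refine ⟨∫ y, T y * r y ∂μ, integral_nonneg fun y => mul_nonneg (hT0 y) (hr0 y), ?_⟩
    rw [e1, ← integral_complex_ofReal]
    congr 1
    ext y
    rw [hr y]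
    push_cast
    rfl
  refine ⟨fun x z => ?_, fun s c => ?_⟩
  · -- Hermitian symmetry, from positivity
    simp only
    rw [map_mul, Complex.conj_ofReal, hsh, hsh]
    congr 1
    -- polarisation
    set a : G → G → ℂ := fun x z => ∫ t, ker Γ k θ ψ S x z t ∂μ with ha
    show a z x = conj (a x z)
    by_cases hxz : x = z
    · subst hxz
      obtain ⟨r, -, hr⟩ := hpos {x} (fun _ => 1)
      simp only [Finset.sum_singleton, map_one, one_mul] at hr
      show a x x = conj (a x x)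
      have : a x x = (r : ℂ) := hr
      rw [this, Complex.conj_ofReal]
    · obtain ⟨r1, -, hr1⟩ := hpos {x, z} (fun _ => 1)
      obtain ⟨r2, -, hr2⟩ := hpos {x, z} (fun t => if t = x then 1 else Complex.I)
      obtain ⟨r3, -, hr3⟩ := hpos {x} (fun _ => 1)
      obtain ⟨r4, -, hr4⟩ := hpos {z} (fun _ => 1)
      have hzx : ¬ z = x := fun h => hxz h.symm
      simp only [Finset.sum_singleton, Finset.sum_pair hxz, map_one, one_mul, if_true, if_neg hzx,
        Complex.conj_I, mul_one] at hr1 hr2 hr3 hr4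
      change a x x = (r3 : ℂ) at hr3
      change a z z = (r4 : ℂ) at hr4
      change a x x + a x z + (a z x + a z z) = (r1 : ℂ) at hr1
      change a x x + Complex.I * a x z + (-Complex.I * a z x + -Complex.I * Complex.I * a z z) =
        (r2 : ℂ) at hr2
      rw [hr3, hr4] at hr1 hr2
      have i1 := congrArg Complex.im hr1
      have i2 := congrArg Complex.im hr2
      simp at i1 i2
      apply Complex.ext
      · simp
        linarith
      · simp
        linarith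
  · obtain ⟨r, hr0, hr⟩ := hpos s c
    have : (∑ x ∈ s, ∑ y ∈ s, conj (c x) * c y *
        ((m : ℂ) * ∫ t, ker Γ k θ ψ S (y⁻¹ * x) 1 t ∂μ)) = ((m * r : ℝ) : ℂ) := by
      push_cast
      rw [← hr, Finset.mul_sum]
      refine Finset.sum_congr rfl fun x _ => ?_
      rw [Finset.mul_sum]
      refine Finset.sum_congr rfl fun z _ => ?_
      rw [hsh]
      ring
    rw [this, Complex.ofReal_re]
    positivity

end

end Pool.Agent.TH276.Eb
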