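import Pool.Agent.TH276.Eb.Lat4

set_option autoImplicit false
set_option linter.unusedSectionVars false
set_option linter.unusedVariables false

/-!
# The Eberlein property for locally compact groups containing a lattice: the main theorem
-/

open MeasureTheory Filter Topology
open scoped ENNReal NNReal ComplexConjugate InnerProductSpace Pointwise

namespace Pool.Agent.TH276.Eb

universe u v

variable {G : Type u} [Group G] [TopologicalSpace G] [IsTopologicalGroup G]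
  [LocallyCompactSpace G] [T2Space G] [MeasurableSpace G] [BorelSpace G]
  (Γ : Subgroup G) [DiscreteTopology Γ]

lemma norm_w_diff {H : Type v} [NormedAddCommGroup H] [InnerProductSpace ℂ H] [CompleteSpace H]
    {p : G → ℂ} {w : G → H} (hw : ∀ x y, ⟪w x, w y⟫_ℂ = p (y⁻¹ * x)) (g a b : G) :
    ‖w (g * a) - w (g * b)‖ = ‖w a - w b‖ := by
  have h1 := norm_w_sub hw (g * b) (b⁻¹ * a)
  have h2 := norm_w_sub hw b (b⁻¹ * a)
  have e1 : g * b * (b⁻¹ * a) = g * a := by group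
  have e2 : b * (b⁻¹ * a) = a := by group
  rw [e1] at h1
  rw [e2] at h2
  rw [h1, h2]

lemma norm_w_eq {H : Type v} [NormedAddCommGroup H] [InnerProductSpace ℂ H] [CompleteSpace H]
    {p : G → ℂ} {w : G → H} (hw : ∀ x y, ⟪w x, w y⟫_ℂ = p (y⁻¹ * x)) (x : G) :
    ‖w x‖ = ‖w 1‖ := by
  have e2 : ∀ y, ‖w y‖ ^ 2 = RCLike.re (p 1) := by
    intro y
    rw [← inner_self_eq_norm_sq (𝕜 := ℂ), hw]
    congr 2
    group
  have : ‖w x‖ ^ 2 = ‖w 1‖ ^ 2 := by rw [e2, e2]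
  exact (sq_eq_sq₀ (norm_nonneg _) (norm_nonneg _)).1 this

section
variable {n : ℕ} {k : Fin n → G} {θ : Fin n → G → ℝ} {ψ φ : G → ℂ} {S : Finset Γ} {f : G → ℝ}

/-- pointwise comparison of the integrand with `φ x` -/
lemma ker_close (hθs : ∀ i, HasCompactSupport (θ i)) (hθ0 : ∀ i y, 0 ≤ θ i y)
    (hθf : ∀ y, ∑ i, θ i y = f y) (hfs : HasCompactSupport f)
    (hS : ∀ γ : Γ, γ ∉ S → ∀ i j, ψ (k j * γ * (k i)⁻¹) = 0) {κ : ℝ} (x y : G)
    (hκ : ∀ (γ : Γ) (i j : Fin n), θ i (x⁻¹ * y * γ) ≠ 0 → θ j y ≠ 0 →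
      ‖ψ (k j * γ * (k i)⁻¹) - φ x‖ ≤ κ) :
    ‖ker Γ k θ ψ S x 1 y - ((f y * tsf Γ f (x⁻¹ * y) : ℝ) : ℂ) * φ x‖ ≤
      κ * (f y * tsf Γ f (x⁻¹ * y)) := by
  classical
  obtain ⟨S1, hS1⟩ := exists_finset Γ (isCompact_singleton (x := x⁻¹ * y)) (D := sup1 θ)
    (isCompact_sup1 hθs)
  set T := S ∪ S1 with hT
  have hz : ∀ γ : Γ, γ ∉ T → ∀ i, θ i (x⁻¹ * y * γ) = 0 := by
    intro γ hγ i
    by_contra hne
    exact hγ (Finset.mem_union_right _ (hS1 γ _ rfl (mem_sup1 hne)))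
  have e1 : ker Γ k θ ψ S x 1 y = ∑ γ ∈ T, ∑ i, ∑ j,
      ((θ i (x⁻¹ * y * γ) * θ j y : ℝ) : ℂ) * ψ (k j * γ * (k i)⁻¹) := by
    unfold ker
    rw [Finset.sum_subset (Finset.subset_union_left (s₁ := S) (s₂ := S1))]
    · refine Finset.sum_congr rfl fun γ _ => Finset.sum_congr rfl fun i _ =>
        Finset.sum_congr rfl fun j _ => ?_
      rw [inv_one, one_mul]
      push_cast
      ring
    · intro γ _ hγ
      apply Finset.sum_eq_zero
      intro i _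
      apply Finset.sum_eq_zero
      intro j _
      rw [hS γ hγ i j, mul_zero]
  have e2 : f y * tsf Γ f (x⁻¹ * y) = ∑ γ ∈ T, ∑ i, ∑ j, θ i (x⁻¹ * y * γ) * θ j y := by
    have e3 : tsf Γ f (x⁻¹ * y) = ∑ γ ∈ T, ∑ i, θ i (x⁻¹ * y * γ) := by
      unfold tsf
      rw [tsum_fin _ T (by
        intro γ hγ
        rw [← hθf]
        exact Finset.sum_eq_zero fun i _ => hz γ hγ i)]
      exact Finset.sum_congr rfl fun γ _ => (hθf _).symm
    rw [e3, ← hθf y, mul_comm, Finset.sum_mul]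
    refine Finset.sum_congr rfl fun γ _ => ?_
    rw [Finset.sum_mul]
    refine Finset.sum_congr rfl fun i _ => ?_
    rw [Finset.mul_sum]
  rw [e1, e2]
  have e4 : (∑ γ ∈ T, ∑ i, ∑ j, ((θ i (x⁻¹ * y * γ) * θ j y : ℝ) : ℂ) * ψ (k j * γ * (k i)⁻¹)) -
      ((∑ γ ∈ T, ∑ i, ∑ j, θ i (x⁻¹ * y * γ) * θ j y : ℝ) : ℂ) * φ x =
      ∑ γ ∈ T, ∑ i, ∑ j, ((θ i (x⁻¹ * y * γ) * θ j y : ℝ) : ℂ) *
        (ψ (k j * γ * (k i)⁻¹) - φ x) := by
    push_cast
    simp only [Finset.sum_mul, mul_sub, Finset.sum_sub_distrib]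
  rw [e4]
  refine (norm_sum_le _ _).trans ?_
  rw [Finset.mul_sum]
  refine Finset.sum_le_sum fun γ _ => ?_
  refine (norm_sum_le _ _).trans ?_
  rw [Finset.mul_sum]
  refine Finset.sum_le_sum fun i _ => ?_
  refine (norm_sum_le _ _).trans ?_
  rw [Finset.mul_sum]
  refine Finset.sum_le_sum fun j _ => ?_
  rw [norm_mul, Complex.norm_real, Real.norm_of_nonneg (mul_nonneg (hθ0 _ _) (hθ0 _ _))]
  by_cases h1 : θ i (x⁻¹ * y * γ) = 0
  · simp [h1]
  by_cases h2 : θ j y = 0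
  · simp [h2]
  rw [mul_comm]
  exact mul_le_mul_of_nonneg_right (hκ γ i j h1 h2) (mul_nonneg (hθ0 _ _) (hθ0 _ _))

end

/-- **Main theorem.** -/
theorem main_lattice (hΓ : FinCov Γ) {φ : G → ℂ} (hφc : Continuous φ)
    (hφ : φ ∈ closure (coefSet G)) (C : Set G) (hC : IsCompact C) (ε : ℝ) (hε : 0 < ε) :
    ∃ ξ : G → ℂ, MemLp ξ 2 (Measure.haar : Measure G) ∧ ∀ x ∈ C, ‖φ x - coef ξ x‖ < ε := by
  classical
  set μ : Measure G := Measure.haar with hμ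
  have hpdk := pdk_closure hφ
  obtain ⟨H, _, _, _, w, hw⟩ := exists_gram hpdk
  have hwc : Continuous w := continuous_gram hw (hφc.tendsto 1)
  set M := ‖w 1‖ with hM
  have hM0 : 0 ≤ M := norm_nonneg _
  have hwn : ∀ y, ‖w y‖ = M := norm_w_eq hw
  -- the covolume
  set R : Set ℝ := {r | ∃ f : G → ℝ, Adm Γ f ∧ ∫ y, f y ∂μ = r} with hR
  set m := sSup R with hm'
  have hbdd : BddAbove R := by
    obtain ⟨B, hB⟩ := hΓ
    refine ⟨B, ?_⟩
    rintro r ⟨f, hf, rfl⟩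
    exact hB f hf
  have hm : ∀ g, Adm Γ g → ∫ y, g y ∂μ ≤ m := fun g hg => le_csSup hbdd ⟨g, hg, rfl⟩
  obtain ⟨f0, hf0, hf0p⟩ := exists_adm_pos Γ
  have hmpos : 0 < m := lt_of_lt_of_le hf0p (hm f0 hf0)
  -- constants
  set ε₁ := ε / (8 * (M + 1)) with hε₁
  have hε₁0 : 0 < ε₁ := by positivity
  set η := m * ε / (8 * (M ^ 2 + 1)) with hη
  have hη0 : 0 < η := by positivity
  obtain ⟨r, ⟨f, hf, rfl⟩, hfm⟩ := exists_lt_of_lt_csSup (s := R) ⟨_, f0, hf0, rfl⟩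
    (show m - η < sSup R by rw [← hm']; linarith)
  obtain ⟨fc, fs, f0', f1⟩ := hf
  -- the pieces
  obtain ⟨n, k, θ, hθ, hθf⟩ := split_f fc fs f0' (fun k => {y | ‖w y⁻¹ - w k⁻¹‖ < ε₁}) (by
    intro k
    refine ⟨?_, ?_⟩
    · have : Continuous (fun y : G => ‖w y⁻¹ - w k⁻¹‖) := by fun_prop
      exact isOpen_lt this continuous_const
    · show ‖w k⁻¹ - w k⁻¹‖ < ε₁
      rw [sub_self, norm_zero]
      exact hε₁0)
  have hθc : ∀ i, Continuous (θ i) := fun i => (hθ i).1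
  have hθs : ∀ i, HasCompactSupport (θ i) := fun i => (hθ i).2.1
  have hθ0 : ∀ i y, 0 ≤ θ i y := fun i => (hθ i).2.2.1
  have hθN : ∀ i y, θ i y ≠ 0 → ‖w y⁻¹ - w (k i)⁻¹‖ < ε₁ := fun i => (hθ i).2.2.2
  have hK1 : IsCompact (sup1 θ) := isCompact_sup1 hθs
  -- the finite set of points
  obtain ⟨T0, hT0⟩ := exists_finset Γ (hC.inv.mul hK1) hK1
  have hev : ∀ᶠ ψ : G → ℂ in 𝓝 φ, ∀ γ ∈ T0, ∀ i j,
      ‖ψ (k j * γ * (k i)⁻¹) - φ (k j * γ * (k i)⁻¹)‖ < ε / 16 := by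
    rw [Filter.eventually_all_finset]
    intro γ _
    rw [Filter.eventually_all]
    intro i
    rw [Filter.eventually_all]
    intro j
    have hc : Continuous (fun ψ : G → ℂ =>
        ‖ψ (k j * γ * (k i)⁻¹) - φ (k j * γ * (k i)⁻¹)‖) :=
      ((continuous_apply _).sub continuous_const).norm
    have h := hc.tendsto φ
    simp only [sub_self, norm_zero] at h
    exact h.eventually (gt_mem_nhds (by positivity))
  obtain ⟨ψ0, ⟨ξ0, hξ0, hψξ⟩, hψ0⟩ := ((mem_closure_iff_frequently.1 hφ).and_eventually hev).exists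
  obtain ⟨g, hg⟩ := coef_approx hξ0 (ε / 16) (by positivity)
  set ψ : G → ℂ := coef (g : G → ℂ) with hψ
  have hψs : HasCompactSupport ψ := coef_compact g
  have hψp : PDK (fun x y => ψ (y⁻¹ * x)) := pdk_coef (Cc.memLp g)
  have hψφ : ∀ γ ∈ T0, ∀ i j, ‖ψ (k j * γ * (k i)⁻¹) - φ (k j * γ * (k i)⁻¹)‖ ≤ ε / 8 := by
    intro γ hγ i j
    have h1 := hψ0 γ hγ i j
    have h2 := hg (k j * γ * (k i)⁻¹)
    rw [hψξ] at h1
    calc ‖ψ (k j * γ * (k i)⁻¹) - φ (k j * γ * (k i)⁻¹)‖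
        = ‖-(coef ξ0 (k j * γ * (k i)⁻¹) - ψ (k j * γ * (k i)⁻¹)) +
          (coef ξ0 (k j * γ * (k i)⁻¹) - φ (k j * γ * (k i)⁻¹))‖ := by congr 1; ring
      _ ≤ ‖coef ξ0 (k j * γ * (k i)⁻¹) - ψ (k j * γ * (k i)⁻¹)‖ +
          ‖coef ξ0 (k j * γ * (k i)⁻¹) - φ (k j * γ * (k i)⁻¹)‖ := by
            refine (norm_add_le _ _).trans ?_
            rw [norm_neg]
      _ ≤ ε / 16 + ε / 16 := add_le_add h2.le h1.le
      _ = ε / 8 := by ring
  -- the finite set where `ψ` lives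
  obtain ⟨S, hS'⟩ := exists_finset Γ (C := Set.range k) (D := tsupport ψ * Set.range k)
    (Set.finite_range k).isCompact (IsCompact.mul hψs (Set.finite_range k).isCompact)
  have hS : ∀ γ : Γ, γ ∉ S → ∀ i j, ψ (k j * γ * (k i)⁻¹) = 0 := by
    intro γ hγ i j
    by_contra hne
    apply hγ
    apply hS' γ (k j) ⟨j, rfl⟩
    have : k j * (γ : G) = (k j * γ * (k i)⁻¹) * k i := by group
    rw [this]
    exact Set.mul_mem_mul (subset_tsupport _ hne) ⟨i, rfl⟩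
  set p : G → ℂ := fun x => ((1 / m : ℝ) : ℂ) * ∫ t, ker Γ k θ ψ S x 1 t ∂μ with hp
  have hpp : PDK (fun x y => p (y⁻¹ * x)) :=
    pdk_p Γ hΓ hθc hθs hS hψp (m := 1 / m) (by positivity)
  have hpc : Continuous p := by
    apply continuous_const.mul
    have := continuousOn_integral_of_compact_support (μ := μ)
      (f := fun x t => ker Γ k θ ψ S x 1 t) (s := Set.univ) hK1
      (ker_cont2 Γ hθc).continuousOn (by
        intro x t _ ht
        by_contra hne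
        have := ker_supp Γ x 1 t hne
        rw [inv_one, one_mul] at this
        exact ht this)
    exact continuousOn_univ.1 this
  have hps : HasCompactSupport p := by
    have hc : IsCompact (sup1 θ * ((fun γ : Γ => (γ : G)) '' (S : Set Γ)) * (sup1 θ)⁻¹) :=
      (hK1.mul (S.finite_toSet.image _).isCompact).mul hK1.inv
    refine HasCompactSupport.intro hc ?_
    intro x hx
    have : ∀ t, ker Γ k θ ψ S x 1 t = 0 := by
      intro t
      by_contra hne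
      apply hx
      obtain ⟨γ, hγ, i, j, h1, h2⟩ := ker_ne Γ x 1 t hne
      rw [inv_one, one_mul] at h2
      have e : x = t * γ * (x⁻¹ * t * γ)⁻¹ := by group
      rw [e]
      exact Set.mul_mem_mul (Set.mul_mem_mul (mem_sup1 h2) ⟨γ, hγ, rfl⟩)
        (Set.inv_mem_inv.2 (mem_sup1 h1))
    simp [hp, this]
  obtain ⟨H', _, _, _, w', hw'⟩ := exists_gram hpp
  have hwc' : Continuous w' := continuous_gram hw' (hpc.tendsto 1)
  obtain ⟨ξ, hξ, hξp⟩ := godement hpc hps hw' hwc' (ε / 8) (by positivity)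
  refine ⟨ξ, hξ, fun x hx => ?_⟩
  -- closeness
  set κ := 2 * ε₁ * M + ε / 8 with hκ'
  have hκ0 : 0 ≤ κ := by positivity
  have hφe : ∀ (γ : Γ) (i j : Fin n) (y : G), θ i (x⁻¹ * y * γ) ≠ 0 → θ j y ≠ 0 →
      ‖φ (k j * γ * (k i)⁻¹) - φ x‖ ≤ 2 * ε₁ * M := by
    intro γ i j y h1 h2
    have a1 := hθN i _ h1
    have a2 := hθN j _ h2
    have b1 : φ (k j * γ * (k i)⁻¹) = ⟪w (γ * (k i)⁻¹), w (k j)⁻¹⟫_ℂ := by
      rw [hw]
      congr 1
      group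
    have b2 : φ x = ⟪w (γ * (x⁻¹ * y * γ)⁻¹), w y⁻¹⟫_ℂ := by
      rw [hw]
      congr 1
      group
    have b3 : φ (k j * γ * (k i)⁻¹) - φ x =
        -(⟪w (γ * (x⁻¹ * y * γ)⁻¹) - w (γ * (k i)⁻¹), w (k j)⁻¹⟫_ℂ +
        ⟪w (γ * (x⁻¹ * y * γ)⁻¹), w y⁻¹ - w (k j)⁻¹⟫_ℂ) := by
      rw [b1, b2, inner_sub_left, inner_sub_right]
      ring
    rw [b3, norm_neg]
    calc _ ≤ ‖⟪w (γ * (x⁻¹ * y * γ)⁻¹) - w (γ * (k i)⁻¹), w (k j)⁻¹⟫_ℂ‖ +
          ‖⟪w (γ * (x⁻¹ * y * γ)⁻¹), w y⁻¹ - w (k j)⁻¹⟫_ℂ‖ := norm_add_le _ _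
      _ ≤ ‖w (γ * (x⁻¹ * y * γ)⁻¹) - w (γ * (k i)⁻¹)‖ * ‖w (k j)⁻¹‖ +
          ‖w (γ * (x⁻¹ * y * γ)⁻¹)‖ * ‖w y⁻¹ - w (k j)⁻¹‖ :=
            add_le_add (norm_inner_le_norm _ _) (norm_inner_le_norm _ _)
      _ ≤ ε₁ * M + M * ε₁ := by
          rw [norm_w_diff hw, hwn, hwn]
          gcongr
      _ = 2 * ε₁ * M := by ring
  have hker : ∀ y, ‖ker Γ k θ ψ S x 1 y - ((f y * tsf Γ f (x⁻¹ * y) : ℝ) : ℂ) * φ x‖ ≤
      κ * (f y * tsf Γ f (x⁻¹ * y)) := by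
    intro y
    apply ker_close Γ hθs hθ0 hθf fs hS
    intro γ i j h1 h2
    have hγ : γ ∈ T0 := by
      apply hT0 γ (x⁻¹ * y)
      · exact Set.mul_mem_mul (Set.inv_mem_inv.2 hx) (mem_sup1 h2)
      · exact mem_sup1 h1
    calc ‖ψ (k j * γ * (k i)⁻¹) - φ x‖
        = ‖(φ (k j * γ * (k i)⁻¹) - φ x) + (ψ (k j * γ * (k i)⁻¹) - φ (k j * γ * (k i)⁻¹))‖ := by
          congr 1; ring
      _ ≤ _ := norm_add_le _ _
      _ ≤ κ := add_le_add (hφe γ i j y h1 h2) (hψφ γ hγ i j)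
  have hSc : Continuous (tsf Γ f) := tsum_cont Γ fc fs
  have hqc : Continuous (fun y => f y * tsf Γ f (x⁻¹ * y)) :=
    fc.mul (hSc.comp (continuous_const_mul x⁻¹))
  have hqs : HasCompactSupport (fun y => f y * tsf Γ f (x⁻¹ * y)) := fs.mul_right
  have iq : Integrable (fun y => f y * tsf Γ f (x⁻¹ * y)) μ :=
    hqc.integrable_of_hasCompactSupport hqs
  have ifi : Integrable f μ := fc.integrable_of_hasCompactSupport fs
  have ik : Integrable (fun y => ker Γ k θ ψ S x 1 y) μ :=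
    (ker_cont Γ hθc x 1).integrable_of_hasCompactSupport (ker_comp Γ hθs x 1)
  set Q := ∫ y, f y * tsf Γ f (x⁻¹ * y) ∂μ with hQ
  have hov := overlap Γ ⟨fc, fs, f0', f1⟩ hm x
  have hQf : Q ≤ ∫ y, f y ∂μ := by
    apply integral_mono iq ifi
    intro y
    exact mul_le_of_le_one_right (f0' y) (f1 _)
  have hfm' : ∫ y, f y ∂μ ≤ m := hm f ⟨fc, fs, f0', f1⟩
  have hQm : Q ≤ m := hQf.trans hfm'
  have hQ2 : m - Q ≤ 2 * η := by
    change 2 * ∫ y, f y ∂μ - Q ≤ m at hov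
    have : m - η < ∫ y, f y ∂μ := hfm
    linarith
  have hφx : ‖φ x‖ ≤ M ^ 2 := by
    have : φ x = ⟪w x, w 1⟫_ℂ := by rw [hw]; simp
    rw [this]
    refine (norm_inner_le_norm _ _).trans ?_
    rw [hwn, hwn]
    nlinarith
  have hdiff : ‖(∫ y, ker Γ k θ ψ S x 1 y ∂μ) - (Q : ℂ) * φ x‖ ≤ κ * m := by
    have e1 : (Q : ℂ) * φ x = ∫ y, ((f y * tsf Γ f (x⁻¹ * y) : ℝ) : ℂ) * φ x ∂μ := by
      rw [integral_mul_const, integral_complex_ofReal]
    have iq' : Integrable (fun y => ((f y * tsf Γ f (x⁻¹ * y) : ℝ) : ℂ) * φ x) μ :=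
      (iq.ofReal (𝕜 := ℂ)).mul_const _
    rw [e1, ← integral_sub ik iq']
    calc _ ≤ ∫ y, κ * (f y * tsf Γ f (x⁻¹ * y)) ∂μ :=
          norm_integral_le_of_norm_le (iq.const_mul κ) (Eventually.of_forall hker)
      _ = κ * Q := by rw [integral_const_mul]
      _ ≤ κ * m := by gcongr
  have hpx : ‖p x - φ x‖ ≤ κ + ε / 4 := by
    have hmC : (m : ℂ) ≠ 0 := by exact_mod_cast hmpos.ne'
    have e2 : p x - φ x = ((1 / m : ℝ) : ℂ) *
        (((∫ y, ker Γ k θ ψ S x 1 y ∂μ) - (Q : ℂ) * φ x) - ((m - Q : ℝ) : ℂ) * φ x) := by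
      simp only [hp]
      push_cast
      field_simp
      ring
    rw [e2, norm_mul, Complex.norm_real, Real.norm_of_nonneg (by positivity)]
    have e3 : ‖((∫ y, ker Γ k θ ψ S x 1 y ∂μ) - (Q : ℂ) * φ x) - ((m - Q : ℝ) : ℂ) * φ x‖ ≤
        κ * m + 2 * η * M ^ 2 := by
      refine (norm_sub_le _ _).trans ?_
      apply add_le_add hdiff
      rw [norm_mul, Complex.norm_real, Real.norm_of_nonneg (by linarith)]
      gcongr
    calc 1 / m * _ ≤ 1 / m * (κ * m + 2 * η * M ^ 2) := by gcongr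
      _ = κ + ε / 4 * (M ^ 2 / (M ^ 2 + 1)) := by
          rw [hη]
          field_simp
          ring
      _ ≤ κ + ε / 4 * 1 := by
          gcongr
          rw [div_le_one (by positivity)]
          linarith
      _ = κ + ε / 4 := by ring
  have hκε : κ ≤ ε / 4 + ε / 8 := by
    have : 2 * ε₁ * M ≤ ε / 4 := by
      rw [hε₁]
      calc 2 * (ε / (8 * (M + 1))) * M = ε / 4 * (M / (M + 1)) := by
            field_simp
            ring
        _ ≤ ε / 4 * 1 := by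
            gcongr
            rw [div_le_one (by positivity)]
            linarith
        _ = ε / 4 := by ring
    linarith
  calc ‖φ x - coef ξ x‖ = ‖(p x - coef ξ x) - (p x - φ x)‖ := by congr 1; ring
    _ ≤ ‖p x - coef ξ x‖ + ‖p x - φ x‖ := norm_sub_le _ _
    _ < ε / 8 + (κ + ε / 4) := add_lt_add_of_lt_of_le (hξp x) hpx
    _ ≤ ε := by linarith

end Pool.Agent.TH276.Eb
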