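import Pool.Agent.TH276.Eb.God
import Pool.Agent.TH276.Eb.Kern

set_option autoImplicit false
set_option linter.unusedSectionVars false
set_option linter.unusedVariables false

open MeasureTheory Filter Topology
open scoped ENNReal NNReal ComplexConjugate InnerProductSpace Pointwise

namespace Pool.Agent.TH276.Eb

universe u v

variable {G : Type u} [Group G] [TopologicalSpace G] [IsTopologicalGroup G]
  [LocallyCompactSpace G] [T2Space G] [MeasurableSpace G] [BorelSpace G]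

/-- diagonal coefficient of the left regular representation -/
noncomputable def coef (ξ : G → ℂ) (x : G) : ℂ :=
  ∫ y, ξ y * (starRingEnd ℂ) (ξ (x⁻¹ * y)) ∂(Measure.haar : Measure G)

section

variable {E : Type v} [NormedAddCommGroup E] [InnerProductSpace ℂ E] {η : G → E}

/-- coefficient multiplied by the kernel `⟪η t, η s⟫` -/
noncomputable def coefK (η : G → E) (ξ : G → ℂ) (x : G) : ℂ :=
  ∫ y, ⟪η (x⁻¹ * y), η y⟫_ℂ * (ξ y * (starRingEnd ℂ) (ξ (x⁻¹ * y))) ∂(Measure.haar : Measure G)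

lemma memLp_translate {ξ : G → ℂ} (hξ : MemLp ξ 2 (Measure.haar : Measure G)) (x : G) :
    MemLp (fun y => ξ (x * y)) 2 (Measure.haar : Measure G) :=
  hξ.comp_measurePreserving (measurePreserving_mul_left Measure.haar x)

lemma integrable_prod {ξ : G → ℂ} (hξ : MemLp ξ 2 (Measure.haar : Measure G)) (x z : G) :
    Integrable (fun y => ξ (x * y) * (starRingEnd ℂ) (ξ (z * y))) (Measure.haar : Measure G) := by
  have h1 := memLp_translate hξ x
  have h2 : MemLp (fun y => (starRingEnd ℂ) (ξ (z * y))) 2 (Measure.haar : Measure G) :=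
    (memLp_translate hξ z).star
  exact h1.integrable_mul h2

lemma norm_ker_le (hη : ∀ s, ‖η s‖ = 1) (s t : G) : ‖⟪η s, η t⟫_ℂ‖ ≤ 1 := by
  refine (norm_inner_le_norm _ _).trans ?_
  rw [hη, hη, one_mul]

lemma integrable_prodK (hηc : Continuous η) (hη : ∀ s, ‖η s‖ = 1) {ξ : G → ℂ}
    (hξ : MemLp ξ 2 (Measure.haar : Measure G)) (x z : G) :
    Integrable (fun y => ⟪η (z * y), η (x * y)⟫_ℂ * (ξ (x * y) * (starRingEnd ℂ) (ξ (z * y))))
      (Measure.haar : Measure G) := by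
  have hc : Continuous (fun y => ⟪η (z * y), η (x * y)⟫_ℂ) := by fun_prop
  refine (integrable_prod hξ x z).bdd_mul (c := 1) hc.aestronglyMeasurable ?_
  exact Eventually.of_forall fun y => norm_ker_le hη _ _

lemma coef_one {ξ : G → ℂ} (hξ : MemLp ξ 2 (Measure.haar : Measure G)) :
    coef ξ 1 = ((∫ y, ‖ξ y‖ ^ 2 ∂(Measure.haar : Measure G) : ℝ) : ℂ) := by
  unfold coef
  rw [← integral_complex_ofReal]
  congr 1
  ext y
  rw [inv_one, one_mul, Complex.mul_conj, Complex.normSq_eq_norm_sq]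

lemma norm_coefK_sub_le (hηc : Continuous η) (hη : ∀ s, ‖η s‖ = 1) {ξ : G → ℂ}
    (hξ : MemLp ξ 2 (Measure.haar : Measure G)) (x : G) (κ : ℝ)
    (hκ : ∀ s, ‖η (x⁻¹ * s) - η s‖ ≤ κ) :
    ‖coefK η ξ x - coef ξ x‖ ≤ κ * (coef ξ 1).re := by
  have i0 := integrable_prod hξ 1 x⁻¹
  have i1 := integrable_prodK hηc hη hξ 1 x⁻¹
  simp only [one_mul] at i0 i1
  unfold coefK
  rw [coef_one hξ, Complex.ofReal_re]
  unfold coef
  rw [← integral_sub i1 i0]
  have j1 : Integrable (fun y => ‖ξ y‖ ^ 2) (Measure.haar : Measure G) := by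
    have := hξ.integrable_norm_pow (by norm_num)
    simpa using this
  have j2 : Integrable (fun y => ‖ξ (x⁻¹ * y)‖ ^ 2) (Measure.haar : Measure G) := by
    have := (memLp_translate hξ x⁻¹).integrable_norm_pow (by norm_num)
    simpa using this
  have hκ0 : 0 ≤ κ := (norm_nonneg _).trans (hκ 1)
  calc ‖∫ y, (⟪η (x⁻¹ * y), η y⟫_ℂ * (ξ y * (starRingEnd ℂ) (ξ (x⁻¹ * y))) -
        ξ y * (starRingEnd ℂ) (ξ (x⁻¹ * y))) ∂(Measure.haar : Measure G)‖
      ≤ ∫ y, (κ / 2) * ‖ξ y‖ ^ 2 + (κ / 2) * ‖ξ (x⁻¹ * y)‖ ^ 2 ∂(Measure.haar : Measure G) := by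
        apply norm_integral_le_of_norm_le ((j1.const_mul _).add (j2.const_mul _))
        refine Eventually.of_forall fun y => ?_
        have e1 : ⟪η (x⁻¹ * y), η y⟫_ℂ * (ξ y * (starRingEnd ℂ) (ξ (x⁻¹ * y))) -
            ξ y * (starRingEnd ℂ) (ξ (x⁻¹ * y)) =
            ⟪η (x⁻¹ * y) - η y, η y⟫_ℂ * (ξ y * (starRingEnd ℂ) (ξ (x⁻¹ * y))) := by
          rw [inner_sub_left, inner_self_eq_norm_sq_to_K, hη]
          push_cast
          ring
        rw [e1, norm_mul, norm_mul, RCLike.norm_conj]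
        have h1 : ‖⟪η (x⁻¹ * y) - η y, η y⟫_ℂ‖ ≤ κ := by
          refine (norm_inner_le_norm _ _).trans ?_
          rw [hη, mul_one]
          exact hκ y
        have h2 : ‖ξ y‖ * ‖ξ (x⁻¹ * y)‖ ≤ (‖ξ y‖ ^ 2 + ‖ξ (x⁻¹ * y)‖ ^ 2) / 2 := by
          nlinarith [sq_nonneg (‖ξ y‖ - ‖ξ (x⁻¹ * y)‖)]
        calc _ ≤ κ * ((‖ξ y‖ ^ 2 + ‖ξ (x⁻¹ * y)‖ ^ 2) / 2) := by gcongr
          _ = κ / 2 * ‖ξ y‖ ^ 2 + κ / 2 * ‖ξ (x⁻¹ * y)‖ ^ 2 := by ring
    _ = κ * ∫ y, ‖ξ y‖ ^ 2 ∂(Measure.haar : Measure G) := by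
        rw [integral_add (j1.const_mul _) (j2.const_mul _), integral_const_mul, integral_const_mul,
          integral_mul_left_eq_self (fun y => ‖ξ y‖ ^ 2) x⁻¹]
        ring

lemma norm_coefK_le (hηc : Continuous η) (hη : ∀ s, ‖η s‖ = 1) {ξ : G → ℂ}
    (hξ : MemLp ξ 2 (Measure.haar : Measure G)) (x : G) :
    ‖coefK η ξ x‖ ≤ (coef ξ 1).re := by
  rw [coef_one hξ, Complex.ofReal_re]
  unfold coefK
  have j1 : Integrable (fun y => ‖ξ y‖ ^ 2) (Measure.haar : Measure G) := by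
    have := hξ.integrable_norm_pow (by norm_num)
    simpa using this
  have j2 : Integrable (fun y => ‖ξ (x⁻¹ * y)‖ ^ 2) (Measure.haar : Measure G) := by
    have := (memLp_translate hξ x⁻¹).integrable_norm_pow (by norm_num)
    simpa using this
  calc ‖∫ y, ⟪η (x⁻¹ * y), η y⟫_ℂ * (ξ y * (starRingEnd ℂ) (ξ (x⁻¹ * y)))
        ∂(Measure.haar : Measure G)‖
      ≤ ∫ y, (1 / 2) * ‖ξ y‖ ^ 2 + (1 / 2) * ‖ξ (x⁻¹ * y)‖ ^ 2 ∂(Measure.haar : Measure G) := by
        apply norm_integral_le_of_norm_le ((j1.const_mul _).add (j2.const_mul _))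
        refine Eventually.of_forall fun y => ?_
        rw [norm_mul, norm_mul, RCLike.norm_conj]
        have h1 : ‖⟪η (x⁻¹ * y), η y⟫_ℂ‖ ≤ 1 := norm_ker_le hη _ _
        have h2 : ‖ξ y‖ * ‖ξ (x⁻¹ * y)‖ ≤ (‖ξ y‖ ^ 2 + ‖ξ (x⁻¹ * y)‖ ^ 2) / 2 := by
          nlinarith [sq_nonneg (‖ξ y‖ - ‖ξ (x⁻¹ * y)‖)]
        calc _ ≤ 1 * ((‖ξ y‖ ^ 2 + ‖ξ (x⁻¹ * y)‖ ^ 2) / 2) := by gcongr
          _ = 1 / 2 * ‖ξ y‖ ^ 2 + 1 / 2 * ‖ξ (x⁻¹ * y)‖ ^ 2 := by ring
    _ = ∫ y, ‖ξ y‖ ^ 2 ∂(Measure.haar : Measure G) := by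
        rw [integral_add (j1.const_mul _) (j2.const_mul _), integral_const_mul, integral_const_mul,
          integral_mul_left_eq_self (fun y => ‖ξ y‖ ^ 2) x⁻¹]
        ring

lemma coefK_shift (ξ : G → ℂ) (x y : G) :
    coefK η ξ (y⁻¹ * x) = ∫ s, ⟪η (x⁻¹ * s), η (y⁻¹ * s)⟫_ℂ *
      (ξ (y⁻¹ * s) * (starRingEnd ℂ) (ξ (x⁻¹ * s))) ∂(Measure.haar : Measure G) := by
  unfold coefK
  rw [← integral_mul_left_eq_self _ y⁻¹]
  congr 1
  ext s
  have : (y⁻¹ * x)⁻¹ * (y⁻¹ * s) = x⁻¹ * s := by group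
  rw [this]

lemma pdk_coefK (hηc : Continuous η) (hη : ∀ s, ‖η s‖ = 1) {ξ : G → ℂ}
    (hξ : MemLp ξ 2 (Measure.haar : Measure G)) :
    PDK (fun x y => coefK η ξ (y⁻¹ * x)) := by
  refine ⟨fun x y => ?_, fun s c => ?_⟩
  · simp only
    rw [coefK_shift, coefK_shift, ← integral_conj]
    congr 1
    ext t
    rw [map_mul, inner_conj_symm, map_mul, Complex.conj_conj]
    ring
  · have h1 : (∑ x ∈ s, ∑ y ∈ s, conj (c x) * c y * coefK η ξ (y⁻¹ * x)) =
        ∫ t, ∑ x ∈ s, ∑ y ∈ s, conj (c x) * c y * (⟪η (x⁻¹ * t), η (y⁻¹ * t)⟫_ℂ *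
          (ξ (y⁻¹ * t) * (starRingEnd ℂ) (ξ (x⁻¹ * t)))) ∂(Measure.haar : Measure G) := by
      rw [integral_finsetSum _ (fun x _ => integrable_finsetSum _ fun y _ =>
        (integrable_prodK hηc hη hξ y⁻¹ x⁻¹).const_mul _)]
      refine Finset.sum_congr rfl fun x _ => ?_
      rw [integral_finsetSum _ (fun y _ => (integrable_prodK hηc hη hξ y⁻¹ x⁻¹).const_mul _)]
      refine Finset.sum_congr rfl fun y _ => ?_
      rw [integral_const_mul, coefK_shift]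
    rw [h1]
    have h2 : ∀ t, (∑ x ∈ s, ∑ y ∈ s, conj (c x) * c y * (⟪η (x⁻¹ * t), η (y⁻¹ * t)⟫_ℂ *
          (ξ (y⁻¹ * t) * (starRingEnd ℂ) (ξ (x⁻¹ * t))))) =
        ((‖∑ x ∈ s, (c x * ξ (x⁻¹ * t)) • η (x⁻¹ * t)‖ ^ 2 : ℝ) : ℂ) := by
      intro t
      have h3 := inner_self_eq_norm_sq_to_K (𝕜 := ℂ) (∑ x ∈ s, (c x * ξ (x⁻¹ * t)) • η (x⁻¹ * t))
      rw [sum_inner] at h3
      simp_rw [inner_sum, inner_smul_left, inner_smul_right] at h3
      push_cast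
      refine Eq.trans ?_ h3
      refine Finset.sum_congr rfl fun x _ => Finset.sum_congr rfl fun y _ => ?_
      rw [map_mul]
      ring
    simp_rw [h2]
    rw [integral_complex_ofReal, Complex.ofReal_re]
    exact integral_nonneg fun _ => by positivity

omit [LocallyCompactSpace G] [T2Space G] [MeasurableSpace G] [BorelSpace G] in
theorem continuous_gram {H : Type*} [NormedAddCommGroup H] [InnerProductSpace ℂ H] {w : G → H}
    {p : G → ℂ} (hw : ∀ x y, ⟪w x, w y⟫_ℂ = p (y⁻¹ * x)) (hc1 : Tendsto p (𝓝 1) (𝓝 (p 1))) :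
    Continuous w := by
  rw [continuous_iff_continuousAt]
  intro x
  rw [ContinuousAt, tendsto_iff_norm_sub_tendsto_zero]
  have h1 : ∀ z, ‖w z - w x‖ ^ 2 = 2 * (p 1).re - 2 * (p (x⁻¹ * z)).re := by
    intro z
    rw [norm_sub_sq (𝕜 := ℂ)]
    have e2 : ∀ y, ‖w y‖ ^ 2 = (p 1).re := by
      intro y
      rw [← inner_self_eq_norm_sq (𝕜 := ℂ), hw]
      simp
    rw [e2, e2, hw]
    show (p 1).re - 2 * (p (x⁻¹ * z)).re + (p 1).re = _
    ring
  have h2 : Tendsto (fun z => ‖w z - w x‖ ^ 2) (𝓝 x) (𝓝 0) := by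
    have h3 : Tendsto (fun z => x⁻¹ * z) (𝓝 x) (𝓝 1) := by
      have : Continuous (fun z => x⁻¹ * z) := by fun_prop
      simpa using this.tendsto x
    have h4 : Tendsto (fun z => 2 * (p 1).re - 2 * (p (x⁻¹ * z)).re) (𝓝 x) (𝓝 0) := by
      have h5 := ((Complex.continuous_re.tendsto _).comp (hc1.comp h3)).const_mul 2
      have h6 := h5.const_sub (2 * (p 1).re)
      simpa using h6
    exact h4.congr fun z => (h1 z).symm
  have h3 := h2.sqrt
  simpa using h3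

/-- the set of diagonal coefficients of the left regular representation -/
def coefSet (G : Type u) [Group G] [TopologicalSpace G] [IsTopologicalGroup G]
    [LocallyCompactSpace G] [MeasurableSpace G] [BorelSpace G] : Set (G → ℂ) :=
  {ψ | ∃ ξ : G → ℂ, MemLp ξ 2 (Measure.haar : Measure G) ∧ ∀ x, ψ x = coef ξ x}

/-- **One step.** For a map `η` from `G` to the unit sphere of a Hilbert space, uniformly continuous,
and `φ` in the pointwise closure of the coefficients there is a continuous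
positive definite function `p` with `|p - φ|` controlled by the variation of `η`, and supported where
the kernel of `η` is. -/
theorem one_step (hηc : Continuous η) (hη : ∀ s, ‖η s‖ = 1)
    (hηu : ∀ ε : ℝ, 0 < ε → ∀ᶠ x in 𝓝 (1 : G), ∀ s, ‖η (x⁻¹ * s) - η s‖ ≤ ε)
    {φ : G → ℂ} (hφc : Continuous φ) (hφ : φ ∈ closure (coefSet G)) :
    ∃ p : G → ℂ, PDK (fun x y => p (y⁻¹ * x)) ∧ Continuous p ∧
      (∀ (x : G) (κ : ℝ), (∀ s, ‖η (x⁻¹ * s) - η s‖ ≤ κ) → ‖p x - φ x‖ ≤ κ * (φ 1).re) ∧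
      (∀ x : G, (∀ s, ⟪η (x⁻¹ * s), η s⟫_ℂ = 0) → p x = 0) := by
  classical
  obtain ⟨U, hUS, hUφ⟩ := mem_closure_iff_ultrafilter.1 hφ
  -- choose the vectors
  have hch : ∀ ψ : G → ℂ, ∃ ξ : G → ℂ, MemLp ξ 2 (Measure.haar : Measure G) ∧
      (ψ ∈ coefSet G → ∀ x, ψ x = coef ξ x) := by
    intro ψ
    by_cases h : ψ ∈ coefSet G
    · obtain ⟨ξ, h1, h2⟩ := h
      exact ⟨ξ, h1, fun _ => h2⟩
    · exact ⟨0, MemLp.zero, fun h' => absurd h' h⟩
  choose ξ hξ hξc using hch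
  have htend : ∀ x, Tendsto (fun ψ : G → ℂ => ψ x) U (𝓝 (φ x)) := fun x =>
    ((continuous_apply x).tendsto φ).mono_left hUφ
  have hcoef : ∀ x, Tendsto (fun ψ : G → ℂ => coef (ξ ψ) x) U (𝓝 (φ x)) := by
    intro x
    refine (htend x).congr' ?_
    filter_upwards [hUS] with ψ hψ
    exact hξc ψ hψ x
  have hcoef1 : Tendsto (fun ψ : G → ℂ => (coef (ξ ψ) 1).re) U (𝓝 (φ 1).re) :=
    (Complex.continuous_re.tendsto _).comp (hcoef 1)
  have hbd : ∀ᶠ ψ in (U : Filter (G → ℂ)), (coef (ξ ψ) 1).re ≤ (φ 1).re + 1 :=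
    hcoef1.eventually (ge_mem_nhds (by linarith))
  have hlim : ∀ x, ∃ a : ℂ, Tendsto (fun ψ : G → ℂ => coefK η (ξ ψ) x) U (𝓝 a) := by
    intro x
    have hc : IsCompact (Metric.closedBall (0 : ℂ) ((φ 1).re + 1)) := isCompact_closedBall _ _
    have hmem : Metric.closedBall (0 : ℂ) ((φ 1).re + 1) ∈ U.map (fun ψ => coefK η (ξ ψ) x) := by
      rw [Ultrafilter.mem_map]
      filter_upwards [hbd] with ψ hψ
      simp only [Set.mem_preimage, mem_closedBall_zero_iff]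
      exact (norm_coefK_le hηc hη (hξ ψ) x).trans hψ
    obtain ⟨a, -, ha⟩ := hc.ultrafilter_le_nhds' _ hmem
    exact ⟨a, ha⟩
  choose p hp using hlim
  have hpdk : PDK (fun x y => p (y⁻¹ * x)) := by
    refine ⟨fun x y => ?_, fun s c => ?_⟩
    · simp only
      refine tendsto_nhds_unique (hp (x⁻¹ * y)) ?_
      have h1 : Tendsto (fun ψ => conj (coefK η (ξ ψ) (y⁻¹ * x))) U (𝓝 (conj (p (y⁻¹ * x)))) :=
        (Complex.continuous_conj.tendsto _).comp (hp (y⁻¹ * x))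
      refine h1.congr fun ψ => ?_
      exact ((pdk_coefK hηc hη (hξ ψ)).1 x y).symm
    · have h1 : Tendsto (fun ψ => (∑ x ∈ s, ∑ y ∈ s, conj (c x) * c y *
          coefK η (ξ ψ) (y⁻¹ * x)).re) U
          (𝓝 (∑ x ∈ s, ∑ y ∈ s, conj (c x) * c y * p (y⁻¹ * x)).re) := by
        refine (Complex.continuous_re.tendsto _).comp ?_
        refine tendsto_finsetSum _ fun x _ => tendsto_finsetSum _ fun y _ => ?_
        exact (hp (y⁻¹ * x)).const_mul _
      exact ge_of_tendsto' h1 fun ψ => (pdk_coefK hηc hη (hξ ψ)).2 s c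
  have hclose : ∀ (x : G) (κ : ℝ), (∀ s, ‖η (x⁻¹ * s) - η s‖ ≤ κ) →
      ‖p x - φ x‖ ≤ κ * (φ 1).re := by
    intro x κ hκ
    have h1 : Tendsto (fun ψ => ‖coefK η (ξ ψ) x - coef (ξ ψ) x‖) U (𝓝 ‖p x - φ x‖) :=
      ((hp x).sub (hcoef x)).norm
    have h2 : Tendsto (fun ψ => κ * (coef (ξ ψ) 1).re) U (𝓝 (κ * (φ 1).re)) :=
      hcoef1.const_mul _
    exact le_of_tendsto_of_tendsto' h1 h2 fun ψ => norm_coefK_sub_le hηc hη (hξ ψ) x κ hκ
  have hzero : ∀ x : G, (∀ s, ⟪η (x⁻¹ * s), η s⟫_ℂ = 0) → p x = 0 := by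
    intro x hx
    refine tendsto_nhds_unique (hp x) ?_
    have : (fun ψ : G → ℂ => coefK η (ξ ψ) x) = fun _ => 0 := by
      ext ψ
      unfold coefK
      simp [hx]
    rw [this]
    exact tendsto_const_nhds
  have hp1 : p 1 = φ 1 := by
    have := hclose 1 0 (by simp)
    rw [zero_mul] at this
    exact sub_eq_zero.1 (norm_le_zero_iff.1 this)
  have hφ1 : 0 ≤ (φ 1).re := by
    refine ge_of_tendsto' hcoef1 fun ψ => ?_
    rw [coef_one (hξ ψ), Complex.ofReal_re]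
    exact integral_nonneg fun _ => by positivity
  -- continuity at 1
  have hc1 : Tendsto p (𝓝 1) (𝓝 (p 1)) := by
    have h1 : Tendsto (fun x => p x - φ x) (𝓝 1) (𝓝 0) := by
      rw [Metric.tendsto_nhds]
      intro ε hε
      filter_upwards [hηu (ε / (2 * ((φ 1).re + 1))) (by positivity)] with x hx
      rw [dist_zero_right]
      refine (hclose x _ hx).trans_lt ?_
      calc ε / (2 * ((φ 1).re + 1)) * (φ 1).re ≤ ε / (2 * ((φ 1).re + 1)) * ((φ 1).re + 1) := by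
            gcongr
            linarith
        _ = ε / 2 := by field_simp
        _ < ε := by linarith
    have h2 := h1.add (hφc.tendsto 1)
    simp only [sub_add_cancel, zero_add] at h2
    rw [hp1]
    exact h2
  refine ⟨p, hpdk, ?_, hclose, hzero⟩
  -- continuity everywhere
  obtain ⟨H, _, _, _, w, hw⟩ := exists_gram hpdk
  have hwc : Continuous w := continuous_gram hw hc1
  have hpx : p = fun x => ⟪w x, w 1⟫_ℂ := by
    ext x
    rw [hw]
    simp
  rw [hpx]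
  fun_prop

end

end Pool.Agent.TH276.Eb
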